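import Mathlib.Tactic.NoncommRing
import Mathlib.RingTheory.FiniteType
import Mathlib.LinearAlgebra.Matrix.InvariantBasisNumber
import Mathlib.LinearAlgebra.Matrix.Trace
import Mathlib.Tactic.LinearCombination
import Mathlib.RingTheory.Derivation.Basic
import Mathlib.Algebra.Order.Archimedean.Real.Basic
import Mathlib.Tactic.Algebra.Basic

/-! Riemannian geometry in a commutative algebra with commuting derivations. -/

open scoped Matrix

namespace Pool.Agent.MP_c98b3a_gt

/-- A metric `g` with inverse `h` over a commutative algebra with commuting derivations. -/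
structure Geo (ι : Type) [Fintype ι] [DecidableEq ι] (A : Type) [CommRing A] [Algebra ℝ A] where
  D : ι → Derivation ℝ A A
  comm : ∀ i j a, D i (D j a) = D j (D i a)
  g : Matrix ι ι A
  h : Matrix ι ι A
  gs : ∀ i j, g i j = g j i
  hs : ∀ i j, h i j = h j i
  hg : h * g = 1

variable {ι : Type} [Fintype ι] [DecidableEq ι] {A : Type} [CommRing A] [Algebra ℝ A]

theorem der_mul (D : Derivation ℝ A A) (a b : A) : D (a * b) = D a * b + a * D b := by
  rw [Derivation.leibniz, smul_eq_mul, smul_eq_mul]; ring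

/-- Entrywise derivative of a matrix. -/
noncomputable def dm {m n : Type} (D : Derivation ℝ A A) (N : Matrix m n A) : Matrix m n A :=
  Matrix.of fun k l => D (N k l)

section Dm

variable {m n p : Type} (D : Derivation ℝ A A)

theorem dm_apply (N : Matrix m n A) (k : m) (l : n) : dm D N k l = D (N k l) := rfl

theorem dm_mul [Fintype n] (N : Matrix m n A) (N' : Matrix n p A) :
    dm D (N * N') = dm D N * N' + N * dm D N' := by
  ext k l
  simp only [dm, Matrix.of_apply, Matrix.mul_apply, Matrix.add_apply, map_sum, der_mul,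
    Finset.sum_add_distrib]

theorem dm_add (N N' : Matrix m n A) : dm D (N + N') = dm D N + dm D N' := by
  ext k l; simp [dm]

theorem dm_sub (N N' : Matrix m n A) : dm D (N - N') = dm D N - dm D N' := by
  ext k l; simp [dm]

theorem dm_neg (N : Matrix m n A) : dm D (-N) = -dm D N := by
  ext k l; simp [dm]

theorem dm_zero : dm D (0 : Matrix m n A) = 0 := by
  ext k l; simp [dm]

theorem dm_one [DecidableEq m] : dm D (1 : Matrix m m A) = 0 := by
  ext k l
  simp only [dm, Matrix.of_apply, Matrix.one_apply, Matrix.zero_apply]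
  split_ifs <;> simp

theorem dm_transpose (N : Matrix m n A) : dm D Nᵀ = (dm D N)ᵀ := rfl

theorem dm_smul (a : A) (N : Matrix m n A) : dm D (a • N) = D a • N + a • dm D N := by
  ext k l
  simp only [dm, Matrix.of_apply, Matrix.smul_apply, Matrix.add_apply, smul_eq_mul, der_mul]

theorem dm_sum {s : Type} [Fintype s] (N : s → Matrix m n A) :
    dm D (∑ a, N a) = ∑ a, dm D (N a) := by
  ext k l
  simp only [dm, Matrix.of_apply, Matrix.sum_apply, map_sum]

theorem dm_fromBlocks {q : Type} (N₁ : Matrix m n A) (N₂ : Matrix m q A) (N₃ : Matrix p n A)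
    (N₄ : Matrix p q A) : dm D (Matrix.fromBlocks N₁ N₂ N₃ N₄) =
      Matrix.fromBlocks (dm D N₁) (dm D N₂) (dm D N₃) (dm D N₄) := by
  ext (k | k) (l | l) <;> rfl

theorem dm_inv [Fintype m] [DecidableEq m] {g h : Matrix m m A} (hg : h * g = 1) :
    dm D h = -(h * dm D g * h) := by
  have gh : g * h = 1 := mul_eq_one_comm.1 hg
  have h1 := congrArg (dm D) hg
  rw [dm_mul, dm_one] at h1
  have h2 : dm D h = (dm D h * g + h * dm D g) * h - h * dm D g * h := by
    rw [add_mul, Matrix.mul_assoc (dm D h), gh, Matrix.mul_one]; abel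
  rw [h2, h1]; simp

end Dm

namespace Geo

variable (X : Geo ι A)

noncomputable def chr (k i j : ι) : A :=
  (1 / 2 : ℝ) • ∑ l, X.h k l * (X.D i (X.g l j) + X.D j (X.g l i) - X.D l (X.g i j))

noncomputable def ric (i j : ι) : A :=
  ∑ k, (X.D k (X.chr k i j) - X.D j (X.chr k i k)) +
    ∑ k, ∑ l, (X.chr k k l * X.chr l i j - X.chr k j l * X.chr l i k)

noncomputable def scal : A := ∑ i, ∑ j, X.h i j * X.ric i j

noncomputable def gradSq (φ : A) : A := ∑ i, ∑ j, X.h i j * X.D i φ * X.D j φ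

theorem gh : X.g * X.h = 1 := mul_eq_one_comm.1 X.hg

theorem g_transpose : X.gᵀ = X.g := by ext i j; exact X.gs j i

theorem h_transpose : X.hᵀ = X.h := by ext i j; exact X.hs j i

theorem up_dn (v : ι → A) (i : ι) : ∑ k, X.h i k * ∑ j, X.g k j * v j = v i := by
  have : X.h *ᵥ (X.g *ᵥ v) = v := by rw [Matrix.mulVec_mulVec, X.hg, Matrix.one_mulVec]
  exact congrFun this i

theorem dn_up (v : ι → A) (i : ι) : ∑ k, X.g i k * ∑ j, X.h k j * v j = v i := by
  have : X.g *ᵥ (X.h *ᵥ v) = v := by rw [Matrix.mulVec_mulVec, X.gh, Matrix.one_mulVec]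
  exact congrFun this i

theorem chr_symm (k i j : ι) : X.chr k i j = X.chr k j i := by
  simp only [chr, X.gs i j, add_comm]

theorem chr_low (l i j : ι) : ∑ k, X.g l k * X.chr k i j =
    (1 / 2 : ℝ) • (X.D i (X.g l j) + X.D j (X.g l i) - X.D l (X.g i j)) := by
  simp only [chr, mul_smul_comm, ← Finset.smul_sum, X.dn_up]

theorem compat (k i j : ι) :
    X.D k (X.g i j) = ∑ l, X.g j l * X.chr l k i + ∑ l, X.g i l * X.chr l k j := by
  rw [chr_low, chr_low, X.gs j i, X.gs j k, X.gs i k]
  algebra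

/-- Uniqueness of the Levi-Civita connection. -/
theorem chr_unique {Γ : ι → ι → ι → A} (hs : ∀ k i j, Γ k i j = Γ k j i)
    (hc : ∀ k i j, X.D k (X.g i j) = ∑ l, X.g j l * Γ l k i + ∑ l, X.g i l * Γ l k j)
    (k i j : ι) : X.chr k i j = Γ k i j := by
  rw [← X.up_dn (fun l => Γ l i j) k, chr, Finset.smul_sum]
  refine Finset.sum_congr rfl fun l _ => ?_
  rw [← mul_smul_comm, hc, hc, hc]
  simp only [fun m => hs m l i, fun m => hs m l j, fun m => hs m j i]
  congr 1
  algebra

/-- The connection matrices. -/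
noncomputable def cm (i : ι) : Matrix ι ι A := Matrix.of fun k l => X.chr k i l

theorem dm_comm {m n : Type} (i j : ι) (N : Matrix m n A) :
    dm (X.D i) (dm (X.D j) N) = dm (X.D j) (dm (X.D i) N) := by
  ext k l; exact X.comm i j _

theorem dm_g (k : ι) : dm (X.D k) X.g = (X.g * X.cm k)ᵀ + X.g * X.cm k := by
  ext i j; exact X.compat k i j

theorem dm_h (k : ι) : dm (X.D k) X.h = -(X.cm k * X.h + X.h * (X.cm k)ᵀ) := by
  rw [dm_inv _ X.hg, dm_g, Matrix.transpose_mul, g_transpose, mul_add, add_mul,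
    ← Matrix.mul_assoc, ← Matrix.mul_assoc, X.hg, Matrix.mul_assoc, X.gh, Matrix.one_mul,
    Matrix.mul_one, add_comm]

/-- The curvature matrices. -/
noncomputable def fm (i j : ι) : Matrix ι ι A :=
  dm (X.D i) (X.cm j) - dm (X.D j) (X.cm i) + X.cm i * X.cm j - X.cm j * X.cm i

theorem ric_eq (l j : ι) : X.ric l j = ∑ k, X.fm k j k l := by
  simp only [ric, fm, dm, cm, Matrix.of_apply, Matrix.sub_apply, Matrix.add_apply,
    Matrix.mul_apply, fun k i => X.chr_symm k l i, Finset.sum_add_distrib, Finset.sum_sub_distrib]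
  ring

/-- The Ricci tensor as a matrix. -/
noncomputable def rm : Matrix ι ι A := Matrix.of X.ric

theorem scal_tr : X.scal = (X.h * X.rmᵀ).trace := by
  simp only [scal, rm, Matrix.trace, Matrix.diag, Matrix.mul_apply, Matrix.of_apply,
    Matrix.transpose_apply]

/-- The contracted Christoffel symbol. -/
noncomputable def γ (i : ι) : A := (X.cm i).trace

/-- The quadratic part of the scalar curvature. -/
noncomputable def qq : A := ∑ i, ∑ j, X.h i j * (X.cm j * X.cm i).trace

theorem ric_γ (i j : ι) : X.ric i j = ∑ k, X.D k (X.chr k i j) - X.D j (X.γ i) +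
    ∑ l, X.γ l * X.chr l i j - (X.cm j * X.cm i).trace := by
  simp only [ric, γ, cm, Matrix.trace, Matrix.diag, Matrix.mul_apply, Matrix.of_apply, map_sum,
    Finset.sum_sub_distrib, Finset.sum_mul]
  rw [Finset.sum_comm (f := fun k l => X.chr k k l * X.chr l i j),
    Finset.sum_congr rfl fun l _ => Finset.sum_congr rfl fun k _ =>
      congrArg (· * X.chr l i j) (X.chr_symm k k l)]
  ring

theorem w_eq (k : ι) : ∑ i, ∑ j, X.h i j * X.chr k i j =
    -(∑ j, X.D j (X.h j k) + ∑ l, X.γ l * X.h l k) := by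
  have h1 : ∀ j, X.D j (X.h j k) = -(∑ l, X.chr j j l * X.h l k + ∑ l, X.h j l * X.chr k j l) :=
    fun j => congrFun (congrFun (X.dm_h j) j) k
  simp only [h1, γ, cm, Matrix.trace, Matrix.diag, Matrix.of_apply, Finset.sum_mul,
    Finset.sum_neg_distrib, Finset.sum_add_distrib]
  rw [Finset.sum_comm (f := fun j l => X.chr j j l * X.h l k),
    Finset.sum_congr rfl fun l _ => Finset.sum_congr rfl fun j _ =>
      congrArg (· * X.h l k) (X.chr_symm j j l)]
  ring

theorem dh_chr : ∑ k, ∑ i, ∑ j, X.D k (X.h i j) * X.chr k i j = -(2 * X.qq) := by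
  have h1 : ∀ k i j, X.D k (X.h i j) =
      -(∑ l, X.chr i k l * X.h l j + ∑ l, X.h i l * X.chr j k l) :=
    fun k i j => congrFun (congrFun (X.dm_h k) i) j
  have e1 : ∑ k, ∑ i, ∑ j, (∑ l, X.chr i k l * X.h l j) * X.chr k i j = X.qq := by
    simp only [qq, cm, Matrix.trace, Matrix.diag, Matrix.mul_apply, Matrix.of_apply,
      Finset.sum_mul, Finset.mul_sum]
    calc ∑ k, ∑ i, ∑ j, ∑ l, X.chr i k l * X.h l j * X.chr k i j
        = ∑ k, ∑ i, ∑ l, ∑ j, X.chr i k l * X.h l j * X.chr k i j :=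
          Finset.sum_congr rfl fun _ _ => Finset.sum_congr rfl fun _ _ => Finset.sum_comm
      _ = ∑ k, ∑ l, ∑ j, ∑ i, X.chr i k l * X.h l j * X.chr k i j :=
          Finset.sum_congr rfl fun _ _ => Finset.sum_comm.trans
            (Finset.sum_congr rfl fun _ _ => Finset.sum_comm)
      _ = ∑ l, ∑ j, ∑ k, ∑ i, X.chr i k l * X.h l j * X.chr k i j :=
          Finset.sum_comm.trans (Finset.sum_congr rfl fun _ _ => Finset.sum_comm)
      _ = _ := Finset.sum_congr rfl fun l _ => Finset.sum_congr rfl fun j _ =>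
          Finset.sum_congr rfl fun k _ => Finset.sum_congr rfl fun i _ => by
            rw [X.chr_symm k j i, X.chr_symm i l k]; ring
  have e2 : ∑ k, ∑ i, ∑ j, (∑ l, X.h i l * X.chr j k l) * X.chr k i j = X.qq := by
    rw [← e1]
    refine Finset.sum_congr rfl fun k _ => Finset.sum_comm.trans ?_
    refine Finset.sum_congr rfl fun j _ => Finset.sum_congr rfl fun i _ => ?_
    rw [X.chr_symm k i j]
    congr 1
    exact Finset.sum_congr rfl fun l _ => by rw [X.hs i l]; ring
  simp only [h1, neg_mul, add_mul, Finset.sum_neg_distrib, Finset.sum_add_distrib, e1, e2]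
  ring

/-- The scalar curvature as a divergence plus a quadratic term. -/
theorem scal_div : X.scal = X.qq -
    ∑ k, X.D k (∑ j, X.D j (X.h j k) + 2 * ∑ l, X.γ l * X.h l k) -
      ∑ l, ∑ k, X.γ l * X.h l k * X.γ k := by
  have a1 : ∑ i, ∑ j, X.h i j * ∑ k, X.D k (X.chr k i j) =
      ∑ k, X.D k (∑ i, ∑ j, X.h i j * X.chr k i j) + 2 * X.qq := by
    simp only [map_sum, der_mul, Finset.sum_add_distrib, dh_chr, Finset.mul_sum]
    rw [Finset.sum_congr rfl fun i _ => Finset.sum_comm, Finset.sum_comm]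
    ring
  have a2 : ∑ i, ∑ j, X.h i j * ∑ l, X.γ l * X.chr l i j =
      ∑ l, X.γ l * ∑ i, ∑ j, X.h i j * X.chr l i j := by
    simp only [Finset.mul_sum]
    rw [Finset.sum_congr rfl fun i _ => Finset.sum_comm, Finset.sum_comm]
    exact Finset.sum_congr rfl fun _ _ => Finset.sum_congr rfl fun _ _ =>
      Finset.sum_congr rfl fun _ _ => by ring
  have a3 : ∑ k, X.D k (∑ l, X.γ l * X.h l k) =
      ∑ i, ∑ j, X.h i j * X.D j (X.γ i) + ∑ l, X.γ l * ∑ j, X.D j (X.h j l) := by
    simp only [map_sum, der_mul, Finset.sum_add_distrib, Finset.mul_sum]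
    rw [Finset.sum_comm, Finset.sum_comm (f := fun k l => X.γ l * X.D k (X.h l k))]
    congr 1
    · exact Finset.sum_congr rfl fun _ _ => Finset.sum_congr rfl fun _ _ => by ring
    · exact Finset.sum_congr rfl fun _ _ => Finset.sum_congr rfl fun _ _ => by rw [X.hs]
  have a4 : ∑ l, X.γ l * ∑ k, X.γ k * X.h k l = ∑ l, ∑ k, X.γ l * X.h l k * X.γ k := by
    simp only [Finset.mul_sum]
    exact Finset.sum_congr rfl fun l _ => Finset.sum_congr rfl fun k _ => by rw [X.hs k l]; ring
  have two : ∀ (k : ι) (a : A), X.D k (2 * a) = 2 * X.D k a := fun k a => by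
    rw [two_mul, two_mul, map_add]
  have a5 : X.scal = ∑ i, ∑ j, X.h i j * ∑ k, X.D k (X.chr k i j) -
      ∑ i, ∑ j, X.h i j * X.D j (X.γ i) + ∑ i, ∑ j, X.h i j * ∑ l, X.γ l * X.chr l i j - X.qq := by
    simp only [scal, ric_γ, qq, mul_sub, mul_add, Finset.sum_add_distrib, Finset.sum_sub_distrib]
  rw [a5, a1, a2]
  simp only [w_eq, map_neg, map_add, two, Finset.sum_add_distrib, Finset.sum_neg_distrib,
    mul_neg, mul_add, ← Finset.mul_sum, a3, a4]
  ring

/-- A change of coordinates with Jacobian `P` (inverse `Q`); `g'` is the metric in the new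
coordinates. -/
structure Chg (X : Geo ι A) where
  P : Matrix ι ι A
  Q : Matrix ι ι A
  g' : Matrix ι ι A
  h' : Matrix ι ι A
  PQ : P * Q = 1
  DP : ∀ a i j, X.D i (P a j) = X.D j (P a i)
  gs : ∀ i j, g' i j = g' j i
  hs : ∀ i j, h' i j = h' j i
  hg : h' * g' = 1
  gg : X.g = Pᵀ * g' * P

variable {X} (C : X.Chg)

namespace Chg

theorem QP : C.Q * C.P = 1 := mul_eq_one_comm.1 C.PQ

/-- The derivations of the new coordinates. -/
noncomputable def D' (a : ι) : Derivation ℝ A A := ∑ i, C.Q i a • X.D i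

theorem D'_apply (a : ι) (f : A) : C.D' a f = ∑ i, C.Q i a * X.D i f := by
  have h := map_sum (Derivation.coeFnAddMonoidHom (R := ℝ) (A := A) (M := A))
    (fun i => C.Q i a • X.D i) Finset.univ
  have h2 := congrFun h f
  rw [Finset.sum_apply] at h2
  exact h2

theorem D_Q (i j b : ι) :
    X.D i (C.Q j b) = -∑ c, C.Q j c * ∑ k, X.D i (C.P c k) * C.Q k b := by
  have := congrFun (congrFun (dm_inv (X.D i) C.QP) j) b
  rw [Matrix.mul_assoc] at this
  exact this

/-- The metric in the new coordinates. -/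
noncomputable def geo : Geo ι A where
  D := C.D'
  comm a b f := by
    have key : ∀ a b, C.D' a (C.D' b f) = ∑ i, ∑ j, C.Q i a * C.Q j b * X.D i (X.D j f) -
        ∑ j, ∑ c, C.Q j c * X.D j f * ∑ i, ∑ k, C.Q i a * C.Q k b * X.D i (C.P c k) := by
      intro a b
      rw [D'_apply, D'_apply]
      simp only [map_sum, der_mul, D_Q, Finset.mul_sum, mul_add, Finset.sum_add_distrib,
        neg_mul, mul_neg, Finset.sum_neg_distrib, Finset.sum_mul]
      rw [add_comm, ← sub_eq_add_neg]
      congr 1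
      · exact Finset.sum_congr rfl fun _ _ => Finset.sum_congr rfl fun _ _ => by ring
      · rw [Finset.sum_comm]
        refine Finset.sum_congr rfl fun j _ => Finset.sum_comm.trans ?_
        exact Finset.sum_congr rfl fun _ _ => Finset.sum_congr rfl fun _ _ =>
          Finset.sum_congr rfl fun _ _ => by ring
    rw [key, key]
    congr 1
    · rw [Finset.sum_comm]
      exact Finset.sum_congr rfl fun i _ => Finset.sum_congr rfl fun j _ => by
        rw [X.comm j i]; ring
    · refine Finset.sum_congr rfl fun j _ => Finset.sum_congr rfl fun c _ => ?_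
      rw [Finset.sum_comm]
      congr 1
      exact Finset.sum_congr rfl fun i _ => Finset.sum_congr rfl fun k _ => by
        rw [C.DP c k i]; ring
  g := C.g'
  h := C.h'
  gs := C.gs
  hs := C.hs
  hg := C.hg

theorem geo_D (a : ι) (f : A) : C.geo.D a f = ∑ i, C.Q i a * X.D i f := C.D'_apply a f

theorem D_eq (i : ι) (f : A) : X.D i f = ∑ a, C.P a i * C.geo.D a f := by
  have : C.Pᵀ *ᵥ (C.Qᵀ *ᵥ fun i => X.D i f) = fun i => X.D i f := by
    rw [Matrix.mulVec_mulVec, ← Matrix.transpose_mul, C.QP, Matrix.transpose_one,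
      Matrix.one_mulVec]
  simp only [geo_D]
  exact (congrFun this i).symm

theorem dm_eq {m n : Type} (i : ι) (N : Matrix m n A) :
    dm (X.D i) N = ∑ a, C.P a i • dm (C.geo.D a) N := by
  ext k l
  simp only [dm, Matrix.of_apply, Matrix.sum_apply, Matrix.smul_apply, smul_eq_mul, ← C.D_eq]

/-- The connection matrices of the new coordinates along the old directions. -/
noncomputable def ch (i : ι) : Matrix ι ι A := ∑ a, C.P a i • C.geo.cm a

theorem cm_eq (i : ι) : X.cm i = C.Q * (dm (X.D i) C.P + C.ch i * C.P) := by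
  ext k j
  refine X.chr_unique (Γ := fun k i j => (C.Q * (dm (X.D i) C.P + C.ch i * C.P)) k j)
    (fun k i j => ?_) (fun k i j => ?_) k i j
  · simp only [Matrix.mul_apply, Matrix.add_apply, dm_apply, ch, Matrix.sum_apply,
      Matrix.smul_apply, smul_eq_mul, cm, Matrix.of_apply, Finset.sum_mul]
    refine Finset.sum_congr rfl fun c _ => ?_
    rw [C.DP c i j, Finset.sum_comm]
    congr 2
    exact Finset.sum_congr rfl fun a _ => Finset.sum_congr rfl fun b _ => by
      rw [C.geo.chr_symm c a b]; ring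
  · have h1 : dm (X.D k) C.g' = (C.g' * C.ch k)ᵀ + C.g' * C.ch k := by
      rw [C.dm_eq, ch, Matrix.mul_sum, Matrix.transpose_sum, ← Finset.sum_add_distrib]
      refine Finset.sum_congr rfl fun a _ => ?_
      rw [Matrix.mul_smul, Matrix.transpose_smul, ← smul_add]
      exact congrArg _ (C.geo.dm_g a)
    have h2 : X.g * (C.Q * (dm (X.D k) C.P + C.ch k * C.P)) =
        C.Pᵀ * C.g' * (dm (X.D k) C.P + C.ch k * C.P) := by
      rw [C.gg, Matrix.mul_assoc _ C.P, ← Matrix.mul_assoc C.P, C.PQ, Matrix.one_mul]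
    have h3 : dm (X.D k) X.g = (X.g * (C.Q * (dm (X.D k) C.P + C.ch k * C.P)))ᵀ +
        X.g * (C.Q * (dm (X.D k) C.P + C.ch k * C.P)) := by
      rw [h2, C.gg, dm_mul, dm_mul, dm_transpose, h1]
      simp only [Matrix.transpose_mul, Matrix.transpose_add, Matrix.transpose_transpose,
        show C.g'ᵀ = C.g' from C.geo.g_transpose]
      noncomm_ring
    exact congrFun (congrFun h3 i) j

theorem P_cm (i : ι) : C.P * X.cm i = dm (X.D i) C.P + C.ch i * C.P := by
  rw [C.cm_eq, ← Matrix.mul_assoc, C.PQ, Matrix.one_mul]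

theorem P_fm (i j : ι) : C.P * X.fm i j =
    (dm (X.D i) (C.ch j) - dm (X.D j) (C.ch i) + C.ch i * C.ch j - C.ch j * C.ch i) * C.P := by
  have h1 := congrArg (dm (X.D i)) (C.P_cm j)
  have h2 := congrArg (dm (X.D j)) (C.P_cm i)
  simp only [dm_mul, dm_add, X.dm_comm j i] at h1 h2
  rw [fm]
  linear_combination (norm := noncomm_ring) h1 - h2 + C.P_cm i * X.cm j - C.P_cm j * X.cm i
    + C.ch i * C.P_cm j - C.ch j * C.P_cm i

theorem fh_eq (i j : ι) :
    dm (X.D i) (C.ch j) - dm (X.D j) (C.ch i) + C.ch i * C.ch j - C.ch j * C.ch i =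
      ∑ a, ∑ b, (C.P a i * C.P b j) • C.geo.fm a b := by
  have h1 : ∀ i j, dm (X.D i) (C.ch j) = ∑ b, X.D i (C.P b j) • C.geo.cm b +
      ∑ a, ∑ b, (C.P a i * C.P b j) • dm (C.geo.D a) (C.geo.cm b) := fun i j => by
    rw [ch, dm_sum, Finset.sum_comm, ← Finset.sum_add_distrib]
    refine Finset.sum_congr rfl fun b _ => ?_
    rw [dm_smul, C.dm_eq, Finset.smul_sum]
    simp only [smul_smul, mul_comm]
  have h2 : ∀ i j, C.ch i * C.ch j = ∑ a, ∑ b, (C.P a i * C.P b j) • (C.geo.cm a * C.geo.cm b) :=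
    fun i j => by
      rw [ch, ch, Matrix.sum_mul]
      refine Finset.sum_congr rfl fun a _ => ?_
      rw [Matrix.mul_sum]
      simp only [Matrix.smul_mul, Matrix.mul_smul, smul_smul, mul_comm]
  rw [h1, h1, h2, h2, Finset.sum_comm (f := fun a b => (C.P a j * C.P b i) • _),
    Finset.sum_comm (f := fun a b => (C.P a j * C.P b i) • (C.geo.cm a * C.geo.cm b))]
  simp only [fm, smul_sub, smul_add, Finset.sum_sub_distrib, Finset.sum_add_distrib,
    fun b => C.DP b j i, fun a b => mul_comm (C.P b j) (C.P a i)]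
  abel

theorem rm_eq : X.rm = C.Pᵀ * C.geo.rm * C.P := by
  ext l j
  have h1 : ∀ k, X.fm k j = ∑ a, ∑ b, (C.P a k * C.P b j) • (C.Q * (C.geo.fm a b * C.P)) := by
    intro k
    have := congrArg (C.Q * ·) (C.P_fm k j)
    simp only [← Matrix.mul_assoc, C.QP, Matrix.one_mul] at this
    rw [this, fh_eq]
    simp only [Matrix.sum_mul, Matrix.mul_sum, Matrix.smul_mul, Matrix.mul_smul, Matrix.mul_assoc]
  have h2 : ∀ (a : ι) (N : Matrix ι ι A), ∑ k, C.P a k * (C.Q * N) k l = N a l := fun a N => by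
    rw [← Matrix.mul_apply, ← Matrix.mul_assoc, C.PQ, Matrix.one_mul]
  have h3 : X.rm l j = ∑ a, ∑ b, C.P b j * (C.geo.fm a b * C.P) a l := by
    rw [Finset.sum_congr rfl fun a _ => Finset.sum_congr rfl fun b _ =>
      congrArg (C.P b j * ·) (h2 a (C.geo.fm a b * C.P)).symm]
    simp only [rm, Matrix.of_apply, ric_eq, h1, Matrix.sum_apply, Matrix.smul_apply, smul_eq_mul,
      Finset.mul_sum]
    rw [Finset.sum_comm]
    refine Finset.sum_congr rfl fun a _ => Finset.sum_comm.trans ?_
    exact Finset.sum_congr rfl fun _ _ => Finset.sum_congr rfl fun _ _ => by ring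
  rw [h3]
  simp only [rm, Matrix.mul_apply, Matrix.of_apply, Matrix.transpose_apply, ric_eq,
    Finset.mul_sum, Finset.sum_mul]
  rw [Finset.sum_comm]
  refine Finset.sum_congr rfl fun b _ => Finset.sum_comm.trans ?_
  exact Finset.sum_congr rfl fun _ _ => Finset.sum_congr rfl fun _ _ => by ring

theorem h_eq : C.P * X.h * C.Pᵀ = C.geo.h := by
  have h1 : C.P * X.h * C.Pᵀ * C.g' = 1 := by
    have := congrArg (fun N => C.P * N * C.Q) X.hg
    simp only [C.gg, Matrix.mul_one, C.PQ, Matrix.mul_assoc] at this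
    simpa only [Matrix.mul_assoc] using this
  rw [← Matrix.mul_one (C.P * X.h * C.Pᵀ), ← C.geo.gh, ← Matrix.mul_assoc]
  exact (congrArg (· * C.geo.h) h1).trans (Matrix.one_mul _)

theorem scal_eq : X.scal = C.geo.scal := by
  rw [scal_tr, scal_tr, C.rm_eq, ← C.h_eq, Matrix.transpose_mul, Matrix.transpose_mul,
    Matrix.transpose_transpose, ← Matrix.mul_assoc, ← Matrix.mul_assoc, Matrix.trace_mul_comm]
  simp only [Matrix.mul_assoc]

theorem gradSq_vec (Y : Geo ι A) (φ : A) :
    Y.gradSq φ = (fun i => Y.D i φ) ⬝ᵥ Y.h *ᵥ fun i => Y.D i φ := by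
  simp only [gradSq, dotProduct, Matrix.mulVec, Finset.mul_sum]
  exact Finset.sum_congr rfl fun _ _ => Finset.sum_congr rfl fun _ _ => by ring

theorem gradSq_eq (φ : A) : X.gradSq φ = C.geo.gradSq φ := by
  have h1 : (fun i => X.D i φ) = C.Pᵀ *ᵥ fun a => C.geo.D a φ := funext fun i => C.D_eq i φ
  rw [gradSq_vec, gradSq_vec, h1, ← C.h_eq, Matrix.mulVec_mulVec, Matrix.mul_assoc,
    ← Matrix.mulVec_mulVec _ C.P, Matrix.dotProduct_mulVec _ C.P, ← Matrix.mulVec_transpose]

end Chg

end Geo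

end Pool.Agent.MP_c98b3a_gt
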