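import Mathlib.LinearAlgebra.Matrix.PosDef
import Mathlib.Analysis.SpecialFunctions.Gamma.Basic
import Mathlib.Geometry.Manifold.VectorBundle.Riemannian
import Mathlib.Geometry.Manifold.Sheaf.Basic

/-!
Perelman's entropy `ν` of a closed Riemannian manifold, and torus invariant metrics written in
action-angle coordinates over a labelled polytope.
-/

open scoped Manifold ContDiff Matrix
open MeasureTheory

namespace Pool.Agent.MP_c98b3a_gt

/-- Euclidean space with coordinates indexed by `ι`. -/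
abbrev Euc (ι : Type) : Type := EuclideanSpace ℝ ι

section Coordinates

variable {ι : Type} [Fintype ι] [DecidableEq ι]

/-- The partial derivative `∂f/∂yᵢ`. -/
noncomputable def pd (i : ι) (f : Euc ι → ℝ) (y : Euc ι) : ℝ :=
  fderiv ℝ f y (EuclideanSpace.single i 1)

variable (G : Euc ι → Matrix ι ι ℝ)

/-- The inverse matrix `g^{ij}` of the metric `g_{ij}`. -/
noncomputable def ginv (i j : ι) (y : Euc ι) : ℝ := (G y)⁻¹ i j

/-- Christoffel symbols `Γ^k_{ij} = ½ g^{kl} (∂ᵢ g_{lj} + ∂ⱼ g_{li} - ∂ₗ g_{ij})`. -/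
noncomputable def chr (k i j : ι) (y : Euc ι) : ℝ :=
  1 / 2 * ∑ l, ginv G k l y *
    (pd i (fun z => G z l j) y + pd j (fun z => G z l i) y - pd l (fun z => G z i j) y)

/-- Ricci tensor `R_{ij} = ∂ₖ Γ^k_{ij} - ∂ⱼ Γ^k_{ik} + Γ^k_{kl} Γ^l_{ij} - Γ^k_{jl} Γ^l_{ik}`. -/
noncomputable def ric (i j : ι) (y : Euc ι) : ℝ :=
  ∑ k, (pd k (chr G k i j) y - pd j (chr G k i k) y) +
    ∑ k, ∑ l, (chr G k k l y * chr G l i j y - chr G k j l y * chr G l i k y)

/-- Scalar curvature `R = g^{ij} R_{ij}`. -/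
noncomputable def scal (y : Euc ι) : ℝ := ∑ i, ∑ j, ginv G i j y * ric G i j y

/-- The squared gradient `|∇φ|² = g^{ij} ∂ᵢ φ ∂ⱼ φ`. -/
noncomputable def gradSq (φ : Euc ι → ℝ) (y : Euc ι) : ℝ :=
  ∑ i, ∑ j, ginv G i j y * pd i φ y * pd j φ y

end Coordinates

universe u

section General

variable {E H : Type} [NormedAddCommGroup E] [NormedSpace ℝ E] [TopologicalSpace H]
  (I : ModelWithCorners ℝ E H) {M : Type u} [TopologicalSpace M] [ChartedSpace H M]

/-- The differential `dc_y(v)` of a map `c` from the model vector space to the manifold. -/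
noncomputable def dparam (c : E → M) (y v : E) : TangentSpace I (c y) :=
  mfderiv 𝓘(ℝ, E) I c y v

/-- Smooth Riemannian metrics on a manifold. -/
abbrev Metrics (M : Type u) [TopologicalSpace M] [ChartedSpace H M] [IsManifold I ∞ M] : Type u :=
  Bundle.ContMDiffRiemannianMetric I ∞ E (fun x : M => TangentSpace I x)

variable {I} in
/-- The scalar product `g_x(v, w)`. -/
noncomputable def gin [IsManifold I ∞ M] (g : Metrics I M) (x : M) (v w : TangentSpace I x) : ℝ :=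
  g.inner x v w

end General

section Entropy

variable {ι : Type} [Fintype ι] [DecidableEq ι] {M : Type u} [TopologicalSpace M]
  [ChartedSpace (Euc ι) M] [IsManifold 𝓘(ℝ, Euc ι) ∞ M] (g : Metrics 𝓘(ℝ, Euc ι) M)

/-- The matrix `g_{ij} = g(∂/∂yᵢ, ∂/∂yⱼ)` of the metric in the chart `e`. -/
noncomputable def gmat (e : OpenPartialHomeomorph M (Euc ι)) (y : Euc ι) : Matrix ι ι ℝ :=
  Matrix.of fun i j => gin g (e.symm y)
    (dparam 𝓘(ℝ, Euc ι) e.symm y (EuclideanSpace.single i 1))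
    (dparam 𝓘(ℝ, Euc ι) e.symm y (EuclideanSpace.single j 1))

/-- The scalar curvature of `g`, computed at `x` in the chart at `x`. -/
noncomputable def scalM (x : M) : ℝ := scal (gmat g (chartAt (Euc ι) x)) (chartAt (Euc ι) x x)

/-- The squared gradient `|∇f|²`, computed at `x` in the chart at `x`. -/
noncomputable def gradSqM (f : M → ℝ) (x : M) : ℝ :=
  gradSq (gmat g (chartAt (Euc ι) x)) (f ∘ (chartAt (Euc ι) x).symm) (chartAt (Euc ι) x x)

variable [MeasurableSpace M]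

/-- `μ` is the Riemannian volume of `g`: it is `√(det g_{ij}) dy` in every chart. -/
def IsVolume (μ : Measure M) : Prop :=
  ∀ (x₀ : M) (s : Set M), MeasurableSet s → s ⊆ (chartAt (Euc ι) x₀).source →
    μ s = ∫⁻ y in chartAt (Euc ι) x₀ '' s,
      ENNReal.ofReal (Real.sqrt (gmat g (chartAt (Euc ι) x₀) y).det)

/-- The Riemannian volume measure `dV`. -/
noncomputable def vol : Measure M := Classical.epsilon (IsVolume g)

/-- Perelman's functional `W(g, f, τ)`; the dimension is `m = card ι`. -/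
noncomputable def entW (f : M → ℝ) (τ : ℝ) : ℝ :=
  ∫ x, (τ * (scalM g x + gradSqM g f x) + f x - Fintype.card ι) *
    ((4 * Real.pi * τ) ^ (-(Fintype.card ι : ℝ) / 2) * Real.exp (-f x)) ∂vol g

/-- Perelman's `μ(g, τ)`: the infimum of `W` over smooth normalized `f`. -/
noncomputable def entMu (τ : ℝ) : EReal :=
  ⨅ (f : M → ℝ) (_ : ContMDiff 𝓘(ℝ, Euc ι) 𝓘(ℝ, ℝ) ∞ f)
    (_ : ∫ x, (4 * Real.pi * τ) ^ (-(Fintype.card ι : ℝ) / 2) * Real.exp (-f x) ∂vol g = 1),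
    (entW g f τ : EReal)

/-- Perelman's `ν(M, g)`: the infimum of `μ(g, τ)` over `τ > 0`. -/
noncomputable def entNu : EReal := ⨅ (τ : ℝ) (_ : 0 < τ), entMu g τ

end Entropy

/-- The Gaussian density `Θ_m = ((m - 1) / (2 π e))^{m/2} vol(S^m)` of the round `m`-sphere. -/
noncomputable def theta (m : ℕ) : ℝ :=
  (((m : ℝ) - 1) / (2 * Real.pi * Real.exp 1)) ^ ((m : ℝ) / 2) *
    (2 * Real.pi ^ (((m : ℝ) + 1) / 2) / Real.Gamma (((m : ℝ) + 1) / 2))

section Toric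

variable {ι κ F : Type} [Fintype ι] [DecidableEq ι] [Fintype κ] [DecidableEq κ]

/-- The affine function `ℓₖ(x) = ⟨uₖ, x⟩ + cₖ`. -/
noncomputable def lab (u : F → ι → ℝ) (c : F → ℝ) (k : F) (x : Euc ι) : ℝ :=
  ∑ i, u k i * x i + c k

/-- The open polytope `{x | ℓₖ(x) > 0 for all k}`. -/
def poly (u : F → ι → ℝ) (c : F → ℝ) : Set (Euc ι) := {x | ∀ k, 0 < lab u c k x}

/-- A bounded polytope with facets `ℓₖ = 0`, and a matrix function `H` that is smooth up to the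
boundary, positive definite inside, with `H uₖ = 0` and `d(H(uₖ, uₖ)) = 2 uₖ` on the facet `k`. -/
structure Labelled (u : F → ι → ℝ) (c : F → ℝ) (H : Euc ι → Matrix ι ι ℝ) : Prop where
  bounded : Bornology.IsBounded (poly u c)
  nonempty : (poly u c).Nonempty
  facet : ∀ k, ∃ q, lab u c k q = 0 ∧ ∀ j, j ≠ k → 0 < lab u c j q
  smooth : ∀ i j, ContDiff ℝ ∞ fun x => H x i j
  posDef : ∀ x ∈ poly u c, (H x).PosDef
  kernel : ∀ k x, (∀ j, 0 ≤ lab u c j x) → lab u c k x = 0 → H x *ᵥ u k = 0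
  slope : ∀ k x, (∀ j, 0 ≤ lab u c j x) → lab u c k x = 0 →
    ∀ i, pd i (fun z => u k ⬝ᵥ H z *ᵥ u k) x = 2 * u k i

/-- The action coordinates `x` of a point `(x, θ)`. -/
noncomputable def base (y : Euc (ι ⊕ κ)) : Euc ι := WithLp.toLp 2 fun i => y (Sum.inl i)

variable {M : Type u} [TopologicalSpace M] [ChartedSpace (Euc (ι ⊕ κ)) M]
  [IsManifold 𝓘(ℝ, Euc (ι ⊕ κ)) ∞ M] [MeasurableSpace M]

/-- Action-angle coordinates: a chart `(x, θ)` of full measure onto `P × (0, 2π)^κ`, with `x`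
smooth on `M`, in which `g = H⁻¹(dx, dx) + K(dθ + A dx, dθ + A dx)` and `H, K, A` depend on `x`. -/
def ActionAngle (g : Metrics 𝓘(ℝ, Euc (ι ⊕ κ)) M) (P : Set (Euc ι)) (H : Euc ι → Matrix ι ι ℝ)
    (K : Euc ι → Matrix κ κ ℝ) : Prop :=
  ∃ (e : OpenPartialHomeomorph M (Euc (ι ⊕ κ))) (μ : M → Euc ι) (A : Euc ι → Matrix κ ι ℝ),
    e ∈ IsManifold.maximalAtlas 𝓘(ℝ, Euc (ι ⊕ κ)) ∞ M ∧
    e.target = {y | base y ∈ P ∧ ∀ a, y (Sum.inr a) ∈ Set.Ioo 0 (2 * Real.pi)} ∧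
    vol g e.sourceᶜ = 0 ∧
    ContMDiff 𝓘(ℝ, Euc (ι ⊕ κ)) 𝓘(ℝ, Euc ι) ∞ μ ∧ (∀ p ∈ e.source, μ p = base (e p)) ∧
    (∀ a i, ContDiffOn ℝ ∞ (fun x => A x a i) P) ∧
    ∀ y ∈ e.target, gmat g e y =
      Matrix.fromBlocks ((H (base y))⁻¹ + (A (base y))ᵀ * K (base y) * A (base y))
        ((A (base y))ᵀ * K (base y)) (K (base y) * A (base y)) (K (base y))

/-- The point `y(x) = B (x, 1)` of the affine hyperplane that cuts the moment cone. -/
noncomputable def ray (B : Matrix (ι ⊕ Unit) (ι ⊕ Unit) ℝ) (x : Euc ι) : ι ⊕ Unit → ℝ :=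
  B *ᵥ Sum.elim (fun i => x i) fun _ => 1

/-- The fibre metric `a² η² + H(dψ, dψ)` with `η = ⟨y(x), dθ⟩` and `dη = ∑ dxᵢ ∧ dψᵢ`. -/
noncomputable def contactK (B : Matrix (ι ⊕ Unit) (ι ⊕ Unit) ℝ) (a : Euc ι → ℝ)
    (H : Euc ι → Matrix ι ι ℝ) (x : Euc ι) : Matrix (ι ⊕ Unit) (ι ⊕ Unit) ℝ :=
  Matrix.of fun α β => a x ^ 2 * (ray B x α * ray B x β) +
    ∑ i, ∑ j, B α (Sum.inl i) * H x i j * B β (Sum.inl j)

end Toric

end Pool.Agent.MP_c98b3a_gt
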