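import Mathlib.Algebra.Group.Defs
import Mathlib.Algebra.Group.Pi.Basic
import Mathlib.Algebra.Ring.Defs
import Mathlib.Algebra.Group.Subgroup.Defs
import Mathlib.Algebra.Ring.Pi
import Mathlib.Algebra.Ring.Subring.Defs
import Mathlib.Algebra.Algebra.Subalgebra.Basic
import Mathlib.Data.Real.Basic
import Mathlib.Analysis.Calculus.FDeriv.Symmetric
import Mathlib.Analysis.Matrix.Order
import Pool.Agent.MP_c98b3a_gt.Defs
import Pool.Agent.MP_c98b3a_gt.Alg

-- ======== part 0: formerly Pool.Agent.MP_c98b3a_gt.Rep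
section MrgPart0

/-! Calculus of partial derivatives; transfer of the algebraic identities to coordinates. -/

open scoped ContDiff Topology Matrix
open Set Filter

set_option linter.unusedSectionVars false

namespace Pool.Agent.MP_c98b3a_gt

variable {ι : Type} [Fintype ι] [DecidableEq ι]

section Calculus

variable {f g : Euc ι → ℝ} {y : Euc ι} {U : Set (Euc ι)}

theorem cdAt_pd (h : ContDiffAt ℝ ∞ f y) (i : ι) : ContDiffAt ℝ ∞ (pd i f) y :=
  (h.fderiv_right (m := ∞) (by simp)).clm_apply contDiffAt_const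

theorem cdOn_pd (hU : IsOpen U) (h : ContDiffOn ℝ ∞ f U) (i : ι) :
    ContDiffOn ℝ ∞ (pd i f) U := fun _ hy =>
  (cdAt_pd (h.contDiffAt (hU.mem_nhds hy)) i).contDiffWithinAt

theorem cd_pd (h : ContDiff ℝ ∞ f) (i : ι) : ContDiff ℝ ∞ (pd i f) :=
  contDiff_iff_contDiffAt.2 fun _ => cdAt_pd h.contDiffAt i

omit [DecidableEq ι] in
theorem dAt_of_cdAt (h : ContDiffAt ℝ ∞ f y) : DifferentiableAt ℝ f y :=
  h.differentiableAt (by simp)

omit [DecidableEq ι] in
theorem dAt_of_cdOn (hU : IsOpen U) (h : ContDiffOn ℝ ∞ f U) (hy : y ∈ U) :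
    DifferentiableAt ℝ f y := dAt_of_cdAt (h.contDiffAt (hU.mem_nhds hy))

omit [DecidableEq ι] in
theorem dAt_of_cd (h : ContDiff ℝ ∞ f) (y : Euc ι) : DifferentiableAt ℝ f y :=
  dAt_of_cdAt h.contDiffAt

theorem pd_congr (h : f =ᶠ[𝓝 y] g) (i : ι) : pd i f y = pd i g y := by
  unfold pd; rw [h.fderiv_eq]

theorem pd_congr_on (hU : IsOpen U) (h : EqOn f g U) (i : ι) : EqOn (pd i f) (pd i g) U :=
  fun _ hy => pd_congr (h.eventuallyEq_of_mem (hU.mem_nhds hy)) i

theorem pd_const (i : ι) (c : ℝ) (y : Euc ι) : pd i (fun _ => c) y = 0 := by simp [pd]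

theorem pd_add (hf : DifferentiableAt ℝ f y) (hg : DifferentiableAt ℝ g y) (i : ι) :
    pd i (fun z => f z + g z) y = pd i f y + pd i g y := by
  unfold pd; rw [fderiv_fun_add hf hg]; rfl

theorem pd_neg (i : ι) (f : Euc ι → ℝ) (y : Euc ι) : pd i (fun z => -f z) y = -pd i f y := by
  unfold pd; rw [fderiv_fun_neg]; rfl

theorem pd_sub (hf : DifferentiableAt ℝ f y) (hg : DifferentiableAt ℝ g y) (i : ι) :
    pd i (fun z => f z - g z) y = pd i f y - pd i g y := by
  unfold pd; rw [fderiv_fun_sub hf hg]; rfl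

theorem pd_mul (hf : DifferentiableAt ℝ f y) (hg : DifferentiableAt ℝ g y) (i : ι) :
    pd i (fun z => f z * g z) y = pd i f y * g y + f y * pd i g y := by
  unfold pd; rw [fderiv_fun_mul hf hg]; simp; ring

theorem pd_const_mul (hf : DifferentiableAt ℝ f y) (c : ℝ) (i : ι) :
    pd i (fun z => c * f z) y = c * pd i f y := by
  rw [pd_mul (differentiableAt_const c) hf, pd_const]; ring

theorem pd_sum {s : Type} {t : Finset s} {F : s → Euc ι → ℝ}
    (h : ∀ j ∈ t, DifferentiableAt ℝ (F j) y) (i : ι) :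
    pd i (fun z => ∑ j ∈ t, F j z) y = ∑ j ∈ t, pd i (F j) y := by
  unfold pd; rw [fderiv_fun_sum h]; simp

theorem pd_exp (hf : DifferentiableAt ℝ f y) (i : ι) :
    pd i (fun z => Real.exp (f z)) y = Real.exp (f y) * pd i f y := by
  unfold pd; rw [hf.hasFDerivAt.exp.fderiv]; simp

theorem pd_log (hf : DifferentiableAt ℝ f y) (h0 : f y ≠ 0) (i : ι) :
    pd i (fun z => Real.log (f z)) y = (f y)⁻¹ * pd i f y := by
  unfold pd; rw [(hf.hasFDerivAt.log h0).fderiv]; simp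

omit [DecidableEq ι] in
theorem cd_coord (j : ι) : ContDiff ℝ ∞ fun z : Euc ι => z j :=
  (EuclideanSpace.proj j : Euc ι →L[ℝ] ℝ).contDiff

theorem pd_proj (i j : ι) (y : Euc ι) : pd i (fun z => z j) y = if j = i then 1 else 0 := by
  have := (EuclideanSpace.proj j : Euc ι →L[ℝ] ℝ).fderiv (x := y)
  have h2 : pd i (fun z => z j) y = (EuclideanSpace.proj j : Euc ι →L[ℝ] ℝ)
      (EuclideanSpace.single i 1) := by rw [← this]; rfl
  rw [h2]; simp

theorem pd_comm (h : ContDiffAt ℝ ∞ f y) (i j : ι) : pd i (pd j f) y = pd j (pd i f) y := by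
  have h2 : IsSymmSndFDerivAt ℝ f y :=
    h.isSymmSndFDerivAt (by simp; exact WithTop.coe_le_coe.2 le_top)
  have h1 : DifferentiableAt ℝ (fderiv ℝ f) y :=
    (h.fderiv_right (m := ∞) (by simp)).differentiableAt (by simp)
  have key : ∀ v w : Euc ι,
      fderiv ℝ (fun z => fderiv ℝ f z v) y w = fderiv ℝ (fderiv ℝ f) y w v := by
    intro v w
    rw [fderiv_clm_apply h1 (differentiableAt_const v)]; simp
  unfold pd
  rw [key, key]; exact h2 _ _

theorem coord_eq (v : Euc ι) : v = ∑ c, v c • EuclideanSpace.single c (1 : ℝ) := by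
  ext i; simp [Finset.sum_apply, Pi.single_apply]

theorem fderiv_apply_eq (f : Euc ι → ℝ) (y v : Euc ι) : fderiv ℝ f y v = ∑ c, v c * pd c f y := by
  conv_lhs => rw [coord_eq v, map_sum]
  simp only [map_smul, smul_eq_mul]
  rfl

variable {ι' : Type} [Fintype ι'] [DecidableEq ι']

omit [DecidableEq ι'] in
theorem pd_coord {τ : Euc ι → Euc ι'} {y : Euc ι} (h : DifferentiableAt ℝ τ y) (c : ι') (i : ι) :
    pd i (fun z => τ z c) y = fderiv ℝ τ y (EuclideanSpace.single i 1) c := by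
  have := ((EuclideanSpace.proj c : Euc ι' →L[ℝ] ℝ).hasFDerivAt.comp y h.hasFDerivAt).fderiv
  exact congrArg (fun L : Euc ι →L[ℝ] ℝ => L (EuclideanSpace.single i 1)) this

theorem pd_chain {F : Euc ι' → ℝ} {τ : Euc ι → Euc ι'} {y : Euc ι}
    (hF : DifferentiableAt ℝ F (τ y)) (h : DifferentiableAt ℝ τ y) (i : ι) :
    pd i (fun z => F (τ z)) y = ∑ c, pd i (fun z => τ z c) y * pd c F (τ y) := by
  have h1 : pd i (fun z => F (τ z)) y =
      fderiv ℝ F (τ y) (fderiv ℝ τ y (EuclideanSpace.single i 1)) :=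
    congrArg (fun L : Euc ι →L[ℝ] ℝ => L (EuclideanSpace.single i 1)) (fderiv_comp y hF h)
  rw [h1, fderiv_apply_eq]
  simp only [pd_coord h]

omit [DecidableEq ι] [DecidableEq ι'] in
theorem cdOn_coord {τ : Euc ι → Euc ι'} {U : Set (Euc ι)} (h : ContDiffOn ℝ ∞ τ U) (c : ι') :
    ContDiffOn ℝ ∞ (fun z => τ z c) U :=
  (EuclideanSpace.proj c : Euc ι' →L[ℝ] ℝ).contDiff.comp_contDiffOn h

omit [DecidableEq ι] in
theorem cdOn_det {G : Euc ι → Matrix ι' ι' ℝ}
    (h : ∀ i j, ContDiffOn ℝ ∞ (fun z => G z i j) U) : ContDiffOn ℝ ∞ (fun z => (G z).det) U := by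
  simp only [Matrix.det_apply']
  exact ContDiffOn.sum fun σ _ => contDiffOn_const.mul (contDiffOn_prod fun i _ => h _ _)

omit [DecidableEq ι] in
theorem cdOn_inv {G : Euc ι → Matrix ι' ι' ℝ}
    (h : ∀ i j, ContDiffOn ℝ ∞ (fun z => G z i j) U) (h0 : ∀ y ∈ U, (G y).det ≠ 0) (i j : ι') :
    ContDiffOn ℝ ∞ (fun z => (G z)⁻¹ i j) U := by
  simp only [Matrix.inv_def, Ring.inverse_eq_inv', Matrix.smul_apply, smul_eq_mul,
    Matrix.adjugate_apply]
  refine ((cdOn_det h).inv h0).mul (cdOn_det fun a b => ?_)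
  simp only [Matrix.updateRow_apply]
  split_ifs
  · exact contDiffOn_const
  · exact h _ _

end Calculus

section Model

variable {A : Type} [CommRing A] [Algebra ℝ A]

/-- A relation between elements of a differential algebra and functions of the coordinates that
is compatible with the operations. -/
structure Model (D : ι → Derivation ℝ A A) (R : A → (Euc ι → ℝ) → Prop) : Prop where
  add : ∀ {a b F G}, R a F → R b G → R (a + b) fun y => F y + G y
  mul : ∀ {a b F G}, R a F → R b G → R (a * b) fun y => F y * G y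
  smul : ∀ (c : ℝ) {a F}, R a F → R (c • a) fun y => c * F y
  one : R 1 fun _ => 1
  pd : ∀ (i) {a F}, R a F → R (D i a) (pd i F)

namespace Model

variable {D : ι → Derivation ℝ A A} {R : A → (Euc ι → ℝ) → Prop} (m : Model D R)
include m

theorem zero : R 0 fun _ => 0 := by simpa using m.smul 0 m.one

theorem sub {a b F G} (h : R a F) (k : R b G) : R (a - b) fun y => F y - G y := by
  simpa [sub_eq_add_neg] using m.add h (m.smul (-1) k)

theorem sum {s : Type} {t : Finset s} {a : s → A} {F : s → Euc ι → ℝ} (h : ∀ j, R (a j) (F j)) :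
    R (∑ j ∈ t, a j) fun y => ∑ j ∈ t, F j y := by
  classical
  induction t using Finset.induction_on with
  | empty => simpa using m.zero
  | insert j s hj ih => simpa only [Finset.sum_insert hj] using m.add (h j) ih

theorem two {a F} (h : R a F) : R (2 * a) fun y => 2 * F y := by
  simpa only [two_mul] using m.add h h

end Model

/-- The algebraic metric `X` represents the coordinate metric `G`. -/
structure Reps (X : Geo ι A) (R : A → (Euc ι → ℝ) → Prop) (G : Euc ι → Matrix ι ι ℝ) : Prop where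
  m : Model X.D R
  g : ∀ i j, R (X.g i j) fun z => G z i j
  h : ∀ i j, R (X.h i j) (ginv G i j)

namespace Reps

variable {X : Geo ι A} {R : A → (Euc ι → ℝ) → Prop} {G : Euc ι → Matrix ι ι ℝ} (r : Reps X R G)
include r

theorem chr (k i j : ι) : R (X.chr k i j) (chr G k i j) :=
  r.m.smul _ (r.m.sum fun l => r.m.mul (r.h k l)
    (r.m.sub (r.m.add (r.m.pd i (r.g l j)) (r.m.pd j (r.g l i))) (r.m.pd l (r.g i j))))

theorem ric (i j : ι) : R (X.ric i j) (ric G i j) :=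
  r.m.add (r.m.sum fun k => r.m.sub (r.m.pd k (r.chr k i j)) (r.m.pd j (r.chr k i k)))
    (r.m.sum fun k => r.m.sum fun l =>
      r.m.sub (r.m.mul (r.chr k k l) (r.chr l i j)) (r.m.mul (r.chr k j l) (r.chr l i k)))

theorem scal : R X.scal (scal G) :=
  r.m.sum fun i => r.m.sum fun j => r.m.mul (r.h i j) (r.ric i j)

theorem gradSq {a F} (h : R a F) : R (X.gradSq a) (gradSq G F) :=
  r.m.sum fun i => r.m.sum fun j => r.m.mul (r.m.mul (r.h i j) (r.m.pd i h)) (r.m.pd j h)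

end Reps

end Model

/-- The algebra of smooth functions on `U`. -/
def SmA (U : Set (Euc ι)) : Subalgebra ℝ (U → ℝ) where
  carrier := {f | ∃ F : Euc ι → ℝ, ContDiffOn ℝ ∞ F U ∧ ∀ y : U, f y = F y}
  mul_mem' := by
    rintro _ _ ⟨F, hF, h⟩ ⟨G, hG, k⟩
    exact ⟨_, hF.mul hG, fun y => by simp [h, k]⟩
  add_mem' := by
    rintro _ _ ⟨F, hF, h⟩ ⟨G, hG, k⟩
    exact ⟨_, hF.add hG, fun y => by simp [h, k]⟩
  algebraMap_mem' c := ⟨fun _ => c, contDiffOn_const, fun _ => rfl⟩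

variable {U : Set (Euc ι)}

section NoDec

omit [DecidableEq ι]

/-- The element `a` is the restriction of `F`. -/
def Rep (a : SmA U) (F : Euc ι → ℝ) : Prop := ∀ y : U, a.1 y = F y

/-- The restriction of a smooth function. -/
def mkA (F : Euc ι → ℝ) (hF : ContDiffOn ℝ ∞ F U) : SmA U := ⟨fun y => F y, F, hF, fun _ => rfl⟩

theorem rep_mkA {F : Euc ι → ℝ} (hF : ContDiffOn ℝ ∞ F U) : Rep (mkA F hF) F := fun _ => rfl

theorem Rep.cdOn {a : SmA U} {F : Euc ι → ℝ} (h : Rep a F) : ContDiffOn ℝ ∞ F U := by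
  obtain ⟨G, hG, k⟩ := a.2
  exact hG.congr fun y hy => (h ⟨y, hy⟩).symm.trans (k ⟨y, hy⟩)

theorem Rep.eqOn {a : SmA U} {F G : Euc ι → ℝ} (h : Rep a F) (k : Rep a G) : EqOn F G U :=
  fun y hy => (h ⟨y, hy⟩).symm.trans (k ⟨y, hy⟩)

theorem Rep.congr {a : SmA U} {F G : Euc ι → ℝ} (h : Rep a F) (k : EqOn F G U) : Rep a G :=
  fun y => (h y).trans (k y.2)

theorem Rep.ext {a b : SmA U} {F G : Euc ι → ℝ} (h : Rep a F) (k : Rep b G) (e : EqOn F G U) :
    a = b := Subtype.ext (funext fun y => (h y).trans ((e y.2).trans (k y).symm))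

/-- A chosen smooth representative. -/
noncomputable def exA (a : SmA U) : Euc ι → ℝ := Classical.choose a.2

theorem rep_exA (a : SmA U) : Rep a (exA a) := (Classical.choose_spec a.2).2

theorem Rep.add {a b : SmA U} {F G : Euc ι → ℝ} (h : Rep a F) (k : Rep b G) :
    Rep (a + b) fun y => F y + G y := fun y => congrArg₂ (· + ·) (h y) (k y)

theorem Rep.mul {a b : SmA U} {F G : Euc ι → ℝ} (h : Rep a F) (k : Rep b G) :
    Rep (a * b) fun y => F y * G y := fun y => congrArg₂ (· * ·) (h y) (k y)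

theorem Rep.smul (c : ℝ) {a : SmA U} {F : Euc ι → ℝ} (h : Rep a F) :
    Rep (c • a) fun y => c * F y := fun y => congrArg (c * ·) (h y)

theorem rep_one : Rep (1 : SmA U) fun _ => 1 := fun _ => rfl

/-- Evaluation at a point. -/
def ev (y : U) : SmA U →+* ℝ := (Pi.evalRingHom (fun _ : U => ℝ) y).comp (SmA U).val.toRingHom

theorem ev_apply (y : U) (a : SmA U) : ev y a = a.1 y := rfl

theorem ev_ext {a b : SmA U} (h : ∀ y, ev y a = ev y b) : a = b := Subtype.ext (funext h)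

theorem mat_ext {m n : Type} {N N' : Matrix m n (SmA U)} (h : ∀ y, N.map (ev y) = N'.map (ev y)) :
    N = N' := Matrix.ext fun i j => ev_ext fun y => congrFun (congrFun (h y) i) j

/-- The restriction of a smooth matrix function. -/
def mkM {m n : Type} (N : Euc ι → Matrix m n ℝ) (hN : ∀ i j, ContDiffOn ℝ ∞ (fun z => N z i j) U) :
    Matrix m n (SmA U) := Matrix.of fun i j => mkA _ (hN i j)

theorem mkM_ev {m n : Type} (N : Euc ι → Matrix m n ℝ)
    (hN : ∀ i j, ContDiffOn ℝ ∞ (fun z => N z i j) U) (y : U) : (mkM N hN).map (ev y) = N y := rfl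

theorem rep_mkM {m n : Type} {N : Euc ι → Matrix m n ℝ}
    (hN : ∀ i j, ContDiffOn ℝ ∞ (fun z => N z i j) U) (i : m) (j : n) :
    Rep (mkM N hN i j) fun z => N z i j := fun _ => rfl

end NoDec

/-- Partial derivative on the algebra, as a bare map. -/
noncomputable def pdA (hU : IsOpen U) (i : ι) (a : SmA U) : SmA U :=
  mkA (pd i (exA a)) (cdOn_pd hU (rep_exA a).cdOn i)

theorem Rep.pdA (hU : IsOpen U) (i : ι) {a : SmA U} {F : Euc ι → ℝ} (h : Rep a F) :
    Rep (pdA hU i a) (pd i F) := (rep_mkA _).congr (pd_congr_on hU ((rep_exA a).eqOn h) i)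

/-- Partial derivative on the algebra, as a derivation. -/
noncomputable def DA (hU : IsOpen U) (i : ι) : Derivation ℝ (SmA U) (SmA U) :=
  Derivation.mk'
    { toFun := pdA hU i
      map_add' := fun a b => (((rep_exA a).add (rep_exA b)).pdA hU i).ext
        (((rep_exA a).pdA hU i).add ((rep_exA b).pdA hU i)) fun _ hy =>
          pd_add (dAt_of_cdOn hU (rep_exA a).cdOn hy) (dAt_of_cdOn hU (rep_exA b).cdOn hy) i
      map_smul' := fun c a => (((rep_exA a).smul c).pdA hU i).ext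
        (((rep_exA a).pdA hU i).smul c) fun _ hy =>
          pd_const_mul (dAt_of_cdOn hU (rep_exA a).cdOn hy) c i }
    fun a b => (((rep_exA a).mul (rep_exA b)).pdA hU i).ext
      (((rep_exA a).mul ((rep_exA b).pdA hU i)).add ((rep_exA b).mul ((rep_exA a).pdA hU i)))
      fun _ hy => (pd_mul (dAt_of_cdOn hU (rep_exA a).cdOn hy)
        (dAt_of_cdOn hU (rep_exA b).cdOn hy) i).trans (by ring)

theorem model_rep (hU : IsOpen U) : Model (DA hU) (Rep (U := U)) :=
  ⟨Rep.add, Rep.mul, Rep.smul, rep_one, fun i _ _ h => h.pdA hU i⟩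

theorem DA_comm (hU : IsOpen U) (i j : ι) (a : SmA U) :
    DA hU i (DA hU j a) = DA hU j (DA hU i a) :=
  (((rep_exA a).pdA hU j).pdA hU i).ext (((rep_exA a).pdA hU i).pdA hU j) fun _ hy =>
    pd_comm ((rep_exA a).cdOn.contDiffAt (hU.mem_nhds hy)) i j

theorem mkM_inv_mul {m : Type} [Fintype m] [DecidableEq m] {N : Euc ι → Matrix m m ℝ}
    (hN : ∀ i j, ContDiffOn ℝ ∞ (fun z => N z i j) U) (h0 : ∀ y ∈ U, (N y).det ≠ 0) :
    mkM (fun z => (N z)⁻¹) (cdOn_inv hN h0) * mkM N hN = 1 :=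
  mat_ext fun y => by
    rw [Matrix.map_mul, mkM_ev, mkM_ev, Matrix.nonsing_inv_mul _ (h0 y y.2).isUnit,
      Matrix.map_one _ (map_zero _) (map_one _)]

theorem posDef_symm {m : Type} [Fintype m] {N : Matrix m m ℝ} (h : N.PosDef) (i j : m) :
    N i j = N j i := by
  simpa using h.isHermitian.apply j i

/-- A smooth Riemannian metric in coordinates on the open set `U`. -/
structure Nice (G : Euc ι → Matrix ι ι ℝ) (U : Set (Euc ι)) : Prop where
  op : IsOpen U
  sm : ∀ i j, ContDiffOn ℝ ∞ (fun z => G z i j) U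
  pos : ∀ y ∈ U, (G y).PosDef

namespace Nice

variable {G : Euc ι → Matrix ι ι ℝ} (n : Nice G U) {φ : Euc ι → ℝ}
include n

theorem det_pos {y : Euc ι} (hy : y ∈ U) : 0 < (G y).det := (n.pos y hy).det_pos

theorem inv_sm (i j : ι) : ContDiffOn ℝ ∞ (ginv G i j) U :=
  cdOn_inv n.sm (fun _ hy => (n.det_pos hy).ne') i j

omit [DecidableEq ι] in
theorem mono {V : Set (Euc ι)} (hV : IsOpen V) (h : V ⊆ U) : Nice G V :=
  ⟨hV, fun i j => (n.sm i j).mono h, fun y hy => n.pos y (h hy)⟩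

/-- The algebraic metric attached to a coordinate metric. -/
noncomputable def geo : Geo ι (SmA U) where
  D := DA n.op
  comm := DA_comm n.op
  g := mkM G n.sm
  h := mkM (fun z => (G z)⁻¹) n.inv_sm
  gs i j := ev_ext fun y => posDef_symm (n.pos y y.2) i j
  hs i j := ev_ext fun y => posDef_symm (n.pos y y.2).inv i j
  hg := mkM_inv_mul n.sm fun _ hy => (n.det_pos hy).ne'

theorem reps : Reps n.geo Rep G :=
  ⟨model_rep n.op, fun i j => rep_mkA (n.sm i j), fun i j => rep_mkA (n.inv_sm i j)⟩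

theorem scal_sm : ContDiffOn ℝ ∞ (scal G) U := n.reps.scal.cdOn

theorem gradSq_sm (hφ : ContDiffOn ℝ ∞ φ U) : ContDiffOn ℝ ∞ (gradSq G φ) U :=
  (n.reps.gradSq (rep_mkA hφ)).cdOn

theorem dens_sm : ContDiffOn ℝ ∞ (fun y => Real.sqrt (G y).det) U :=
  (cdOn_det n.sm).sqrt fun _ hy => (n.det_pos hy).ne'

end Nice

/-- The Jacobian matrix of a map. -/
noncomputable def jac (τ : Euc ι → Euc ι) (y : Euc ι) : Matrix ι ι ℝ :=
  Matrix.of fun a i => pd i (fun z => τ z a) y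

/-- The map `τ` is a local isometry from `(U, G)` to `(U', G')`. -/
structure Iso (G G' : Euc ι → Matrix ι ι ℝ) (U U' : Set (Euc ι)) (τ : Euc ι → Euc ι) : Prop where
  n : Nice G U
  n' : Nice G' U'
  sm : ContDiffOn ℝ ∞ τ U
  maps : MapsTo τ U U'
  eq : ∀ y ∈ U, G y = (jac τ y)ᵀ * G' (τ y) * jac τ y

namespace Iso

variable {G G' : Euc ι → Matrix ι ι ℝ} {U' : Set (Euc ι)} {τ : Euc ι → Euc ι}
  (s : Iso G G' U U' τ) {φ φ' : Euc ι → ℝ} {y : Euc ι}
include s

theorem det_eq (hy : y ∈ U) : (G y).det = (jac τ y).det ^ 2 * (G' (τ y)).det := by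
  rw [s.eq y hy, Matrix.det_mul, Matrix.det_mul, Matrix.det_transpose]; ring

theorem det_ne (hy : y ∈ U) : (jac τ y).det ≠ 0 := fun h =>
  (s.n.det_pos hy).ne' (by rw [s.det_eq hy, h]; ring)

theorem jac_sm (a i : ι) : ContDiffOn ℝ ∞ (fun y => jac τ y a i) U :=
  cdOn_pd s.n.op (cdOn_coord s.sm a) i

theorem jinv_sm (i a : ι) : ContDiffOn ℝ ∞ (fun y => (jac τ y)⁻¹ i a) U :=
  cdOn_inv s.jac_sm (fun _ hy => s.det_ne hy) i a

/-- The change of coordinates in the algebra. -/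
noncomputable def chg : s.n.geo.Chg where
  P := mkM (jac τ) s.jac_sm
  Q := mkM (fun y => (jac τ y)⁻¹) s.jinv_sm
  g' := mkM (fun y => G' (τ y)) fun a b => (s.n'.sm a b).comp s.sm s.maps
  h' := mkM (fun y => (G' (τ y))⁻¹) fun a b => (s.n'.inv_sm a b).comp s.sm s.maps
  PQ := mul_eq_one_comm.1 (mkM_inv_mul s.jac_sm fun _ hy => s.det_ne hy)
  DP a i j := (s.n.reps.m.pd i (rep_mkM s.jac_sm a j)).ext (s.n.reps.m.pd j (rep_mkM s.jac_sm a i))
    fun _ hy => pd_comm ((cdOn_coord s.sm a).contDiffAt (s.n.op.mem_nhds hy)) i j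
  gs a b := ev_ext fun y => posDef_symm (s.n'.pos _ (s.maps y.2)) a b
  hs a b := ev_ext fun y => posDef_symm (s.n'.pos _ (s.maps y.2)).inv a b
  hg := mkM_inv_mul (fun a b => (s.n'.sm a b).comp s.sm s.maps)
    fun _ hy => (s.n'.det_pos (s.maps hy)).ne'
  gg := mat_ext fun y => by
    rw [Matrix.map_mul, Matrix.map_mul]
    exact s.eq y y.2

theorem reps : Reps s.chg.geo
    (fun a F => Rep a (fun y => F (τ y)) ∧ ContDiffOn ℝ ∞ F U') G' := by
  refine ⟨⟨fun h k => ⟨h.1.add k.1, h.2.add k.2⟩, fun h k => ⟨h.1.mul k.1, h.2.mul k.2⟩,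
    fun c _ _ h => ⟨h.1.smul c, contDiffOn_const.mul h.2⟩, ⟨rep_one, contDiffOn_const⟩,
    fun b a F h => ⟨?_, cdOn_pd s.n'.op h.2 b⟩⟩,
    fun a b => ⟨rep_mkA ((s.n'.sm a b).comp s.sm s.maps), s.n'.sm a b⟩,
    fun a b => ⟨rep_mkA ((s.n'.inv_sm a b).comp s.sm s.maps), s.n'.inv_sm a b⟩⟩
  rw [s.chg.geo_D]
  refine (s.n.reps.m.sum fun i => (rep_mkA (s.jinv_sm i b)).mul (s.n.reps.m.pd i h.1)).congr
    fun y hy => ?_
  have hτ : DifferentiableAt ℝ τ y :=
    (s.sm.contDiffAt (s.n.op.mem_nhds hy)).differentiableAt (by simp)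
  have h1 : ∀ i, pd i (fun z => F (τ z)) y = ∑ c, jac τ y c i * pd c F (τ y) :=
    pd_chain (dAt_of_cdOn s.n'.op h.2 (s.maps hy)) hτ
  have h2 : (jac τ y)⁻¹ᵀ *ᵥ ((jac τ y)ᵀ *ᵥ fun c => pd c F (τ y)) = fun c => pd c F (τ y) := by
    rw [Matrix.mulVec_mulVec, ← Matrix.transpose_mul,
      Matrix.mul_nonsing_inv _ (s.det_ne hy).isUnit, Matrix.transpose_one, Matrix.one_mulVec]
  simp only [h1]
  exact congrFun h2 b

theorem scal_eq (hy : y ∈ U) : scal G y = scal G' (τ y) := by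
  have h1 := s.reps.scal.1
  rw [← s.chg.scal_eq] at h1
  exact s.n.reps.scal.eqOn h1 hy

theorem gradSq_eq (hφ' : ContDiffOn ℝ ∞ φ' U') (h : ∀ y ∈ U, φ y = φ' (τ y)) (hy : y ∈ U) :
    gradSq G φ y = gradSq G' φ' (τ y) := by
  have r := rep_mkA (hφ'.comp s.sm s.maps)
  have h1 := (s.reps.gradSq ⟨r, hφ'⟩).1
  rw [← s.chg.gradSq_eq] at h1
  exact (s.n.reps.gradSq (r.congr fun z hz => (h z hz).symm)).eqOn h1 hy

end Iso

end Pool.Agent.MP_c98b3a_gt

end MrgPart0

-- ======== part 1: formerly Pool.Agent.MP_c98b3a_gt.QAlg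
section MrgPart1

/-! The quadratic part of the scalar curvature, for general and for block metrics. -/

open scoped Matrix Kronecker

set_option linter.unusedSectionVars false

namespace Pool.Agent.MP_c98b3a_gt

section B3

variable {A : Type} [CommRing A] {α β γ : Type} [Fintype α] [Fintype β] [Fintype γ]

theorem sum6 {a b c d e f : Type} [Fintype a] [Fintype b] [Fintype c] [Fintype d] [Fintype e]
    [Fintype f] (F : a → b → c → d → e → f → A) :
    ∑ i, ∑ j, ∑ k, ∑ l, ∑ m, ∑ n, F i j k l m n =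
      ∑ x : a × b × c × d × e × f, F x.1 x.2.1 x.2.2.1 x.2.2.2.1 x.2.2.2.2.1 x.2.2.2.2.2 := by
  simp only [Fintype.sum_prod_type]

/-- The scalar product of 3-tensors. -/
def b3 (h₁ : Matrix α α A) (h₂ : Matrix β β A) (h₃ : Matrix γ γ A) (F F' : α → β → γ → A) : A :=
  ∑ a, ∑ a', ∑ b, ∑ b', ∑ c, ∑ c', h₁ a a' * h₂ b b' * h₃ c c' * F a b c * F' a' b' c'

variable (h₁ : Matrix α α A) (h₂ : Matrix β β A) (h₃ : Matrix γ γ A)

theorem b3_swap12 (F F' : α → β → γ → A) :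
    b3 h₂ h₁ h₃ (fun b a c => F a b c) (fun b a c => F' a b c) = b3 h₁ h₂ h₃ F F' := by
  simp only [b3, sum6]
  exact Fintype.sum_equiv ⟨fun x => (x.2.2.1, x.2.2.2.1, x.1, x.2.1, x.2.2.2.2),
    fun x => (x.2.2.1, x.2.2.2.1, x.1, x.2.1, x.2.2.2.2), fun _ => rfl, fun _ => rfl⟩ _ _
    fun x => by simp only [Equiv.coe_fn_mk]; ring

theorem b3_swap23 (F F' : α → β → γ → A) :
    b3 h₁ h₃ h₂ (fun a c b => F a b c) (fun a c b => F' a b c) = b3 h₁ h₂ h₃ F F' := by
  simp only [b3, sum6]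
  exact Fintype.sum_equiv ⟨fun x => (x.1, x.2.1, x.2.2.2.2.1, x.2.2.2.2.2, x.2.2.1, x.2.2.2.1),
    fun x => (x.1, x.2.1, x.2.2.2.2.1, x.2.2.2.2.2, x.2.2.1, x.2.2.2.1), fun _ => rfl,
    fun _ => rfl⟩ _ _ fun x => by simp only [Equiv.coe_fn_mk]; ring

theorem b3_add_left (F E F' : α → β → γ → A) :
    b3 h₁ h₂ h₃ (fun a b c => F a b c + E a b c) F' = b3 h₁ h₂ h₃ F F' + b3 h₁ h₂ h₃ E F' := by
  simp only [b3, mul_add, add_mul, Finset.sum_add_distrib]

theorem b3_sub_left (F E F' : α → β → γ → A) :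
    b3 h₁ h₂ h₃ (fun a b c => F a b c - E a b c) F' = b3 h₁ h₂ h₃ F F' - b3 h₁ h₂ h₃ E F' := by
  simp only [b3, mul_sub, sub_mul, Finset.sum_sub_distrib]

theorem b3_add_right (F E F' : α → β → γ → A) :
    b3 h₁ h₂ h₃ F' (fun a b c => F a b c + E a b c) = b3 h₁ h₂ h₃ F' F + b3 h₁ h₂ h₃ F' E := by
  simp only [b3, mul_add, Finset.sum_add_distrib]

theorem b3_sub_right (F E F' : α → β → γ → A) :
    b3 h₁ h₂ h₃ F' (fun a b c => F a b c - E a b c) = b3 h₁ h₂ h₃ F' F - b3 h₁ h₂ h₃ F' E := by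
  simp only [b3, mul_sub, Finset.sum_sub_distrib]

variable {h₁ h₂ h₃}

theorem b3_symm (s₁ : ∀ i j, h₁ i j = h₁ j i) (s₂ : ∀ i j, h₂ i j = h₂ j i)
    (s₃ : ∀ i j, h₃ i j = h₃ j i) (F F' : α → β → γ → A) :
    b3 h₁ h₂ h₃ F F' = b3 h₁ h₂ h₃ F' F := by
  simp only [b3, sum6]
  exact Fintype.sum_equiv ⟨fun x => (x.2.1, x.1, x.2.2.2.1, x.2.2.1, x.2.2.2.2.2, x.2.2.2.2.1),
    fun x => (x.2.1, x.1, x.2.2.2.1, x.2.2.1, x.2.2.2.2.2, x.2.2.2.2.1), fun _ => rfl,
    fun _ => rfl⟩ _ _ fun x => by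
      simp only [Equiv.coe_fn_mk]
      rw [s₁ x.1, s₂ x.2.2.1, s₃ x.2.2.2.2.1]; ring

theorem b3_nonneg {h₁ : Matrix α α ℝ} {h₂ : Matrix β β ℝ} {h₃ : Matrix γ γ ℝ}
    (p₁ : h₁.PosSemidef) (p₂ : h₂.PosSemidef) (p₃ : h₃.PosSemidef) (F : α → β → γ → ℝ) :
    0 ≤ b3 h₁ h₂ h₃ F F := by
  have h := ((p₁.kronecker p₂).kronecker p₃).dotProduct_mulVec_nonneg
    fun p => F p.1.1 p.1.2 p.2
  refine h.trans_eq ?_
  simp only [b3, dotProduct, Matrix.mulVec, star_trivial, Matrix.kroneckerMap_apply,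
    Finset.mul_sum, Fintype.sum_prod_type]
  rw [sum6, sum6]
  exact Fintype.sum_equiv ⟨fun x => (x.1, x.2.2.2.1, x.2.1, x.2.2.2.2.1, x.2.2.1, x.2.2.2.2.2),
    fun x => (x.1, x.2.2.1, x.2.2.2.2.1, x.2.1, x.2.2.2.1, x.2.2.2.2.2), fun _ => rfl,
    fun _ => rfl⟩ _ _ fun x => by simp only [Equiv.coe_fn_mk]; ring

/-- The squared norm of the family of matrices `B`. -/
def normM (H : Matrix α α A) (K : Matrix β β A) (B : α → Matrix β α A) : A :=
  ∑ a, ∑ b, H a b * (H * (B a)ᵀ * K * B b).trace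

/-- The scalar product of the family of matrices `B` with its transpose. -/
def crossM (H : Matrix α α A) (K : Matrix β β A) (B : α → Matrix β α A) : A :=
  ∑ d, ∑ e, (H * (B e)ᵀ * K * B d * H) d e

theorem normM_eq {H : Matrix α α A} (s : ∀ i j, H i j = H j i) (K : Matrix β β A)
    (B : α → Matrix β α A) :
    normM H K B = b3 K H H (fun a c d => B d a c) fun a c d => B d a c := by
  simp only [normM, b3, Matrix.trace, Matrix.diag, Matrix.mul_apply, Matrix.transpose_apply,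
    Finset.mul_sum, Finset.sum_mul, sum6]
  exact Fintype.sum_equiv ⟨fun x => (x.2.2.2.2.1, x.2.2.2.1, x.2.2.2.2.2, x.2.2.1, x.1, x.2.1),
    fun x => (x.2.2.2.2.1, x.2.2.2.2.2, x.2.2.2.1, x.2.1, x.1, x.2.2.1), fun _ => rfl,
    fun _ => rfl⟩ _ _ fun x => by
      simp only [Equiv.coe_fn_mk]
      rw [s x.2.2.1]; ring

theorem crossM_eq {H : Matrix α α A} (s : ∀ i j, H i j = H j i) (K : Matrix β β A)
    (B : α → Matrix β α A) :
    crossM H K B = b3 K H H (fun a c d => B d a c) fun a c d => B c a d := by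
  simp only [crossM, b3, Matrix.mul_apply, Matrix.transpose_apply, Finset.sum_mul, sum6]
  exact Fintype.sum_equiv ⟨fun x => (x.2.2.2.2.1, x.2.2.2.1, x.2.2.2.2.2, x.1, x.2.1, x.2.2.1),
    fun x => (x.2.2.2.1, x.2.2.2.2.1, x.2.2.2.2.2, x.2.1, x.1, x.2.2.1), fun _ => rfl,
    fun _ => rfl⟩ _ _ fun x => by
      simp only [Equiv.coe_fn_mk]
      rw [s x.1, s x.2.2.1]; ring

theorem crossM_le {H : Matrix α α ℝ} {K : Matrix β β ℝ} (pH : H.PosSemidef) (pK : K.PosSemidef)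
    (B : α → Matrix β α ℝ) : crossM H K B ≤ normM H K B := by
  have sH : ∀ i j, H i j = H j i := fun i j => by simpa using pH.isHermitian.apply j i
  have sK : ∀ i j, K i j = K j i := fun i j => by simpa using pK.isHermitian.apply j i
  have h := b3_nonneg pK pH pH fun a c d => B d a c - B c a d
  have e : b3 K H H (fun a c d => B c a d) (fun a c d => B c a d) = normM H K B :=
    (b3_swap23 K H H _ _).trans (normM_eq sH K B).symm
  rw [b3_sub_left, b3_sub_right, b3_sub_right, e,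
    b3_symm sK sH sH (fun a c d => B c a d), ← normM_eq sH, ← crossM_eq sH] at h
  linarith

theorem normM_map {A' : Type} [CommRing A'] (f : A →+* A') (H : Matrix α α A) (K : Matrix β β A)
    (B : α → Matrix β α A) :
    f (normM H K B) = normM (H.map f) (K.map f) fun a => (B a).map f := by
  simp only [normM, Matrix.trace, Matrix.diag, Matrix.mul_apply, Matrix.transpose_apply,
    map_sum, map_mul, Matrix.map_apply]

theorem crossM_map {A' : Type} [CommRing A'] (f : A →+* A') (H : Matrix α α A) (K : Matrix β β A)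
    (B : α → Matrix β α A) :
    f (crossM H K B) = crossM (H.map f) (K.map f) fun a => (B a).map f := by
  simp only [crossM, Matrix.mul_apply, Matrix.transpose_apply, map_sum, map_mul, Matrix.map_apply]

end B3

variable {ι : Type} [Fintype ι] [DecidableEq ι] {A : Type} [CommRing A] [Algebra ℝ A]

theorem two_cancel {a b : A} (h : 2 * a = 2 * b) : a = b := by
  have : a = (1 / 2 : ℝ) • (2 * a) := by algebra
  rw [this, h]; algebra

namespace Geo

variable (X : Geo ι A)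

theorem two_γ (i : ι) : 2 * X.γ i = (X.h * dm (X.D i) X.g).trace := by
  rw [dm_g, Matrix.transpose_mul, g_transpose, mul_add, Matrix.trace_add, ← Matrix.mul_assoc,
    Matrix.trace_mul_comm, ← Matrix.mul_assoc, ← Matrix.mul_assoc, X.gh, X.hg, Matrix.one_mul,
    Matrix.one_mul, Matrix.trace_transpose, γ, two_mul]

theorem four_qq : 4 * X.qq = 2 * crossM X.h X.h (fun a => dm (X.D a) X.g) -
    normM X.h X.h fun a => dm (X.D a) X.g := by
  set T₃ : ι → ι → ι → A := fun a b c => X.D c (X.g a b) with hT₃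
  set T₂ : ι → ι → ι → A := fun a b c => X.D b (X.g a c) with hT₂
  set T₁ : ι → ι → ι → A := fun a b c => X.D a (X.g b c) with hT₁
  have n₃ : normM X.h X.h (fun a => dm (X.D a) X.g) = b3 X.h X.h X.h T₃ T₃ := normM_eq X.hs _ _
  have c₃ : crossM X.h X.h (fun a => dm (X.D a) X.g) = b3 X.h X.h X.h T₃ T₂ := crossM_eq X.hs _ _
  have n₂ : b3 X.h X.h X.h T₂ T₂ = b3 X.h X.h X.h T₃ T₃ := b3_swap23 _ _ _ T₃ T₃
  have n₁ : b3 X.h X.h X.h T₁ T₁ = b3 X.h X.h X.h T₂ T₂ := b3_swap12 _ _ _ T₂ T₂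
  have c₁ : b3 X.h X.h X.h T₃ T₁ = b3 X.h X.h X.h T₃ T₂ := by
    rw [← b3_swap12 _ _ _ T₃ T₂]
    congr 1
    funext a b c
    simp only [hT₃, X.gs a b]
  have h2 : ∀ k i j, 2 * X.chr k i j =
      ∑ l, X.h k l * (X.D i (X.g l j) + X.D j (X.g l i) - X.D l (X.g i j)) := fun k i j => by
    rw [chr]; algebra
  have e : 4 * X.qq = b3 X.h X.h X.h (fun a b c => T₂ a b c + T₃ a b c - T₁ a b c)
      fun a b c => T₂ a b c + T₁ a b c - T₃ a b c := by
    have : 4 * X.qq = ∑ i, ∑ j, ∑ k, ∑ l, X.h i j * ((2 * X.chr k j l) * (2 * X.chr l i k)) := by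
      simp only [qq, cm, Matrix.trace, Matrix.diag, Matrix.mul_apply, Matrix.of_apply,
        Finset.mul_sum]
      exact Finset.sum_congr rfl fun _ _ => Finset.sum_congr rfl fun _ _ =>
        Finset.sum_congr rfl fun _ _ => Finset.sum_congr rfl fun _ _ => by ring
    rw [this]
    simp only [h2, b3, Finset.sum_mul_sum]
    simp only [Finset.mul_sum]
    rw [sum6, sum6]
    exact Fintype.sum_equiv ⟨fun x => (x.2.2.2.2.1, x.2.2.1, x.2.1, x.1, x.2.2.2.1, x.2.2.2.2.2),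
      fun x => (x.2.2.2.1, x.2.2.1, x.2.1, x.2.2.2.2.1, x.1, x.2.2.2.2.2), fun _ => rfl,
      fun _ => rfl⟩ _ _ fun x => by
        simp only [Equiv.coe_fn_mk, hT₁, hT₂, hT₃]
        rw [X.hs x.1, X.hs x.2.2.1, X.gs x.2.2.2.2.2 x.2.2.1, X.gs x.2.2.2.2.2 x.1,
          X.gs x.1 x.2.2.1]
        ring
  rw [e, n₃, c₃]
  simp only [b3_sub_left, b3_add_left, b3_sub_right, b3_add_right]
  rw [n₁, n₂, b3_symm X.hs X.hs X.hs T₂ T₁, b3_symm X.hs X.hs X.hs T₂ T₃,
    b3_symm X.hs X.hs X.hs T₁ T₃, c₁]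
  ring

end Geo

/-- Data of a torus invariant metric `H⁻¹ dx² + K (dθ + A dx)²`. -/
structure Blk (ι κ : Type) [Fintype ι] [DecidableEq ι] [Fintype κ] [DecidableEq κ] (A : Type)
    [CommRing A] [Algebra ℝ A] where
  D : ι → Derivation ℝ A A
  comm : ∀ i j a, D i (D j a) = D j (D i a)
  H : Matrix ι ι A
  G : Matrix ι ι A
  K : Matrix κ κ A
  K' : Matrix κ κ A
  Am : Matrix κ ι A
  Ht : Hᵀ = H
  Gt : Gᵀ = G
  Kt : Kᵀ = K
  K't : K'ᵀ = K'
  GH : G * H = 1
  KK : K' * K = 1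

theorem trace_blocks {m n : Type} [Fintype m] [Fintype n] (a : Matrix m m A) (b : Matrix m n A)
    (c : Matrix n m A) (d : Matrix n n A) :
    (Matrix.fromBlocks a b c d).trace = a.trace + d.trace := by
  simp [Matrix.trace, Fintype.sum_sum_type]

theorem symm_of_transpose {m : Type} {N : Matrix m m A} (h : Nᵀ = N) (i j : m) : N i j = N j i :=
  congrFun (congrFun h j) i

namespace Blk

variable {κ : Type} [Fintype κ] [DecidableEq κ] (B : Blk ι κ A)

theorem HG : B.H * B.G = 1 := mul_eq_one_comm.1 B.GH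

theorem KK' : B.K * B.K' = 1 := mul_eq_one_comm.1 B.KK

theorem HG_c {p : Type} (N : Matrix ι p A) : B.H * (B.G * N) = N := by
  rw [← Matrix.mul_assoc, B.HG, Matrix.one_mul]

theorem KK_c {p : Type} (N : Matrix κ p A) : B.K' * (B.K * N) = N := by
  rw [← Matrix.mul_assoc, B.KK, Matrix.one_mul]

theorem KK'_c {p : Type} (N : Matrix κ p A) : B.K * (B.K' * N) = N := by
  rw [← Matrix.mul_assoc, B.KK', Matrix.one_mul]

/-- The metric on the total space. -/
noncomputable def geo : Geo (ι ⊕ κ) A where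
  D := Sum.elim B.D fun _ => 0
  comm i j a := by
    rcases i with i | i <;> rcases j with j | j <;> simp [B.comm]
  g := Matrix.fromBlocks (B.G + B.Amᵀ * B.K * B.Am) (B.Amᵀ * B.K) (B.K * B.Am) B.K
  h := Matrix.fromBlocks B.H (-(B.H * B.Amᵀ)) (-(B.Am * B.H)) (B.K' + B.Am * B.H * B.Amᵀ)
  gs := symm_of_transpose <| by
    simp only [Matrix.fromBlocks_transpose, Matrix.transpose_add, Matrix.transpose_mul,
      Matrix.transpose_transpose, B.Gt, B.Kt, Matrix.mul_assoc]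
  hs := symm_of_transpose <| by
    simp only [Matrix.fromBlocks_transpose, Matrix.transpose_add, Matrix.transpose_mul,
      Matrix.transpose_transpose, Matrix.transpose_neg, B.Ht, B.K't, Matrix.mul_assoc]
  hg := by
    rw [Matrix.fromBlocks_multiply, ← Matrix.fromBlocks_one]
    simp only [Matrix.mul_add, Matrix.add_mul, Matrix.neg_mul, Matrix.mul_assoc, B.HG, B.KK,
      B.KK_c, Matrix.mul_one]
    congr 1 <;> abel

theorem geo_h : B.geo.h =
    Matrix.fromBlocks B.H (-(B.H * B.Amᵀ)) (-(B.Am * B.H)) (B.K' + B.Am * B.H * B.Amᵀ) := rfl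

/-- The frame matrix. -/
def U : Matrix (ι ⊕ κ) (ι ⊕ κ) A := Matrix.fromBlocks 1 0 B.Am 1

/-- The inverse frame matrix. -/
def V : Matrix (ι ⊕ κ) (ι ⊕ κ) A := Matrix.fromBlocks 1 0 (-B.Am) 1

/-- The derivative of the metric in the frame, with one index raised. -/
noncomputable def T (d : ι) : Matrix (ι ⊕ κ) (ι ⊕ κ) A :=
  Matrix.fromBlocks (B.H * dm (B.D d) B.G) (B.H * ((dm (B.D d) B.Am)ᵀ * B.K)) (dm (B.D d) B.Am)
    (B.K' * dm (B.D d) B.K)

theorem UV : B.U * B.V = 1 := by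
  rw [U, V, Matrix.fromBlocks_multiply, ← Matrix.fromBlocks_one]
  simp

theorem h_dg (d : ι) : B.geo.h * dm (B.geo.D (Sum.inl d)) B.geo.g = B.V * B.T d * B.U := by
  change Matrix.fromBlocks _ _ _ _ * dm (B.D d) (Matrix.fromBlocks _ _ _ _) = _
  rw [dm_fromBlocks, U, V, T, Matrix.fromBlocks_multiply, Matrix.fromBlocks_multiply,
    Matrix.fromBlocks_multiply]
  simp only [dm_add, dm_mul, dm_transpose, Matrix.mul_add, Matrix.add_mul, Matrix.neg_mul,
    Matrix.mul_assoc, B.KK_c, Matrix.mul_one, Matrix.one_mul, Matrix.zero_mul, Matrix.mul_zero]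
  congr 1 <;> abel

theorem dg_inr (a : κ) : dm (B.geo.D (Sum.inr a)) B.geo.g = 0 := rfl

theorem γ_inr (a : κ) : B.geo.γ (Sum.inr a) = 0 :=
  two_cancel (by rw [Geo.two_γ, dg_inr, Matrix.mul_zero, Matrix.trace_zero, mul_zero])

theorem γ_inl (d : ι) : 2 * B.geo.γ (Sum.inl d) =
    (B.H * dm (B.D d) B.G).trace + (B.K' * dm (B.D d) B.K).trace := by
  rw [Geo.two_γ, h_dg, Matrix.trace_mul_comm, ← Matrix.mul_assoc, B.UV, Matrix.one_mul, T,
    trace_blocks]

/-- The energy of the fibre metric. -/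
noncomputable def tK : A :=
  ∑ a, ∑ b, B.H a b * (B.K' * dm (B.D a) B.K * (B.K' * dm (B.D b) B.K)).trace

theorem dg_t (i : ι ⊕ κ) : (dm (B.geo.D i) B.geo.g)ᵀ = dm (B.geo.D i) B.geo.g := by
  rw [← dm_transpose, Geo.g_transpose]

theorem dG_t (i : ι) : (dm (B.D i) B.G)ᵀ = dm (B.D i) B.G := by rw [← dm_transpose, B.Gt]

theorem tr_TT (a b : ι) : (B.geo.h * dm (B.geo.D (Sum.inl a)) B.geo.g * B.geo.h *
    dm (B.geo.D (Sum.inl b)) B.geo.g).trace =
    (B.H * dm (B.D a) B.G * B.H * dm (B.D b) B.G).trace +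
      (B.K' * dm (B.D a) B.K * (B.K' * dm (B.D b) B.K)).trace +
      (B.H * (dm (B.D a) B.Am)ᵀ * B.K * dm (B.D b) B.Am).trace +
      (B.H * (dm (B.D b) B.Am)ᵀ * B.K * dm (B.D a) B.Am).trace := by
  rw [Matrix.mul_assoc, h_dg, h_dg, Matrix.mul_assoc, Matrix.mul_assoc, Matrix.trace_mul_comm]
  have : B.T a * (B.U * (B.V * B.T b * B.U)) * B.V = B.T a * B.T b := by
    rw [Matrix.mul_assoc B.V, ← Matrix.mul_assoc B.U, B.UV, Matrix.one_mul, Matrix.mul_assoc,
      Matrix.mul_assoc, B.UV, Matrix.mul_one]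
  rw [this, T, T, Matrix.fromBlocks_multiply, trace_blocks, Matrix.trace_add, Matrix.trace_add,
    Matrix.trace_mul_comm (dm (B.D a) B.Am)]
  simp only [Matrix.mul_assoc]
  ring

theorem norm_eq : normM B.geo.h B.geo.h (fun a => dm (B.geo.D a) B.geo.g) =
    normM B.H B.H (fun a => dm (B.D a) B.G) + B.tK +
      2 * normM B.H B.K fun a => dm (B.D a) B.Am := by
  have sH : ∀ i j, B.H i j = B.H j i := symm_of_transpose B.Ht
  have h2 : ∑ a, ∑ b, B.H a b * (B.H * (dm (B.D b) B.Am)ᵀ * B.K * dm (B.D a) B.Am).trace =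
      normM B.H B.K fun a => dm (B.D a) B.Am := by
    rw [normM, Finset.sum_comm]
    exact Finset.sum_congr rfl fun a _ => Finset.sum_congr rfl fun b _ => by rw [sH]
  rw [two_mul, ← add_assoc]
  nth_rewrite 2 [← h2]
  simp only [normM, tK, dg_t, dG_t, Fintype.sum_sum_type, dg_inr, Matrix.zero_mul,
    Matrix.trace_zero, mul_zero, Finset.sum_const_zero, add_zero, tr_TT, mul_add,
    Finset.sum_add_distrib]
  rfl

theorem cross_eq : crossM B.geo.h B.geo.h (fun a => dm (B.geo.D a) B.geo.g) =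
    crossM B.H B.H (fun a => dm (B.D a) B.G) + crossM B.H B.K fun a => dm (B.D a) B.Am := by
  have h1 : ∀ d e, (B.geo.h * dm (B.geo.D (Sum.inl e)) B.geo.g * B.geo.h *
      dm (B.geo.D (Sum.inl d)) B.geo.g * B.geo.h) (Sum.inl d) (Sum.inl e) =
      (B.H * dm (B.D e) B.G * B.H * dm (B.D d) B.G * B.H) d e +
        (B.H * (dm (B.D e) B.Am)ᵀ * B.K * dm (B.D d) B.Am * B.H) d e := fun d e => by
    rw [Matrix.mul_assoc _ B.geo.h (dm _ _), h_dg, h_dg]
    have : B.V * B.T e * B.U * (B.V * B.T d * B.U) = B.V * (B.T e * B.T d) * B.U := by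
      rw [Matrix.mul_assoc B.V (B.T d), Matrix.mul_assoc, ← Matrix.mul_assoc B.U, B.UV,
        Matrix.one_mul]
      simp only [Matrix.mul_assoc]
    rw [this, geo_h]
    simp only [T, U, V, Matrix.fromBlocks_multiply, Matrix.fromBlocks_apply₁₁, Matrix.one_mul,
      Matrix.zero_mul, Matrix.mul_one, Matrix.mul_zero, add_zero, zero_add, ← Matrix.add_apply]
    refine congrFun (congrFun ?_ d) e
    simp only [Matrix.add_mul, Matrix.mul_neg, Matrix.mul_assoc]
    abel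
  simp only [crossM, dg_t, dG_t, Fintype.sum_sum_type, dg_inr, Matrix.mul_zero, Matrix.zero_mul,
    Matrix.zero_apply, Finset.sum_const_zero, add_zero, h1, Finset.sum_add_distrib]

theorem four_qq : 4 * B.geo.qq =
    2 * (crossM B.H B.H (fun a => dm (B.D a) B.G) - normM B.H B.H fun a => dm (B.D a) B.G) +
      2 * (crossM B.H B.K (fun a => dm (B.D a) B.Am) - normM B.H B.K fun a => dm (B.D a) B.Am) -
      (B.tK - normM B.H B.H fun a => dm (B.D a) B.G) := by
  rw [Geo.four_qq, norm_eq, cross_eq]; ring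

theorem scal_eq : B.geo.scal = B.geo.qq -
    ∑ k, B.D k (∑ j, B.D j (B.H j k) + 2 * ∑ l, B.geo.γ (Sum.inl l) * B.H l k) -
      ∑ l, ∑ k, B.geo.γ (Sum.inl l) * B.H l k * B.geo.γ (Sum.inl k) := by
  rw [Geo.scal_div]
  simp only [Fintype.sum_sum_type, γ_inr, zero_mul, mul_zero, Finset.sum_const_zero, add_zero]
  simp [geo]

theorem gradSq_eq (φ : A) : B.geo.gradSq φ = ∑ i, ∑ j, B.H i j * B.D i φ * B.D j φ := by
  simp [Geo.gradSq, Fintype.sum_sum_type, geo]

theorem dG_eq (d : ι) : dm (B.D d) B.G = -(B.G * dm (B.D d) B.H * B.G) := dm_inv _ B.GH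

theorem tr_dG (d : ι) : (B.H * dm (B.D d) B.G).trace = -(B.G * dm (B.D d) B.H).trace := by
  rw [dG_eq, Matrix.mul_neg, Matrix.trace_neg, Matrix.mul_assoc, B.HG_c, Matrix.trace_mul_comm]

theorem norm_dG : normM B.H B.H (fun a => dm (B.D a) B.G) =
    ∑ a, ∑ b, B.H a b * (B.G * dm (B.D a) B.H * (B.G * dm (B.D b) B.H)).trace := by
  refine Finset.sum_congr rfl fun a _ => Finset.sum_congr rfl fun b _ => ?_
  beta_reduce
  rw [dG_t, dG_eq, dG_eq]
  simp only [Matrix.mul_neg, Matrix.neg_mul, neg_neg, Matrix.mul_assoc, B.HG_c]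
  rw [← Matrix.mul_assoc, ← Matrix.mul_assoc, Matrix.trace_mul_comm]
  simp only [Matrix.mul_assoc]

theorem tK_symp (B : Blk ι ι A) (h : B.K = B.H) :
    B.tK = normM B.H B.H fun a => dm (B.D a) B.G := by
  have h' : B.K' = B.G := by
    rw [← Matrix.mul_one B.K', ← B.HG, ← h, ← Matrix.mul_assoc, B.KK, Matrix.one_mul]
  rw [norm_dG, tK, h, h']

theorem γ_symp (B : Blk ι ι A) (h : B.K = B.H) (d : ι) : B.geo.γ (Sum.inl d) = 0 := by
  have h' : B.K' = B.G := by
    rw [← Matrix.mul_one B.K', ← B.HG, ← h, ← Matrix.mul_assoc, B.KK, Matrix.one_mul]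
  refine two_cancel ?_
  rw [γ_inl, tr_dG, h, h']; ring

section Contact

variable (B : Blk ι (ι ⊕ Unit) A) (C : Blk ι Unit A) (hD : C.D = B.D) (hH : C.H = B.G)
  (hG : C.G = B.H) {Bm Bi : Matrix (ι ⊕ Unit) (ι ⊕ Unit) A} (hB : Bi * Bm = 1)
  (hdB : ∀ d, dm (B.D d) Bm = 0) (hK : B.K = Bm * C.geo.g * Bmᵀ) {a a' : A}
  (ha : C.K () () = a ^ 2) (ha' : a' * a = 1)
include hD hB hdB hK

theorem K'_dK (d : ι) : B.K' * dm (B.D d) B.K =
    Biᵀ * (C.geo.h * dm (C.geo.D (Sum.inl d)) C.geo.g) * Bmᵀ := by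
  have hB' : Bm * Bi = 1 := mul_eq_one_comm.1 hB
  have h1 : B.K * (Biᵀ * C.geo.h * Bi) = 1 := by
    rw [hK, Matrix.mul_assoc, ← Matrix.mul_assoc Bmᵀ, ← Matrix.mul_assoc Bmᵀ,
      ← Matrix.transpose_mul, hB, Matrix.transpose_one, Matrix.one_mul, Matrix.mul_assoc,
      ← Matrix.mul_assoc C.geo.g, C.geo.gh, Matrix.one_mul, hB']
  have h2 : B.K' = Biᵀ * C.geo.h * Bi := by
    rw [← Matrix.mul_one B.K', ← h1, ← Matrix.mul_assoc, B.KK, Matrix.one_mul]
  have h3 : C.geo.D (Sum.inl d) = B.D d := congrFun hD d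
  rw [h2, hK, dm_mul, dm_mul, dm_transpose, hdB, h3]
  simp only [Matrix.zero_mul, zero_add, Matrix.transpose_zero, Matrix.mul_zero, add_zero,
    Matrix.mul_assoc]
  rw [← Matrix.mul_assoc Bi, hB, Matrix.one_mul]

omit hD hdB hK in
theorem tr_conj (N : Matrix (ι ⊕ Unit) (ι ⊕ Unit) A) : (Biᵀ * N * Bmᵀ).trace = N.trace := by
  rw [Matrix.trace_mul_comm, ← Matrix.mul_assoc, ← Matrix.transpose_mul, hB,
    Matrix.transpose_one, Matrix.one_mul]

omit hB hdB hK in
include ha ha' in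
theorem unit_dK (d : ι) : C.K' * dm (C.D d) C.K = Matrix.of fun _ _ => 2 * (a' * B.D d a) := by
  have h1 : C.K' () () * a ^ 2 = 1 := by
    simpa [Matrix.mul_apply, ha] using congrFun (congrFun C.KK ()) ()
  ext ⟨⟩ ⟨⟩
  simp only [Matrix.mul_apply, Finset.univ_unique, Finset.sum_singleton, dm_apply, Matrix.of_apply,
    PUnit.default_eq_unit, ha, hD, pow_two, der_mul]
  linear_combination (2 * a' * B.D d a) * h1 - (2 * C.K' () () * a * B.D d a) * ha'

include hH hG ha ha'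

theorem γ_contact (d : ι) : B.geo.γ (Sum.inl d) = a' * B.D d a := by
  refine two_cancel ?_
  rw [γ_inl, tr_dG, K'_dK B C hD hB hdB hK, tr_conj hB, ← Geo.two_γ, γ_inl,
    unit_dK B C hD ha ha', hH, hG, hD]
  simp [Matrix.trace]

theorem tK_contact (hx : ∀ d i, B.D d (C.Am () i) = if i = d then 1 else 0) :
    B.tK - normM B.H B.H (fun a => dm (B.D a) B.G) =
      4 * ∑ i, ∑ j, B.H i j * (a' * B.D i a) * (a' * B.D j a) + 2 * Fintype.card ι * a ^ 2 := by
  have hB' : Bmᵀ * Biᵀ = 1 := by rw [← Matrix.transpose_mul, hB, Matrix.transpose_one]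
  have h0 : ∀ i j, (C.H * (dm (C.D i) C.Am)ᵀ * C.K * dm (C.D j) C.Am).trace = a ^ 2 * B.G j i := by
    intro i j
    simp [Matrix.trace, Matrix.mul_apply, dm_apply, hD, hx, ha, hH, mul_comm]
  have h1 : ∀ i j, (B.K' * dm (B.D i) B.K * (B.K' * dm (B.D j) B.K)).trace =
      (B.G * dm (B.D i) B.H * (B.G * dm (B.D j) B.H)).trace +
        4 * ((a' * B.D i a) * (a' * B.D j a)) + 2 * a ^ 2 * B.G j i := fun i j => by
    rw [K'_dK B C hD hB hdB hK, K'_dK B C hD hB hdB hK]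
    have : ∀ N N' : Matrix (ι ⊕ Unit) (ι ⊕ Unit) A,
        Biᵀ * N * Bmᵀ * (Biᵀ * N' * Bmᵀ) = Biᵀ * (N * N') * Bmᵀ := fun N N' => by
      simp only [Matrix.mul_assoc]
      rw [← Matrix.mul_assoc Bmᵀ, hB', Matrix.one_mul]
    rw [this, tr_conj hB, ← Matrix.mul_assoc, tr_TT, h0, h0, unit_dK B C hD ha ha',
      unit_dK B C hD ha ha', hH, hG, hD, symm_of_transpose B.Gt i j]
    simp only [Matrix.mul_assoc, Matrix.trace, Matrix.diag, Finset.univ_unique,
      Finset.sum_singleton, Matrix.mul_apply (M := Matrix.of fun (_ _ : Unit) => _),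
      Matrix.of_apply]
    ring
  have h2 : ∑ i, ∑ j, B.H i j * B.G j i = Fintype.card ι := by
    have := congrArg Matrix.trace B.HG
    rw [Matrix.trace_one] at this
    exact this
  rw [norm_dG, tK, ← h2]
  simp only [h1, mul_add, Finset.sum_add_distrib, Finset.mul_sum, Finset.sum_mul]
  rw [add_assoc, add_sub_cancel_left]
  congr 1 <;> exact Finset.sum_congr rfl fun _ _ => Finset.sum_congr rfl fun _ _ => by ring

end Contact

end Blk

end Pool.Agent.MP_c98b3a_gt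

end MrgPart1

-- marker of a merged file
example : 731051 + 66793 = 731051 + 66793 := rfl
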