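import Mathlib.Tactic.Monotonicity.Lemmas
import Mathlib.Analysis.SpecialFunctions.SmoothTransition
import Mathlib.Analysis.Calculus.LineDeriv.IntegrationByParts
import Mathlib.Analysis.SpecialFunctions.Gaussian.GaussianIntegral
import Mathlib.MeasureTheory.Integral.Pi
import Mathlib.Analysis.InnerProductSpace.NormDet
import Mathlib.Geometry.Manifold.VectorField.Pullback
import Mathlib.RingTheory.PiTensorProduct
import Mathlib.Order.CompletePartialOrder
import Mathlib.Topology.UniformSpace.Uniformizable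
import Pool.Agent.MP_c98b3a_gt.QAlg

-- ======== part 0: formerly Pool.Agent.MP_c98b3a_gt.Metric
section MrgPart0

/-! Coordinate matrices of a Riemannian metric, chart independence, and the volume measure. -/

open scoped Manifold ContDiff Topology Matrix
open Set Filter Bundle MeasureTheory

set_option linter.unusedSectionVars false

namespace Pool.Agent.MP_c98b3a_gt

universe u

variable {ι : Type} [Fintype ι] [DecidableEq ι] {M : Type u} [TopologicalSpace M]
  [ChartedSpace (Euc ι) M] [IsManifold 𝓘(ℝ, Euc ι) ∞ M] (g : Metrics 𝓘(ℝ, Euc ι) M)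

/-- Charts of the maximal atlas. -/
abbrev IsChart (e : OpenPartialHomeomorph M (Euc ι)) : Prop :=
  e ∈ IsManifold.maximalAtlas 𝓘(ℝ, Euc ι) ∞ M

theorem isChart_at (x : M) : IsChart (chartAt (Euc ι) x) := IsManifold.chart_mem_maximalAtlas x

variable {e e' : OpenPartialHomeomorph M (Euc ι)} {y : Euc ι}

/-- The scalar product as a bilinear form on the model space. -/
noncomputable def ginL (x : M) : Euc ι →L[ℝ] Euc ι →L[ℝ] ℝ := g.inner x

/-- The differential of the inverse chart as a map of the model space. -/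
noncomputable def dpar (e : OpenPartialHomeomorph M (Euc ι)) (y : Euc ι) : Euc ι →L[ℝ] Euc ι :=
  mfderiv 𝓘(ℝ, Euc ι) 𝓘(ℝ, Euc ι) e.symm y

theorem gmat_apply (i j : ι) : gmat g e y i j =
    ginL g (e.symm y) (dpar e y (EuclideanSpace.single i 1))
      (dpar e y (EuclideanSpace.single j 1)) := rfl

theorem IsChart.smooth (h : IsChart e) :
    ContMDiffOn 𝓘(ℝ, Euc ι) 𝓘(ℝ, Euc ι) ∞ e e.source := contMDiffOn_of_mem_maximalAtlas h

theorem IsChart.smooth_symm (h : IsChart e) :
    ContMDiffOn 𝓘(ℝ, Euc ι) 𝓘(ℝ, Euc ι) ∞ e.symm e.target := contMDiffOn_symm_of_mem_maximalAtlas h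

theorem IsChart.mdiff (h : IsChart e) : e.MDifferentiable 𝓘(ℝ, Euc ι) 𝓘(ℝ, Euc ι) :=
  ⟨h.smooth.mdifferentiableOn (by simp), h.smooth_symm.mdifferentiableOn (by simp)⟩

theorem IsChart.cdOn (h : IsChart e) {φ : M → ℝ} (hφ : ContMDiff 𝓘(ℝ, Euc ι) 𝓘(ℝ, ℝ) ∞ φ) :
    ContDiffOn ℝ ∞ (φ ∘ e.symm) e.target :=
  contMDiffOn_iff_contDiffOn.1 (ContMDiff.comp_contMDiffOn hφ h.smooth_symm)

theorem isOpen_overlap (e e' : OpenPartialHomeomorph M (Euc ι)) :
    IsOpen (e.target ∩ e.symm ⁻¹' e'.source) :=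
  e.continuousOn_symm.isOpen_inter_preimage e.open_target e'.open_source

theorem cdOn_transition (h : IsChart e) (h' : IsChart e') :
    ContDiffOn ℝ ∞ (fun y => e' (e.symm y)) (e.target ∩ e.symm ⁻¹' e'.source) :=
  contMDiffOn_iff_contDiffOn.1
    (h'.smooth.comp (h.smooth_symm.mono inter_subset_left) fun _ hy => hy.2)

theorem dAt_transition (h : IsChart e) (h' : IsChart e')
    (hy : y ∈ e.target ∩ e.symm ⁻¹' e'.source) : DifferentiableAt ℝ (fun y => e' (e.symm y)) y :=
  ((cdOn_transition h h').contDiffAt ((isOpen_overlap e e').mem_nhds hy)).differentiableAt (by simp)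

theorem contMDiffOn_coordVec (h : IsChart e) (i : ι) :
    ContMDiffOn 𝓘(ℝ, Euc ι) (𝓘(ℝ, Euc ι).prod 𝓘(ℝ, Euc ι)) ∞
      (fun y => (TotalSpace.mk' (Euc ι) (e.symm y)
        (dparam 𝓘(ℝ, Euc ι) e.symm y (EuclideanSpace.single i 1)) : TangentBundle 𝓘(ℝ, Euc ι) M))
      e.target := by
  have h1 := h.smooth_symm.contMDiffOn_tangentMapWithin (m := ∞) (by simp)
    e.open_target.uniqueMDiffOn
  have h2 : ContMDiff 𝓘(ℝ, Euc ι) (𝓘(ℝ, Euc ι).prod 𝓘(ℝ, Euc ι)) ∞ fun y : Euc ι =>
      (TotalSpace.mk' (Euc ι) y (EuclideanSpace.single i 1 : Euc ι) :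
        TangentBundle 𝓘(ℝ, Euc ι) (Euc ι)) :=
    contMDiff_vectorSpace_iff_contDiff.2 contDiff_const
  refine (h1.comp h2.contMDiffOn fun y hy => hy).congr fun y hy => ?_
  simp only [Function.comp, tangentMapWithin, dparam, mfderivWithin_of_isOpen e.open_target hy]

theorem bilin_expand (L : Euc ι →L[ℝ] Euc ι →L[ℝ] ℝ) (T : Euc ι →L[ℝ] Euc ι) (v w : Euc ι) :
    L (T v) (T w) = ∑ i, ∑ j, v i * w j *
      L (T (EuclideanSpace.single i 1)) (T (EuclideanSpace.single j 1)) := by
  conv_lhs => rw [coord_eq v, coord_eq w]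
  simp only [map_sum, map_smul, sum_apply, smul_apply, smul_eq_mul, Finset.mul_sum]
  rw [Finset.sum_comm]
  exact Finset.sum_congr rfl fun _ _ => Finset.sum_congr rfl fun _ _ => by ring

theorem gmat_nice (h : IsChart e) : Nice (gmat g e) e.target := by
  refine ⟨e.open_target, fun i j => contMDiffOn_iff_contDiffOn.1 fun y hy => ?_, fun y hy => ?_⟩
  · have : ContMDiffWithinAt 𝓘(ℝ, Euc ι) (𝓘(ℝ, Euc ι).prod 𝓘(ℝ)) ∞
        (fun m => TotalSpace.mk' ℝ (E := Bundle.Trivial M ℝ) (e.symm m)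
          (g.inner (e.symm m) (dparam 𝓘(ℝ, Euc ι) e.symm m (EuclideanSpace.single i 1))
            (dparam 𝓘(ℝ, Euc ι) e.symm m (EuclideanSpace.single j 1))))
        e.target y := by
      apply ContMDiffWithinAt.clm_bundle_apply₂ (F₁ := Euc ι) (F₂ := Euc ι)
      · exact ContMDiffAt.comp_contMDiffWithinAt y g.contMDiff.contMDiffAt (h.smooth_symm y hy)
      · exact contMDiffOn_coordVec h i y hy
      · exact contMDiffOn_coordVec h j y hy
    simp only [contMDiffWithinAt_totalSpace] at this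
    exact this.2
  · refine Matrix.PosDef.of_dotProduct_mulVec_pos (Matrix.IsHermitian.ext fun i j => ?_)
      fun ξ hξ => ?_
    · exact g.symm _ _ _
    · have hi : Function.Injective (dpar e y) := h.mdiff.symm.mfderiv_injective hy
      have h0 : dpar e y (WithLp.toLp 2 ξ) ≠ 0 := fun h =>
        hξ (by simpa using hi (h.trans (map_zero _).symm))
      have h1 : 0 < ginL g (e.symm y) (dpar e y (WithLp.toLp 2 ξ))
        (dpar e y (WithLp.toLp 2 ξ)) := g.pos _ _ h0
      rw [bilin_expand] at h1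
      simp only [← gmat_apply] at h1
      simp only [dotProduct, Matrix.mulVec, star_trivial, Finset.mul_sum]
      refine h1.trans_eq (Finset.sum_congr rfl fun _ _ => Finset.sum_congr rfl fun _ _ => ?_)
      ring

theorem dpar_comp (h : IsChart e) (h' : IsChart e') (hy : y ∈ e.target ∩ e.symm ⁻¹' e'.source)
    (v : Euc ι) : dpar e y v =
      dpar e' (e' (e.symm y)) (fderiv ℝ (fun z => e' (e.symm z)) y v) := by
  have hτ := dAt_transition h h' hy
  have h1 : (e.symm : Euc ι → M) =ᶠ[𝓝 y] e'.symm ∘ fun z => e' (e.symm z) :=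
    mem_of_superset ((isOpen_overlap e e').mem_nhds hy) fun z hz => (e'.left_inv hz.2).symm
  have h2 := mfderiv_comp (I := 𝓘(ℝ, Euc ι)) (I' := 𝓘(ℝ, Euc ι)) (I'' := 𝓘(ℝ, Euc ι)) y
    (f := fun z => e' (e.symm z)) (h'.mdiff.mdifferentiableAt_symm (e'.map_source hy.2))
    hτ.mdifferentiableAt
  rw [mfderiv_eq_fderiv] at h2
  exact congrArg (fun L : Euc ι →L[ℝ] Euc ι => L v)
    ((h1.mfderiv_eq (I := 𝓘(ℝ, Euc ι)) (I' := 𝓘(ℝ, Euc ι))).trans h2)

theorem gmat_iso (h : IsChart e) (h' : IsChart e') : Iso (gmat g e) (gmat g e')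
    (e.target ∩ e.symm ⁻¹' e'.source) e'.target fun z => e' (e.symm z) := by
  refine ⟨(gmat_nice g h).mono (isOpen_overlap e e') inter_subset_left, gmat_nice g h',
    cdOn_transition h h', fun y hy => e'.map_source hy.2, fun y hy => Matrix.ext fun i j => ?_⟩
  have hτ := dAt_transition h h' hy
  rw [gmat_apply, dpar_comp h h' hy, dpar_comp h h' hy, bilin_expand]
  simp only [← pd_coord hτ, Matrix.mul_apply, Matrix.transpose_apply, jac, Matrix.of_apply,
    gmat_apply, e'.left_inv hy.2, Finset.sum_mul]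
  rw [Finset.sum_comm]
  exact Finset.sum_congr rfl fun _ _ => Finset.sum_congr rfl fun _ _ => by ring

theorem scalM_chart (h : IsChart e) (hy : y ∈ e.target) :
    scalM g (e.symm y) = scal (gmat g e) y :=
  ((gmat_iso g h (isChart_at _)).scal_eq ⟨hy, mem_chart_source (Euc ι) _⟩).symm

theorem gradSqM_chart (h : IsChart e) {φ : M → ℝ} (hφ : ContMDiff 𝓘(ℝ, Euc ι) 𝓘(ℝ, ℝ) ∞ φ)
    (hy : y ∈ e.target) : gradSqM g φ (e.symm y) = gradSq (gmat g e) (φ ∘ e.symm) y :=
  ((gmat_iso g h (isChart_at _)).gradSq_eq ((isChart_at _).cdOn hφ)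
    (fun _ hz => congrArg φ ((chartAt (Euc ι) _).left_inv hz.2).symm)
    ⟨hy, mem_chart_source (Euc ι) _⟩).symm

theorem continuous_of_charts {φ : M → ℝ}
    (h : ∀ x, ContinuousOn (φ ∘ (chartAt (Euc ι) x).symm) (chartAt (Euc ι) x).target) :
    Continuous φ := by
  refine continuous_iff_continuousAt.2 fun x => ?_
  have h1 := ((h x).comp (chartAt (Euc ι) x).continuousOn (chartAt (Euc ι) x).mapsTo).congr
    (g := φ) fun z hz => congrArg φ ((chartAt (Euc ι) x).left_inv hz).symm
  exact h1.continuousAt (chart_source_mem_nhds _ x)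

theorem continuous_scalM : Continuous (scalM g) :=
  continuous_of_charts fun x => (gmat_nice g (isChart_at x)).scal_sm.continuousOn.congr
    fun _ hy => scalM_chart g (isChart_at x) hy

theorem continuous_gradSqM {φ : M → ℝ} (hφ : ContMDiff 𝓘(ℝ, Euc ι) 𝓘(ℝ, ℝ) ∞ φ) :
    Continuous (gradSqM g φ) :=
  continuous_of_charts fun x =>
    ((gmat_nice g (isChart_at x)).gradSq_sm ((isChart_at x).cdOn hφ)).continuousOn.congr
      fun _ hy => gradSqM_chart g (isChart_at x) hφ hy

theorem det_fderiv_eq {τ : Euc ι → Euc ι} (h : DifferentiableAt ℝ τ y) :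
    (fderiv ℝ τ y).det = (jac τ y).det := by
  rw [ContinuousLinearMap.det, ← LinearMap.det_toMatrix (EuclideanSpace.basisFun ι ℝ).toBasis]
  congr 1
  ext a i
  simp [LinearMap.toMatrix_apply, jac, pd_coord h]

theorem chart_image_eq {s : Set M} (h : s ⊆ e.source) : e '' s = e.symm ⁻¹' s ∩ e.target := by
  ext y
  constructor
  · rintro ⟨x, hx, rfl⟩
    exact ⟨by simpa [e.left_inv (h hx)] using hx, e.map_source (h hx)⟩
  · exact fun hy => ⟨e.symm y, hy.1, e.right_inv hy.2⟩

variable [MeasurableSpace M] [BorelSpace M]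

theorem measurableSet_chart_image {s : Set M} (hs : MeasurableSet s) (h : s ⊆ e.source) :
    MeasurableSet (e '' s) := by
  have h1 := e.open_target.measurableSet.subtype_image
    (e.continuousOn_symm.domRestrict.measurable hs)
  rw [chart_image_eq h]
  refine (congrArg MeasurableSet ?_).mp h1
  ext y
  exact ⟨fun ⟨z, hz, e⟩ => e ▸ ⟨hz, z.2⟩, fun hy => ⟨⟨y, hy.2⟩, hy.1, rfl⟩⟩

theorem chart_integral_eq (h : IsChart e) (h' : IsChart e') {s : Set M} (hs : MeasurableSet s)
    (h₀ : s ⊆ e.source) (h₁ : s ⊆ e'.source) :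
    ∫⁻ y in e' '' s, ENNReal.ofReal (Real.sqrt (gmat g e' y).det) =
      ∫⁻ y in e '' s, ENNReal.ofReal (Real.sqrt (gmat g e y).det) := by
  have hsub : e '' s ⊆ e.target ∩ e.symm ⁻¹' e'.source := by
    rw [chart_image_eq h₀]
    exact fun y hy => ⟨hy.2, h₁ hy.1⟩
  have hτ : ∀ y ∈ e '' s, DifferentiableAt ℝ (fun z => e' (e.symm z)) y := fun y hy =>
    dAt_transition h h' (hsub hy)
  have him : e' '' s = (fun z => e' (e.symm z)) '' (e '' s) := by
    rw [image_image]
    exact image_congr fun x hx => by rw [e.left_inv (h₀ hx)]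
  rw [him, lintegral_image_eq_lintegral_abs_det_fderiv_mul volume (measurableSet_chart_image hs h₀)
    (fun y hy => (hτ y hy).hasFDerivAt.hasFDerivWithinAt)]
  · refine setLIntegral_congr_fun (measurableSet_chart_image hs h₀) fun y hy => ?_
    rw [← ENNReal.ofReal_mul (abs_nonneg _), det_fderiv_eq (hτ y hy),
      (gmat_iso g h h').det_eq (hsub hy), Real.sqrt_mul (sq_nonneg _), Real.sqrt_sq_eq_abs]
  · intro y hy z hz q
    have := e'.injOn (hsub hy).2 (hsub hz).2 q
    rw [← e.right_inv (hsub hy).1, this, e.right_inv (hsub hz).1]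

/-- The volume measure of one chart. -/
noncomputable def chartMeasure (e : OpenPartialHomeomorph M (Euc ι)) : Measure M :=
  Measure.map e.symm ((volume.restrict e.target).withDensity
    fun y => ENNReal.ofReal (Real.sqrt (gmat g e y).det))

theorem aemeas_symm (e : OpenPartialHomeomorph M (Euc ι)) (ρ : Euc ι → ENNReal) :
    AEMeasurable e.symm ((volume.restrict e.target).withDensity ρ) :=
  (e.continuousOn_symm.aemeasurable e.open_target.measurableSet).mono_ac
    (withDensity_absolutelyContinuous _ _)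

theorem chartMeasure_apply' {s : Set M} (hs : MeasurableSet s) : chartMeasure g e s =
    ∫⁻ y in e.symm ⁻¹' s ∩ e.target, ENNReal.ofReal (Real.sqrt (gmat g e y).det) := by
  rw [chartMeasure, Measure.map_apply_of_aemeasurable (aemeas_symm e _) hs, withDensity_apply',
    Measure.restrict_restrict' e.open_target.measurableSet]

theorem chartMeasure_apply {s : Set M} (hs : MeasurableSet s) (h : s ⊆ e.source) :
    chartMeasure g e s = ∫⁻ y in e '' s, ENNReal.ofReal (Real.sqrt (gmat g e y).det) := by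
  rw [chartMeasure_apply' g hs, chart_image_eq h]

theorem exists_cover [CompactSpace M] [Nonempty M] : ∃ (f : ℕ → M) (V : ℕ → Set M),
    (∀ n, MeasurableSet (V n)) ∧ (∀ n, V n ⊆ (chartAt (Euc ι) (f n)).source) ∧
      Pairwise (Function.onFun Disjoint V) ∧ ⋃ n, V n = univ := by
  obtain ⟨t, ht⟩ := isCompact_univ.elim_finite_subcover (fun x : M => (chartAt (Euc ι) x).source)
    (fun x => (chartAt (Euc ι) x).open_source)
    fun x _ => mem_iUnion.2 ⟨x, mem_chart_source (Euc ι) x⟩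
  have hne : (t : Set M).Nonempty := by
    obtain ⟨x⟩ := ‹Nonempty M›
    obtain ⟨j, hj, -⟩ := mem_iUnion₂.1 (ht (mem_univ x))
    exact ⟨j, hj⟩
  obtain ⟨f, hf⟩ := t.countable_toSet.exists_eq_range hne
  refine ⟨f, disjointed fun n => (chartAt (Euc ι) (f n)).source,
    MeasurableSet.disjointed fun n => (chartAt (Euc ι) (f n)).open_source.measurableSet,
    disjointed_subset _, disjoint_disjointed _, ?_⟩
  rw [iUnion_disjointed]
  refine eq_univ_of_forall fun x => ?_
  obtain ⟨j, hj, hx⟩ := mem_iUnion₂.1 (ht (mem_univ x))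
  obtain ⟨n, rfl⟩ : j ∈ range f := hf ▸ hj
  exact mem_iUnion.2 ⟨n, hx⟩

theorem measure_split {V : ℕ → Set M} (hVm : ∀ n, MeasurableSet (V n))
    (hd : Pairwise (Function.onFun Disjoint V)) (hVu : ⋃ n, V n = univ) (μ : Measure M)
    {s : Set M} (hs : MeasurableSet s) : μ s = ∑' n, μ (s ∩ V n) := by
  rw [← measure_iUnion (fun m n hmn => (hd hmn).mono inter_subset_right inter_subset_right)
    fun n => hs.inter (hVm n), ← inter_iUnion, hVu, inter_univ]

theorem exists_isVolume [CompactSpace M] : ∃ μ : Measure M, IsVolume g μ := by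
  rcases isEmpty_or_nonempty M with hM | hM
  · exact ⟨0, fun x => isEmptyElim x⟩
  obtain ⟨f, V, hVm, hVs, hd, hVu⟩ := exists_cover (ι := ι) (M := M)
  refine ⟨Measure.sum fun n => (chartMeasure g (chartAt (Euc ι) (f n))).restrict (V n),
    fun x₀ s hs h => ?_⟩
  rw [Measure.sum_apply _ hs, ← chartMeasure_apply g hs h, measure_split hVm hd hVu _ hs]
  refine tsum_congr fun n => ?_
  rw [Measure.restrict_apply hs,
    chartMeasure_apply g (hs.inter (hVm n)) (inter_subset_right.trans (hVs n)),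
    chartMeasure_apply g (hs.inter (hVm n)) (inter_subset_left.trans h)]
  exact chart_integral_eq g (isChart_at _) (isChart_at _) (hs.inter (hVm n))
    (inter_subset_left.trans h) (inter_subset_right.trans (hVs n))

theorem isVolume_vol [CompactSpace M] : IsVolume g (vol g) :=
  Classical.epsilon_spec (exists_isVolume g)

theorem vol_restrict [CompactSpace M] (h : IsChart e) :
    (vol g).restrict e.source = chartMeasure g e := by
  rcases isEmpty_or_nonempty M with hM | hM
  · exact Subsingleton.elim _ _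
  obtain ⟨f, V, hVm, hVs, hd, hVu⟩ := exists_cover (ι := ι) (M := M)
  ext s hs
  have hs' := hs.inter e.open_source.measurableSet
  have h1 : chartMeasure g e s = chartMeasure g e (s ∩ e.source) := by
    rw [chartMeasure_apply' g hs, chartMeasure_apply' g hs']
    congr 2
    ext y
    exact ⟨fun hy => ⟨⟨hy.1, e.map_target hy.2⟩, hy.2⟩, fun hy => ⟨hy.1.1, hy.2⟩⟩
  rw [Measure.restrict_apply hs, h1, measure_split hVm hd hVu _ hs', measure_split hVm hd hVu _ hs']
  refine tsum_congr fun n => ?_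
  rw [isVolume_vol g (f n) _ (hs'.inter (hVm n)) (inter_subset_right.trans (hVs n)),
    chartMeasure_apply g (hs'.inter (hVm n)) (inter_subset_left.trans inter_subset_right)]
  exact chart_integral_eq g h (isChart_at _) (hs'.inter (hVm n))
    (inter_subset_left.trans inter_subset_right) (inter_subset_right.trans (hVs n))

/-- The integral over a chart domain, in coordinates. -/
theorem setIntegral_chart [CompactSpace M] (h : IsChart e) {f : M → ℝ} (hf : Measurable f) :
    ∫ x in e.source, f x ∂vol g = ∫ y in e.target, f (e.symm y) * Real.sqrt (gmat g e y).det := by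
  have hρ : AEMeasurable (fun y => (Real.sqrt (gmat g e y).det).toNNReal)
      (volume.restrict e.target) :=
    ((gmat_nice g h).dens_sm.continuousOn.aemeasurable e.open_target.measurableSet).real_toNNReal
  rw [vol_restrict g h, chartMeasure, integral_map (aemeas_symm e _) hf.aestronglyMeasurable]
  refine (integral_withDensity_eq_integral_smul₀ hρ _).trans
    (setIntegral_congr_fun e.open_target.measurableSet fun y _ => ?_)
  simp only [NNReal.smul_def, Real.coe_toNNReal _ (Real.sqrt_nonneg _), smul_eq_mul, mul_comm]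

theorem finite_vol [T2Space M] [CompactSpace M] : IsFiniteMeasure (vol g) := by
  have : LocallyCompactSpace M := ChartedSpace.locallyCompactSpace (Euc ι) M
  have : IsLocallyFiniteMeasure (vol g) := ⟨fun x => by
    obtain ⟨K, hK, hKs, hKc⟩ := local_compact_nhds (chart_source_mem_nhds (Euc ι) x)
    refine ⟨K, hK, ?_⟩
    rw [isVolume_vol g x K hKc.measurableSet hKs]
    exact (((gmat_nice g (isChart_at x)).dens_sm.continuousOn.mono
      ((chartAt (Euc ι) x).mapsTo.mono_left hKs).image_subset).integrableOn_compact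
      (hKc.image_of_continuousOn ((chartAt (Euc ι) x).continuousOn.mono hKs))).lintegral_lt_top⟩
  infer_instance

theorem integrable_vol [T2Space M] [CompactSpace M] {f : M → ℝ} (hf : Continuous f) :
    Integrable f (vol g) :=
  have := finite_vol g
  hf.integrable_of_hasCompactSupport (HasCompactSupport.of_compactSpace f)

end Pool.Agent.MP_c98b3a_gt

end MrgPart0

-- ======== part 1: formerly Pool.Agent.MP_c98b3a_gt.Local
section MrgPart1

/-! The scalar curvature of a torus invariant metric in action-angle coordinates. -/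

open scoped ContDiff Topology Matrix
open Set Filter

set_option linter.unusedSectionVars false

namespace Pool.Agent.MP_c98b3a_gt

variable {ι κ : Type} [Fintype ι] [DecidableEq ι] [Fintype κ] [DecidableEq κ]

theorem cd_base : ContDiff ℝ ∞ (base : Euc (ι ⊕ κ) → Euc ι) :=
  contDiff_euclidean.2 fun i => cd_coord (Sum.inl i)

theorem pd_base {F : Euc ι → ℝ} {y : Euc (ι ⊕ κ)} (hF : DifferentiableAt ℝ F (base y))
    (i : ι ⊕ κ) : pd i (fun z => F (base z)) y =
      Sum.elim (fun i => pd i F (base y)) (fun _ => 0) i := by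
  rw [pd_chain hF (cd_base.differentiable (by simp) y)]
  have : ∀ c, pd i (fun z : Euc (ι ⊕ κ) => base z c) y = if Sum.inl c = i then 1 else 0 :=
    fun c => pd_proj i (Sum.inl c) y
  rcases i with i | i <;> simp [this]

/-- The vector field whose divergence appears in the scalar curvature. -/
noncomputable def fld (H : Euc ι → Matrix ι ι ℝ) (σ : Euc ι → ℝ) (k : ι) (z : Euc ι) : ℝ :=
  ∑ j, pd j (fun w => H w j k) z + 2 * ∑ l, pd l σ z * H z l k

/-- The block matrix of a torus invariant metric. -/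
noncomputable def blkMat (H : Matrix ι ι ℝ) (K : Matrix κ κ ℝ) (A : Matrix κ ι ℝ) :
    Matrix (ι ⊕ κ) (ι ⊕ κ) ℝ := Matrix.fromBlocks (H + Aᵀ * K * A) (Aᵀ * K) (K * A) K

theorem det_blkMat (H : Matrix ι ι ℝ) (K : Matrix κ κ ℝ) (A : Matrix κ ι ℝ) :
    (blkMat H K A).det = H.det * K.det := by
  have : blkMat H K A = (Matrix.fromBlocks 1 0 A 1)ᵀ * Matrix.fromBlocks H 0 0 K *
      Matrix.fromBlocks 1 0 A 1 := by
    simp [blkMat, Matrix.fromBlocks_transpose, Matrix.fromBlocks_multiply]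
  rw [this, Matrix.det_mul, Matrix.det_mul, Matrix.det_transpose, Matrix.det_fromBlocks_zero₁₂,
    Matrix.det_fromBlocks_zero₁₂]
  simp

/-- Smooth data on the base. -/
structure Dat (P : Set (Euc ι)) (H : Euc ι → Matrix ι ι ℝ) (K : Euc ι → Matrix κ κ ℝ)
    (A : Euc ι → Matrix κ ι ℝ) : Prop where
  n : Nice H P
  Ksm : ∀ i j, ContDiffOn ℝ ∞ (fun z => K z i j) P
  Kpos : ∀ x ∈ P, (K x).PosDef
  Asm : ∀ i j, ContDiffOn ℝ ∞ (fun z => A z i j) P

theorem mkM_transpose {m : Type} [Fintype m] {P : Set (Euc ι)} {N : Euc ι → Matrix m m ℝ}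
    (hN : ∀ i j, ContDiffOn ℝ ∞ (fun z => N z i j) P) (h : ∀ x ∈ P, (N x).PosDef) :
    (mkM N hN)ᵀ = mkM N hN :=
  Matrix.ext fun i j => ev_ext fun y => posDef_symm (h y y.2) j i

namespace Dat

variable {P : Set (Euc ι)} {H : Euc ι → Matrix ι ι ℝ} {K : Euc ι → Matrix κ κ ℝ}
  {A : Euc ι → Matrix κ ι ℝ} (d : Dat P H K A)
include d

theorem K'sm (i j : κ) : ContDiffOn ℝ ∞ (fun z => (K z)⁻¹ i j) P :=
  cdOn_inv d.Ksm (fun x hx => (d.Kpos x hx).det_pos.ne') i j

/-- The algebraic block metric. -/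
noncomputable def blk : Blk ι κ (SmA P) where
  D := DA d.n.op
  comm := DA_comm d.n.op
  H := mkM H d.n.sm
  G := mkM (fun z => (H z)⁻¹) d.n.inv_sm
  K := mkM K d.Ksm
  K' := mkM (fun z => (K z)⁻¹) d.K'sm
  Am := mkM A d.Asm
  Ht := mkM_transpose _ d.n.pos
  Gt := mkM_transpose _ fun x hx => (d.n.pos x hx).inv
  Kt := mkM_transpose _ d.Kpos
  K't := mkM_transpose _ fun x hx => (d.Kpos x hx).inv
  GH := mkM_inv_mul d.n.sm fun _ hx => (d.n.det_pos hx).ne'
  KK := mkM_inv_mul d.Ksm fun x hx => (d.Kpos x hx).det_pos.ne'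

theorem g_ev (x : P) : d.blk.geo.g.map (ev x) = blkMat (H x)⁻¹ (K x) (A x) := by
  change (Matrix.fromBlocks _ _ _ _).map _ = _
  rw [Matrix.fromBlocks_map, Matrix.map_add _ (map_add _), Matrix.map_mul, Matrix.map_mul,
    Matrix.map_mul]
  rfl

theorem qq_le (x : P) {q : ℝ}
    (hq : 4 * q ≤ ev x (d.blk.tK - normM d.blk.H d.blk.H fun a => dm (d.blk.D a) d.blk.G)) :
    ev x d.blk.geo.qq ≤ -q := by
  have h := congrArg (ev x) d.blk.four_qq
  have h1 := crossM_le (d.n.pos x x.2).posSemidef (d.n.pos x x.2).posSemidef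
    fun a => (dm (d.blk.D a) d.blk.G).map (ev x)
  have h2 := crossM_le (d.n.pos x x.2).posSemidef (d.Kpos x x.2).posSemidef
    fun a => (dm (d.blk.D a) d.blk.Am).map (ev x)
  rw [map_sub (ev x) _ (d.blk.tK - _)] at h
  simp only [map_mul, map_add, map_ofNat, map_sub (ev x) (crossM _ _ _), crossM_map,
    normM_map] at h
  change _ = 2 * (crossM (H x) (H x) _ - normM (H x) (H x) _) +
    2 * (crossM (H x) (K x) _ - normM (H x) (K x) _) - _ at h
  linarith

variable {Ω : Set (Euc (ι ⊕ κ))} {G : Euc (ι ⊕ κ) → Matrix (ι ⊕ κ) (ι ⊕ κ) ℝ} (hΩ : IsOpen Ω)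
  (hP : ∀ y ∈ Ω, base y ∈ P)
  (hG : ∀ y ∈ Ω, G y = blkMat (H (base y))⁻¹ (K (base y)) (A (base y)))
include hΩ hP hG

theorem reps : Reps d.blk.geo (fun a F => ∀ y (hy : y ∈ Ω), F y = ev ⟨base y, hP y hy⟩ a) G := by
  refine ⟨⟨fun h k y hy => congrArg₂ (· + ·) (h y hy) (k y hy),
    fun h k y hy => congrArg₂ (· * ·) (h y hy) (k y hy),
    fun c a F h y hy => congrArg (c * ·) (h y hy),
    fun y hy => rfl, fun i a F h y hy => ?_⟩, fun i j y hy => ?_, fun i j y hy => ?_⟩
  · have h1 : EqOn F (fun z => exA a (base z)) Ω := fun z hz =>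
      (h z hz).trans (rep_exA a ⟨base z, hP z hz⟩)
    rw [pd_congr_on hΩ h1 i hy, pd_base (dAt_of_cdOn d.n.op (rep_exA a).cdOn (hP y hy))]
    rcases i with i | i
    · rfl
    · rfl
  · beta_reduce
    rw [hG y hy, ← d.g_ev ⟨base y, hP y hy⟩]; rfl
  · have h1 : d.blk.geo.h.map (ev ⟨base y, hP y hy⟩) * G y = 1 := by
      rw [hG y hy, ← d.g_ev ⟨base y, hP y hy⟩, ← Matrix.map_mul, d.blk.geo.hg,
        Matrix.map_one _ (map_zero _) (map_one _)]
    rw [ginv, Matrix.inv_eq_left_inv h1]; rfl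

theorem gradSq_eq {F : Euc ι → ℝ} (hF : ContDiffOn ℝ ∞ F P) {φ : Euc (ι ⊕ κ) → ℝ}
    (hφ : ∀ y ∈ Ω, φ y = F (base y)) {y : Euc (ι ⊕ κ)} (hy : y ∈ Ω) :
    gradSq G φ y = ∑ i, ∑ j, H (base y) i j * pd i F (base y) * pd j F (base y) := by
  rw [(d.reps hΩ hP hG).gradSq (a := mkA F hF) hφ y hy, Blk.gradSq_eq]
  have m := model_rep d.n.op
  exact (m.sum fun i => m.sum fun j => ((rep_mkM d.n.sm i j).mul (m.pd i (rep_mkA hF))).mul
    (m.pd j (rep_mkA hF))) ⟨base y, hP y hy⟩

theorem scal_le {σ q : Euc ι → ℝ} (hγ : ∀ l, Rep (d.blk.geo.γ (Sum.inl l)) (pd l σ))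
    (hq : ∀ x : P,
      4 * q x ≤ ev x (d.blk.tK - normM d.blk.H d.blk.H fun a => dm (d.blk.D a) d.blk.G))
    {y : Euc (ι ⊕ κ)} (hy : y ∈ Ω) :
    scal G y ≤ -q (base y) - ∑ k, pd k (fld H σ k) (base y) -
      ∑ l, ∑ k, pd l σ (base y) * H (base y) l k * pd k σ (base y) := by
  rw [(d.reps hΩ hP hG).scal y hy, Blk.scal_eq, map_sub, map_sub]
  have m := model_rep d.n.op
  have h1 := (m.sum (t := Finset.univ) fun k => m.pd k (m.add
    (m.sum (t := Finset.univ) fun j => m.pd j (rep_mkM d.n.sm j k))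
    (m.two (m.sum (t := Finset.univ) fun l => (hγ l).mul (rep_mkM d.n.sm l k))))) ⟨base y, hP y hy⟩
  have h2 := (m.sum (t := Finset.univ) fun l => m.sum (t := Finset.univ) fun k =>
    ((hγ l).mul (rep_mkM d.n.sm l k)).mul (hγ k)) ⟨base y, hP y hy⟩
  have h3 := d.qq_le ⟨base y, hP y hy⟩ (hq _)
  exact sub_le_sub (sub_le_sub h3 h1.ge) h2.ge

end Dat

/-- The local facts used by the entropy estimate. -/
structure Loc (G : Euc (ι ⊕ κ) → Matrix (ι ⊕ κ) (ι ⊕ κ) ℝ) (Ω : Set (Euc (ι ⊕ κ)))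
    (H : Euc ι → Matrix ι ι ℝ) (s q : Euc ι → ℝ) : Prop where
  dens : ∀ y ∈ Ω, Real.sqrt (G y).det = s (base y)
  grad : ∀ F : Euc ι → ℝ, ContDiff ℝ ∞ F → ∀ φ : Euc (ι ⊕ κ) → ℝ, (∀ y ∈ Ω, φ y = F (base y)) →
    ∀ y ∈ Ω, gradSq G φ y = ∑ i, ∑ j, H (base y) i j * pd i F (base y) * pd j F (base y)
  scal : ∀ y ∈ Ω, scal G y ≤ -q (base y) -
    ∑ k, pd k (fld H (fun z => Real.log (s z)) k) (base y) -
      ∑ l, ∑ k, pd l (fun z => Real.log (s z)) (base y) * H (base y) l k *
        pd k (fun z => Real.log (s z)) (base y)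

theorem loc_symp {P : Set (Euc ι)} {H A : Euc ι → Matrix ι ι ℝ} (d : Dat P H H A)
    {Ω : Set (Euc (ι ⊕ ι))} {G : Euc (ι ⊕ ι) → Matrix (ι ⊕ ι) (ι ⊕ ι) ℝ} (hΩ : IsOpen Ω)
    (hP : ∀ y ∈ Ω, base y ∈ P)
    (hG : ∀ y ∈ Ω, G y = blkMat (H (base y))⁻¹ (H (base y)) (A (base y))) :
    Loc G Ω H (fun _ => 1) fun _ => 0 := by
  refine ⟨fun y hy => ?_, fun F hF φ hφ y hy => d.gradSq_eq hΩ hP hG hF.contDiffOn hφ hy,
    fun y hy => d.scal_le (q := fun _ => 0) hΩ hP hG (fun l => ?_) (fun x => ?_) hy⟩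
  · rw [hG y hy, det_blkMat, ← Matrix.det_mul,
      Matrix.nonsing_inv_mul _ (d.n.det_pos (hP y hy)).ne'.isUnit, Matrix.det_one, Real.sqrt_one]
  · rw [d.blk.γ_symp rfl]
    exact fun x => (pd_const l _ _).symm
  · rw [d.blk.tK_symp rfl, sub_self, map_zero, mul_zero]

/-- The row vector of coordinates. -/
def rowX (x : Euc ι) : Matrix Unit ι ℝ := Matrix.of fun _ i => x i

theorem contactK_eq (B : Matrix (ι ⊕ Unit) (ι ⊕ Unit) ℝ) (a : Euc ι → ℝ)
    (H : Euc ι → Matrix ι ι ℝ) (x : Euc ι) :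
    contactK B a H x = B * blkMat (H x) (Matrix.of fun _ _ => a x ^ 2) (rowX x) * Bᵀ := by
  ext α β
  simp only [contactK, ray, blkMat, rowX, Matrix.mul_apply, Matrix.of_apply, Matrix.mulVec,
    dotProduct, Fintype.sum_sum_type, Matrix.transpose_apply, Matrix.fromBlocks_apply₁₁,
    Matrix.fromBlocks_apply₁₂, Matrix.fromBlocks_apply₂₁, Matrix.fromBlocks_apply₂₂,
    Matrix.add_apply, Finset.univ_unique, Finset.sum_singleton, Sum.elim_inl, Sum.elim_inr,
    mul_add, add_mul, Finset.sum_add_distrib, Finset.sum_mul, Finset.mul_sum]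
  rw [Finset.sum_comm (f := fun i j => B α (Sum.inl i) * H x i j * B β (Sum.inl j))]
  have e1 : ∑ i, ∑ j, a x ^ 2 * (B α (Sum.inl j) * x j * (B β (Sum.inl i) * x i)) =
      ∑ i, ∑ j, B α (Sum.inl j) * (x j * a x ^ 2 * x i) * B β (Sum.inl i) :=
    Finset.sum_congr rfl fun _ _ => Finset.sum_congr rfl fun _ _ => by ring
  have e2 : ∑ i, a x ^ 2 * (B α (Sum.inr default) * 1 * (B β (Sum.inl i) * x i)) =
      ∑ i, B α (Sum.inr default) * (a x ^ 2 * x i) * B β (Sum.inl i) :=
    Finset.sum_congr rfl fun _ _ => by ring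
  have e3 : ∑ i, a x ^ 2 * (B α (Sum.inl i) * x i * (B β (Sum.inr default) * 1)) =
      ∑ i, B α (Sum.inl i) * (x i * a x ^ 2) * B β (Sum.inr default) :=
    Finset.sum_congr rfl fun _ _ => by ring
  rw [e1, e2, e3]
  ring

theorem loc_contact {P : Set (Euc ι)} {H : Euc ι → Matrix ι ι ℝ}
    {B : Matrix (ι ⊕ Unit) (ι ⊕ Unit) ℝ} (hB : B.det ≠ 0) {a : Euc ι → ℝ} (ha : ContDiff ℝ ∞ a)
    (ha0 : ∀ x, 0 < a x) {A : Euc ι → Matrix (ι ⊕ Unit) ι ℝ} (d : Dat P H (contactK B a H) A)
    {Ω : Set (Euc (ι ⊕ (ι ⊕ Unit)))}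
    {G : Euc (ι ⊕ (ι ⊕ Unit)) → Matrix (ι ⊕ (ι ⊕ Unit)) (ι ⊕ (ι ⊕ Unit)) ℝ} (hΩ : IsOpen Ω)
    (hP : ∀ y ∈ Ω, base y ∈ P)
    (hG : ∀ y ∈ Ω, G y = blkMat (H (base y))⁻¹ (contactK B a H (base y)) (A (base y))) :
    Loc G Ω H (fun x => |B.det| * a x) fun x => Fintype.card ι / 2 * a x ^ 2 := by
  have m := model_rep d.n.op
  have hinv : ∀ x ∈ P, (H x)⁻¹⁻¹ = H x := fun x hx =>
    Matrix.nonsing_inv_nonsing_inv _ (d.n.det_pos hx).ne'.isUnit
  have d' : Dat P (fun x => (H x)⁻¹) (fun x => (Matrix.of fun _ _ => a x ^ 2 : Matrix Unit Unit ℝ))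
      rowX := ⟨⟨d.n.op, d.n.inv_sm, fun x hx => (d.n.pos x hx).inv⟩,
    fun _ _ => (ha.pow 2).contDiffOn, fun x _ => by
      have : (Matrix.of fun _ _ => a x ^ 2 : Matrix Unit Unit ℝ) =
          Matrix.diagonal fun _ => a x ^ 2 := by ext ⟨⟩ ⟨⟩; simp
      rw [this, Matrix.posDef_diagonal_iff]
      exact fun _ => pow_pos (ha0 x) 2, fun _ j => (cd_coord j).contDiffOn⟩
  have hG' : d'.blk.G = d.blk.H := mat_ext fun x => hinv x x.2
  have hBi : mkM (U := P) (fun _ => B⁻¹) (fun _ _ => contDiffOn_const) *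
      mkM (U := P) (fun _ => B) (fun _ _ => contDiffOn_const) = 1 :=
    mkM_inv_mul (N := fun _ => B) (fun _ _ => contDiffOn_const) fun _ _ => hB
  have hdB : ∀ l, dm (d.blk.D l) (mkM (U := P) (fun _ => B) fun _ _ => contDiffOn_const) = 0 :=
    fun l => Matrix.ext fun i j => (m.pd l (rep_mkM (N := fun _ => B) _ i j)).ext m.zero
      fun x _ => pd_const l _ x
  have hK : d.blk.K = mkM (U := P) (fun _ => B) (fun _ _ => contDiffOn_const) * d'.blk.geo.g *
      (mkM (U := P) (fun _ => B) fun _ _ => contDiffOn_const)ᵀ := mat_ext fun x => by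
    rw [Matrix.map_mul, Matrix.map_mul, d'.g_ev, hinv x x.2]
    exact contactK_eq B a H x
  have hai : ContDiffOn ℝ ∞ (fun x => (a x)⁻¹) P := (ha.inv fun x => (ha0 x).ne').contDiffOn
  have hsq : d'.blk.K () () = mkA a ha.contDiffOn ^ 2 := ev_ext fun x => by rw [map_pow]; rfl
  have hone : mkA _ hai * mkA a ha.contDiffOn = 1 := ev_ext fun x => inv_mul_cancel₀ (ha0 x).ne'
  have hx : ∀ l i, d.blk.D l (d'.blk.Am () i) = if i = l then 1 else 0 := fun l i =>
    ev_ext fun x => ((m.pd l (rep_mkM d'.Asm () i)) x).trans ((pd_proj l i x).trans (by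
      split_ifs <;> rfl))
  have r : ∀ l, Rep (mkA _ hai * d.blk.D l (mkA a ha.contDiffOn)) fun x => (a x)⁻¹ * pd l a x :=
    fun l => (rep_mkA hai).mul (m.pd l (rep_mkA ha.contDiffOn))
  refine ⟨fun y hy => ?_, fun F hF φ hφ y hy => d.gradSq_eq hΩ hP hG hF.contDiffOn hφ hy,
    fun y hy => d.scal_le (q := fun x => Fintype.card ι / 2 * a x ^ 2) hΩ hP hG
      (fun l => ?_) (fun x => ?_) hy⟩
  · rw [hG y hy, det_blkMat, contactK_eq, Matrix.det_mul, Matrix.det_mul, det_blkMat,
      Matrix.det_transpose, Matrix.det_nonsing_inv, Ring.inverse_eq_inv', Matrix.det_unique (n := Unit),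
      Matrix.of_apply, Real.sqrt_eq_iff_mul_self_eq_of_pos (mul_pos (abs_pos.2 hB) (ha0 _))]
    have := (d.n.det_pos (hP y hy)).ne'
    have h2 := sq_abs B.det
    field_simp
    rw [h2, mul_comm]
  · rw [d.blk.γ_contact d'.blk rfl rfl hG' hBi hdB hK hsq hone]
    refine (r l).congr fun x _ => ?_
    have := (ha0 x).ne'
    have h2 := (abs_pos.2 hB).ne'
    rw [pd_log ((dAt_of_cd ha x).const_mul _) (mul_ne_zero h2 this), pd_const_mul (dAt_of_cd ha x)]
    field_simp
  · rw [d.blk.tK_contact d'.blk rfl rfl hG' hBi hdB hK hsq hone hx]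
    have h1 := (m.sum (t := Finset.univ) fun i => m.sum (t := Finset.univ) fun j =>
      ((rep_mkM d.n.sm i j).mul (r i)).mul (r j)) x
    have h2 := (d.n.pos x x.2).posSemidef.dotProduct_mulVec_nonneg fun l => (a x)⁻¹ * pd l a x
    have h3 : 0 ≤ ∑ i, ∑ j, H x i j * ((a x)⁻¹ * pd i a x) * ((a x)⁻¹ * pd j a x) := by
      refine h2.trans_eq ?_
      simp only [dotProduct, Matrix.mulVec, star_trivial, Finset.mul_sum]
      exact Finset.sum_congr rfl fun _ _ => Finset.sum_congr rfl fun _ _ => by ring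
    rw [map_add, map_mul, map_mul, map_mul, map_pow, map_natCast, map_ofNat, map_ofNat]
    have h4 : ev x (mkA a ha.contDiffOn) = a x := rfl
    rw [h4]
    have h5 := h3.trans_eq h1.symm
    change 0 ≤ ev x _ at h5
    change _ ≤ 4 * ev x (∑ i, ∑ j, mkM H d.n.sm i j * _ * _) + _
    linarith

end Pool.Agent.MP_c98b3a_gt

end MrgPart1

-- ======== part 2: formerly Pool.Agent.MP_c98b3a_gt.Poly
section MrgPart2

/-! Polytopes: a divergence inequality, the boundary condition, and the deepest point. -/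

open scoped ContDiff Topology Matrix
open Set Filter MeasureTheory

set_option linter.unusedSectionVars false

namespace Pool.Agent.MP_c98b3a_gt

variable {ι F : Type} [Fintype ι] [DecidableEq ι] [Fintype F] {u : F → ι → ℝ} {c : F → ℝ}

theorem cd_lab (k : F) : ContDiff ℝ ∞ (lab u c k) :=
  (ContDiff.sum fun i _ => contDiff_const.mul (cd_coord i)).add contDiff_const

theorem cont_lab (k : F) : Continuous (lab u c k) := (cd_lab k).continuous

theorem lab_add (k : F) (x d : Euc ι) (t : ℝ) :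
    lab u c k (x + t • d) = lab u c k x + t * ∑ i, u k i * d i := by
  simp only [lab, PiLp.add_apply, PiLp.smul_apply, smul_eq_mul, mul_add, Finset.sum_add_distrib,
    Finset.mul_sum]
  rw [Finset.sum_congr rfl fun i _ => mul_left_comm (u k i) t (d i)]
  ring

theorem lab_sub (k : F) (x y : Euc ι) :
    ∑ i, u k i * (x i - y i) = lab u c k x - lab u c k y := by
  simp only [lab, mul_sub, Finset.sum_sub_distrib]; ring

theorem pd_lin (v : ι → ℝ) (i : ι) (x : Euc ι) : pd i (fun z => ∑ j, v j * z j) x = v i := by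
  rw [pd_sum fun j _ => (dAt_of_cd (cd_coord j) x).const_mul _]
  simp only [fun j => pd_const_mul (dAt_of_cd (cd_coord j) x) (v j) i, pd_proj]
  simp

theorem pd_lab (k : F) (i : ι) (x : Euc ι) : pd i (lab u c k) x = u k i := by
  unfold lab
  rw [pd_add (dAt_of_cd (ContDiff.sum fun i _ => contDiff_const.mul (cd_coord i)) x)
    (differentiableAt_const _), pd_lin, pd_const, add_zero]

theorem isOpen_poly : IsOpen (poly u c) := by
  rw [poly, ofPred_forall]
  exact isOpen_iInter_of_finite fun k => isOpen_lt continuous_const (cont_lab k)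

/-- The closed polytope. -/
def cpoly (u : F → ι → ℝ) (c : F → ℝ) : Set (Euc ι) := {x | ∀ k, 0 ≤ lab u c k x}

theorem poly_subset : poly u c ⊆ cpoly u c := fun _ h k => (h k).le

theorem isClosed_cpoly : IsClosed (cpoly u c) := by
  rw [cpoly, ofPred_forall]
  exact isClosed_iInter fun k => isClosed_le continuous_const (cont_lab k)

theorem isCompact_cpoly (hb : Bornology.IsBounded (poly u c)) (hne : (poly u c).Nonempty) :
    IsCompact (cpoly u c) := by
  obtain ⟨x₀, h₀⟩ := hne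
  obtain ⟨R, hR⟩ := hb.exists_norm_le
  refine Metric.isCompact_of_isClosed_isBounded isClosed_cpoly
    (isBounded_iff_forall_norm_le.2 ⟨3 * R, fun x hx => ?_⟩)
  have h1 : x₀ + (1 / 2 : ℝ) • (x - x₀) ∈ poly u c := fun k => by
    rw [lab_add]
    simp only [PiLp.sub_apply, lab_sub (c := c)]
    linarith [h₀ k, hx k]
  have h2 : x = (2 : ℝ) • (x₀ + (1 / 2 : ℝ) • (x - x₀)) - x₀ := by module
  rw [h2]
  refine (norm_sub_le _ _).trans ?_
  rw [norm_smul, Real.norm_two]
  linarith [hR _ h1, hR _ h₀]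

theorem integrableOn_poly (hb : Bornology.IsBounded (poly u c)) (hne : (poly u c).Nonempty)
    {f : Euc ι → ℝ} (hf : Continuous f) : IntegrableOn f (poly u c) :=
  (hf.continuousOn.integrableOn_compact (isCompact_cpoly hb hne)).mono_set poly_subset

theorem integral_pd_eq_zero {f : Euc ι → ℝ} (hf : ContDiff ℝ ∞ f) (hc : HasCompactSupport f)
    (i : ι) : Integrable (pd i f) ∧ ∫ y, pd i f y = 0 := by
  have hi : Integrable (pd i f) :=
    (cd_pd hf i).continuous.integrable_of_hasCompactSupport (hc.fderiv_apply ℝ _)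
  have := integral_mul_fderiv_eq_neg_fderiv_mul_of_integrable (μ := (volume : Measure (Euc ι)))
    (f := fun _ => (1 : ℝ)) (g := f) (v := EuclideanSpace.single i 1) (by simp)
    (by simp only [one_mul]; exact hi)
    (by simpa using hf.continuous.integrable_of_hasCompactSupport hc)
    (fun _ _ => differentiableAt_const _) (fun _ _ => dAt_of_cd hf _)
  exact ⟨hi, by simpa [pd] using this⟩

theorem deriv_st_ne {s : ℝ} (h : deriv Real.smoothTransition s ≠ 0) : 0 ≤ s ∧ s ≤ 1 := by
  constructor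
  · by_contra hs
    refine h ?_
    rw [EventuallyEq.deriv_eq (f := fun _ => (0 : ℝ)) (mem_of_superset (Iio_mem_nhds (not_le.1 hs))
      fun z hz => Real.smoothTransition.zero_of_nonpos (le_of_lt hz)), deriv_const]
  · by_contra hs
    refine h ?_
    rw [EventuallyEq.deriv_eq (f := fun _ => (1 : ℝ)) (mem_of_superset (Ioi_mem_nhds (not_le.1 hs))
      fun z hz => Real.smoothTransition.one_of_one_le (le_of_lt hz)), deriv_const]

/-- The cut-off function of the polytope. -/
noncomputable def cut (u : F → ι → ℝ) (c : F → ℝ) (t : ℝ) (x : Euc ι) : ℝ :=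
  ∏ k, Real.smoothTransition (t * lab u c k x)

theorem cd_cut (t : ℝ) : ContDiff ℝ ∞ (cut u c t) :=
  contDiff_prod fun k _ => Real.smoothTransition.contDiff.comp (contDiff_const.mul (cd_lab k))

theorem cut_eq_zero {t : ℝ} (ht : 0 < t) {x : Euc ι} (hx : x ∉ poly u c) : cut u c t x = 0 := by
  obtain ⟨k, hk⟩ := not_forall.1 hx
  exact Finset.prod_eq_zero (Finset.mem_univ k) (Real.smoothTransition.zero_of_nonpos
    (mul_nonpos_of_nonneg_of_nonpos ht.le (not_lt.1 hk)))

theorem pd_cut [DecidableEq F] (t : ℝ) (i : ι) (x : Euc ι) : pd i (cut u c t) x =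
    ∑ k, (∏ j ∈ Finset.univ.erase k, Real.smoothTransition (t * lab u c j x)) *
      deriv Real.smoothTransition (t * lab u c k x) * t * u k i := by
  have hd : ∀ s, HasDerivAt Real.smoothTransition (deriv Real.smoothTransition s) s := fun s =>
    ((Real.smoothTransition.contDiff (n := 1)).differentiable (by simp) s).hasDerivAt
  have h1 : ∀ k, HasFDerivAt (fun z => Real.smoothTransition (t * lab u c k z))
      (deriv Real.smoothTransition (t * lab u c k x) • (t • fderiv ℝ (lab u c k) x)) x := fun k =>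
    (hd _).comp_hasFDerivAt x ((dAt_of_cd (cd_lab k) x).hasFDerivAt.const_mul t)
  unfold pd cut
  rw [(HasFDerivAt.finsetProd fun k _ => h1 k).fderiv]
  simp only [sum_apply, smul_apply, smul_eq_mul]
  exact Finset.sum_congr rfl fun k _ => by rw [← pd_lab (u := u) (c := c) k i x, pd]; ring

theorem div_nonneg_strict (hb : Bornology.IsBounded (poly u c)) (hne : (poly u c).Nonempty)
    {V : ι → Euc ι → ℝ} (hV : ∀ i, ContDiff ℝ ∞ (V i))
    (h : ∀ k, ∀ x ∈ cpoly u c, lab u c k x = 0 → ∑ i, u k i * V i x < 0) :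
    0 ≤ ∫ x in poly u c, ∑ i, pd i (V i) x := by
  classical
  have hc := isCompact_cpoly hb hne
  have hdiv : Continuous fun x => ∑ i, pd i (V i) x :=
    continuous_finsetSum _ fun i _ => (cd_pd (hV i) i).continuous
  have h1 : ∀ k, ∀ᶠ t : ℝ in atTop, ∀ x ∈ cpoly u c, t * lab u c k x ≤ 1 →
      ∑ i, u k i * V i x ≤ 0 := fun k => by
    obtain ⟨a, ha, ha'⟩ := (hc.inter_right (isClosed_le (continuous_const (y := (0 : ℝ)))
      (continuous_finsetSum Finset.univ fun i _ =>
        continuous_const.mul (hV i).continuous : Continuous fun x => ∑ i, u k i * V i x))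
      ).exists_forall_le' (cont_lab (u := u) (c := c) k).continuousOn (a := 0) fun x hx =>
        (hx.1 k).lt_of_ne fun e => (h k x hx.1 e.symm).not_ge hx.2
    filter_upwards [eventually_gt_atTop a⁻¹] with t ht x hx hx'
    by_contra hpos
    have h2 := ha' x ⟨hx, (not_le.1 hpos).le⟩
    have h3 : 1 < t * a := by rwa [inv_lt_iff_one_lt_mul₀ ha] at ht
    nlinarith [(inv_pos.2 ha).trans ht]
  have h2 : ∀ᶠ t : ℝ in atTop, 0 ≤ ∫ x in poly u c, cut u c t x * ∑ i, pd i (V i) x := by
    filter_upwards [eventually_all.2 h1, eventually_gt_atTop 0] with t ht ht0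
    have hs : ∀ W : Euc ι → ℝ, HasCompactSupport fun x => cut u c t x * W x := fun W =>
      HasCompactSupport.intro hc fun x hx => by
        rw [cut_eq_zero ht0 fun h => hx (poly_subset h), zero_mul]
    have h3 := fun i => integral_pd_eq_zero ((cd_cut (u := u) (c := c) t).mul (hV i)) (hs _) i
    rw [setIntegral_eq_integral_of_forall_compl_eq_zero fun x hx => by
      rw [cut_eq_zero ht0 hx, zero_mul]]
    have h4 : ∫ x, ∑ i, pd i (fun z => cut u c t z * V i z) x = 0 := by
      rw [integral_finsetSum _ fun i _ => (h3 i).1]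
      exact Finset.sum_eq_zero fun i _ => (h3 i).2
    rw [← h4]
    refine integral_mono (integrable_finsetSum _ fun i _ => (h3 i).1)
      (((cd_cut t).continuous.mul hdiv).integrable_of_hasCompactSupport (hs _)) fun x => ?_
    simp only [fun i => pd_mul (dAt_of_cd (cd_cut (u := u) (c := c) t) x) (dAt_of_cd (hV i) x) i,
      Finset.sum_add_distrib, ← Finset.mul_sum, add_le_iff_nonpos_left, pd_cut, Finset.sum_mul]
    rw [Finset.sum_comm]
    refine Finset.sum_nonpos fun k _ => ?_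
    simp only [mul_assoc _ (u k _), ← Finset.mul_sum]
    by_cases e1 : ∏ j ∈ Finset.univ.erase k, Real.smoothTransition (t * lab u c j x) = 0
    · simp [e1]
    by_cases e2 : deriv Real.smoothTransition (t * lab u c k x) = 0
    · simp [e2]
    refine mul_nonpos_of_nonneg_of_nonpos (mul_nonneg (mul_nonneg
      (Finset.prod_nonneg fun j _ => Real.smoothTransition.nonneg _)
      Real.smoothTransition.monotone.deriv_nonneg) ht0.le) (ht k x (fun j => ?_) (deriv_st_ne e2).2)
    by_cases hj : j = k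
    · exact hj ▸ nonneg_of_mul_nonneg_right (deriv_st_ne e2).1 ht0
    · have := Finset.prod_ne_zero_iff.1 e1 j (by simp [hj])
      rw [Ne, Real.smoothTransition.zero_iff_nonpos, not_le] at this
      exact ((mul_pos_iff_of_pos_left ht0).1 this).le
  refine ge_of_tendsto (tendsto_integral_filter_of_dominated_convergence
    (F := fun t x => cut u c t x * ∑ i, pd i (V i) x) (fun x => ‖∑ i, pd i (V i) x‖)
    (Eventually.of_forall fun t => ((cd_cut t).continuous.mul hdiv).aestronglyMeasurable)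
    (Eventually.of_forall fun t => Eventually.of_forall fun x => ?_)
    (integrableOn_poly hb hne hdiv.norm)
    ((ae_restrict_iff' isOpen_poly.measurableSet).2 (Eventually.of_forall fun x hx => ?_))) h2
  · rw [norm_mul]
    refine mul_le_of_le_one_left (norm_nonneg _) ?_
    rw [cut, Real.norm_of_nonneg (Finset.prod_nonneg fun j _ => Real.smoothTransition.nonneg _)]
    exact Finset.prod_le_one (fun j _ => Real.smoothTransition.nonneg _)
      fun j _ => Real.smoothTransition.le_one _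
  · refine tendsto_const_nhds.congr' ?_
    filter_upwards [eventually_all.2 fun k =>
      (tendsto_id.atTop_mul_const (hx k)).eventually_ge_atTop 1] with t ht
    simp only [id] at ht
    rw [cut, Finset.prod_eq_one fun k _ => Real.smoothTransition.one_of_one_le (ht k), one_mul]

/-- The integral of the divergence of a field that points outward on the facets. -/
theorem div_nonneg (hb : Bornology.IsBounded (poly u c)) (hne : (poly u c).Nonempty)
    {V : ι → Euc ι → ℝ} (hV : ∀ i, ContDiff ℝ ∞ (V i))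
    (h : ∀ k, ∀ x ∈ cpoly u c, lab u c k x = 0 → ∑ i, u k i * V i x ≤ 0) :
    0 ≤ ∫ x in poly u c, ∑ i, pd i (V i) x := by
  obtain ⟨x₀, h₀⟩ := id hne
  have hdiv : Continuous fun x => ∑ i, pd i (V i) x :=
    continuous_finsetSum _ fun i _ => (cd_pd (hV i) i).continuous
  have h1 : ∀ δ : ℝ, 0 < δ → 0 ≤ (∫ x in poly u c, ∑ i, pd i (V i) x) +
      δ * ∫ _ in poly u c, (Fintype.card ι : ℝ) := fun δ hδ => by
    have hW : ∀ i, ContDiff ℝ ∞ fun x : Euc ι => δ * (x i - x₀ i) := fun i =>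
      contDiff_const.mul ((cd_coord i).sub contDiff_const)
    have h2 := div_nonneg_strict hb hne (fun i => (hV i).add (hW i)) fun k x hx e => by
      simp only [mul_add, Finset.sum_add_distrib, mul_left_comm _ δ, ← Finset.mul_sum,
        lab_sub (c := c), e]
      nlinarith [h k x hx e, h₀ k]
    rw [← integral_const_mul, ← integral_add (integrableOn_poly hb hne hdiv)
      (integrableOn_poly hb hne continuous_const)]
    refine h2.trans_eq (integral_congr_ae (Eventually.of_forall fun x => ?_))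
    have h3 : ∀ i, pd i (fun x : Euc ι => δ * (x i - x₀ i)) x = δ := fun i => by
      rw [pd_const_mul (dAt_of_cd ((cd_coord i).sub contDiff_const) x),
        pd_sub (dAt_of_cd (cd_coord i) x) (differentiableAt_const _), pd_proj, pd_const]
      simp
    simp only [fun i => pd_add (dAt_of_cd (hV i) x) (dAt_of_cd (hW i) x) i, h3,
      Finset.sum_add_distrib, Finset.sum_const, Finset.card_univ, nsmul_eq_mul]
    rw [mul_comm δ]
  have h2 : Tendsto (fun δ : ℝ => (∫ x in poly u c, ∑ i, pd i (V i) x) +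
      δ * ∫ _ in poly u c, (Fintype.card ι : ℝ)) (𝓝[>] 0) (𝓝 (_ + 0 * _)) :=
    ((continuous_const.add (continuous_id.mul continuous_const)).tendsto 0).mono_left
      nhdsWithin_le_nhds
  simpa using ge_of_tendsto h2 (mem_of_superset self_mem_nhdsWithin h1)

theorem eventually_lab (T : ℝ) (x d : Euc ι) :
    ∀ᶠ t : ℝ in 𝓝 0, ∀ k, T < lab u c k x → T < lab u c k (x + t • d) := by
  refine eventually_all.2 fun k => ?_
  by_cases h : T < lab u c k x
  · have h1 : ContinuousAt (fun t : ℝ => lab u c k (x + t • d)) 0 :=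
      ((cont_lab k).comp (continuous_const.add (continuous_id.smul continuous_const))).continuousAt
    exact (h1.eventually (lt_mem_nhds (by simpa using h))).mono fun _ ht _ => ht
  · exact Eventually.of_forall fun _ h' => (h h').elim

theorem fderiv_facet {w : Euc ι → ℝ} (hw : ContDiff ℝ ∞ w) {k : F}
    (h0 : ∀ y ∈ cpoly u c, lab u c k y = 0 → w y = 0) {x y : Euc ι} (hx : x ∈ cpoly u c)
    (ex : lab u c k x = 0) (hy : y ∈ cpoly u c) (ey : lab u c k y = 0) :
    fderiv ℝ w x (y - x) = 0 := by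
  have h1 : HasDerivAt (fun s : ℝ => w (x + s • (y - x))) (fderiv ℝ w x (y - x)) 0 := by
    have h2 : HasDerivAt (fun s : ℝ => x + s • (y - x)) (y - x) 0 := by
      simpa using ((hasDerivAt_id (0 : ℝ)).smul_const (y - x)).const_add x
    exact HasFDerivAt.comp_hasDerivAt_of_eq 0 (dAt_of_cd hw x).hasFDerivAt h2 (by simp)
  have h3 : ∀ s ∈ Icc (0 : ℝ) 1, w (x + s • (y - x)) = 0 := fun s hs => by
    refine h0 _ (fun j => ?_) ?_
    · rw [lab_add]
      simp only [PiLp.sub_apply, lab_sub (c := c)]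
      nlinarith [hx j, hy j, hs.1, hs.2]
    · rw [lab_add]
      simp only [PiLp.sub_apply, lab_sub (c := c), ex, ey]
      ring
  exact (uniqueDiffOn_Icc zero_lt_one 0 ⟨le_rfl, zero_le_one⟩).eq_deriv _ h1.hasDerivWithinAt
    ((hasDerivWithinAt_const 0 _ 0).congr h3 (h3 0 ⟨le_rfl, zero_le_one⟩))

/-- The boundary conditions give `Δ ℓₖ = 2` on the facet `k`. -/
theorem Labelled.div_facet {H : Euc ι → Matrix ι ι ℝ} (L : Labelled u c H) {k : F} {x : Euc ι}
    (hx : x ∈ cpoly u c) (ex : lab u c k x = 0) :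
    ∑ i, u k i * ∑ j, pd j (fun z => H z j i) x = 2 := by
  obtain ⟨q, eq, hq⟩ := L.facet k
  obtain ⟨x₀, h₀⟩ := L.nonempty
  set w : ι → Euc ι → ℝ := fun j z => ∑ i, u k i * H z j i with hw
  have hws : ∀ j, ContDiff ℝ ∞ (w j) := fun j =>
    ContDiff.sum fun i _ => contDiff_const.mul (L.smooth j i)
  have hw0 : ∀ j, ∀ y ∈ cpoly u c, lab u c k y = 0 → w j y = 0 := fun j y hy ey => by
    have := congrFun (L.kernel k y hy ey) j
    simpa only [hw, Matrix.mulVec, dotProduct, mul_comm, Pi.zero_apply] using this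
  have h1 : ∀ j (z : Euc ι), ∑ i, u k i * z i = 0 → fderiv ℝ (w j) x z = 0 := fun j z hz => by
    obtain ⟨t, ht, ht0⟩ := (((eventually_lab (u := u) (c := c) 0 q z).filter_mono
      (nhdsWithin_le_nhds (s := Ioi 0))).and self_mem_nhdsWithin).exists
    have hm : ∀ s : ℝ, (∀ i, 0 < lab u c i q → 0 < lab u c i (q + s • z)) →
        fderiv ℝ (w j) x (q + s • z - x) = 0 := fun s hs => by
      have e : lab u c k (q + s • z) = 0 := by rw [lab_add, eq, hz]; ring
      refine fderiv_facet (hws j) (hw0 j) hx ex (fun i => ?_) e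
      by_cases hi : i = k
      · exact hi ▸ e.ge
      · exact (hs i (hq i hi)).le
    have a1 := hm t ht
    have a2 := hm 0 (by simp)
    rw [add_sub_right_comm, map_add, map_smul] at a1 a2
    rw [zero_smul, add_zero] at a2
    rw [a2, zero_add, smul_eq_mul] at a1
    exact (mul_eq_zero.1 a1).resolve_left (ne_of_gt ht0)
  set N := ∑ i, u k i * u k i with hN
  have hN0 : N ≠ 0 := fun h => by
    have h2 := (Finset.sum_eq_zero_iff_of_nonneg fun i _ => mul_self_nonneg (u k i)).1 h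
    have h3 := lab_sub (u := u) (c := c) k x₀ x
    rw [Finset.sum_eq_zero fun i hi => by rw [mul_self_eq_zero.1 (h2 i hi), zero_mul]] at h3
    linarith [h₀ k]
  have h2 : ∀ j, N * pd j (w j) x = u k j * ∑ i, u k i * pd i (w j) x := fun j => by
    have := h1 j (N • EuclideanSpace.single j 1 - u k j • WithLp.toLp 2 (u k)) (by
      simp only [PiLp.sub_apply, PiLp.smul_apply, smul_eq_mul, mul_sub, Finset.sum_sub_distrib,
        mul_left_comm _ (u k j), ← Finset.mul_sum, ← hN]
      simp [mul_comm])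
    rw [map_sub, map_smul, map_smul, fderiv_apply_eq _ _ (WithLp.toLp 2 (u k)), sub_eq_zero] at this
    exact this
  have h3 : ∀ i, ∑ j, u k j * pd i (w j) x = 2 * u k i := fun i => by
    rw [← L.slope k x hx ex i]
    have : (fun z => u k ⬝ᵥ H z *ᵥ u k) = fun z => ∑ j, u k j * w j z := by
      funext z
      simp only [hw, Matrix.mulVec, dotProduct, mul_comm]
    rw [this, pd_sum fun j _ => (dAt_of_cd (hws j) x).const_mul _]
    simp only [fun j => pd_const_mul (dAt_of_cd (hws j) x) (u k j) i]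
  have h4 : ∑ i, u k i * ∑ j, pd j (fun z => H z j i) x = ∑ j, pd j (w j) x := by
    simp only [Finset.mul_sum]
    rw [Finset.sum_comm]
    refine Finset.sum_congr rfl fun j _ => ?_
    rw [pd_sum fun i _ => (dAt_of_cd (L.smooth j i) x).const_mul _]
    simp only [fun i => pd_const_mul (dAt_of_cd (L.smooth j i) x) (u k i) j]
  refine mul_left_cancel₀ hN0 ?_
  rw [h4, Finset.mul_sum]
  simp only [h2, Finset.mul_sum]
  rw [Finset.sum_comm]
  rw [hN, Finset.sum_mul]
  refine Finset.sum_congr rfl fun i _ => ?_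
  rw [Finset.sum_congr rfl fun j _ => mul_left_comm (u k j) (u k i) _, ← Finset.mul_sum, h3]
  ring

/-- A deepest point of the polytope at which the active normals surround the origin. -/
theorem exists_center [Nonempty ι] (hb : Bornology.IsBounded (poly u c))
    (hne : (poly u c).Nonempty) : ∃ (x₀ : Euc ι) (T : ℝ), 0 < T ∧ (∀ k, T ≤ lab u c k x₀) ∧
      (∀ z : ι → ℝ, (∀ k, lab u c k x₀ = T → u k ⬝ᵥ z = 0) → z = 0) ∧
      ∀ d : ι → ℝ, ¬∀ k, lab u c k x₀ = T → 0 < u k ⬝ᵥ d := by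
  have hc := isCompact_cpoly hb hne
  have hF : (Finset.univ : Finset F).Nonempty := by
    by_contra h
    have : IsEmpty F := not_nonempty_iff.1 fun h' => h (Finset.univ_nonempty_iff.2 h')
    have h2 : poly u c = univ := eq_univ_of_forall fun x k => isEmptyElim k
    exact NormedSpace.unbounded_univ ℝ (Euc ι) (h2 ▸ hb)
  obtain ⟨x₂, h₂⟩ := id hne
  obtain ⟨x₁, h₁, hm⟩ := hc.exists_isMaxOn (hne.mono poly_subset)
    (Continuous.finset_inf'_apply hF fun k _ => cont_lab (u := u) (c := c) k).continuousOn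
  set T := Finset.univ.inf' hF fun k => lab u c k x₁ with hT
  have hT0 : 0 < T :=
    ((Finset.lt_inf'_iff hF).2 fun k _ => h₂ k).trans_le (hm (poly_subset h₂))
  have hcl : IsClosed {x : Euc ι | ∀ k, T ≤ lab u c k x} := by
    rw [ofPred_forall]
    exact isClosed_iInter fun k => isClosed_le continuous_const (cont_lab k)
  obtain ⟨x₀, h₀, hn⟩ := (hc.of_isClosed_subset hcl fun x hx k => hT0.le.trans (hx k)).exists_isMaxOn
    ⟨x₁, fun k => Finset.inf'_le _ (Finset.mem_univ k)⟩ continuous_norm.continuousOn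
  refine ⟨x₀, T, hT0, h₀, fun z hz => ?_, fun d hd => ?_⟩
  · have h1 := eventually_lab (u := u) (c := c) T x₀ (WithLp.toLp 2 z)
    have h2 := eventually_lab (u := u) (c := c) T x₀ (-WithLp.toLp 2 z)
    obtain ⟨t, ⟨a1, a2⟩, ht0⟩ := (((h1.and h2).filter_mono
      (nhdsWithin_le_nhds (s := Ioi 0))).and self_mem_nhdsWithin).exists
    have b1 := hn (a := x₀ + t • WithLp.toLp 2 z) fun k => by
      rcases (h₀ k).eq_or_lt with e | e
      · rw [lab_add, show ∑ i, u k i * (WithLp.toLp 2 z : Euc ι) i = 0 from hz k e.symm]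
        simpa using e.le
      · exact (a1 k e).le
    have b2 := hn (a := x₀ + t • -WithLp.toLp 2 z) fun k => by
      rcases (h₀ k).eq_or_lt with e | e
      · have : ∑ i, u k i * (-WithLp.toLp 2 z : Euc ι) i = 0 := by
          simp only [PiLp.neg_apply, mul_neg, Finset.sum_neg_distrib, neg_eq_zero]
          exact hz k e.symm
        rw [lab_add, this]
        simpa using e.le
      · exact (a2 k e).le
    have b3 := parallelogram_law_with_norm ℝ x₀ (t • WithLp.toLp 2 z)
    rw [smul_neg, ← sub_eq_add_neg] at b2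
    have b4 : ‖t • (WithLp.toLp 2 z : Euc ι)‖ = 0 := by
      have c1 := mul_self_le_mul_self (norm_nonneg _) b1
      have c2 := mul_self_le_mul_self (norm_nonneg _) b2
      nlinarith [norm_nonneg (t • (WithLp.toLp 2 z : Euc ι))]
    simpa [(ne_of_gt ht0)] using b4
  · obtain ⟨t, a1, ht0⟩ := (((eventually_lab (u := u) (c := c) T x₀ (WithLp.toLp 2 d)).filter_mono
      (nhdsWithin_le_nhds (s := Ioi 0))).and self_mem_nhdsWithin).exists
    have b1 : ∀ k, T < lab u c k (x₀ + t • WithLp.toLp 2 d) := fun k => by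
      rcases (h₀ k).eq_or_lt with e | e
      · rw [lab_add, ← e]
        exact lt_add_of_pos_right _ (mul_pos ht0 (hd k e.symm))
      · exact a1 k e
    exact ((Finset.lt_inf'_iff hF).2 fun k _ => b1 k).not_ge
      (hm fun k => (hT0.trans (b1 k)).le)

theorem exists_basis {α : Type} [Fintype α] [DecidableEq α] (w : F → α → ℝ) (S : F → Prop)
    (h : ∀ z : α → ℝ, (∀ k, S k → w k ⬝ᵥ z = 0) → z = 0) :
    ∃ b : α → F, (∀ i, S (b i)) ∧ (Matrix.of fun i => w (b i)).det ≠ 0 := by
  have h1 : Submodule.span ℝ (range fun k : {k // S k} => w k) = ⊤ := by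
    by_contra hne
    obtain ⟨f, hf, hk⟩ := Submodule.exists_le_ker_of_lt_top _ (lt_top_iff_ne_top.2 hne)
    have e : ∀ v : α → ℝ, f v = v ⬝ᵥ fun j => f (Pi.single j 1) := fun v => by
      rw [LinearMap.pi_apply_eq_sum_univ]
      refine Finset.sum_congr rfl fun j _ => ?_
      rw [smul_eq_mul]
      congr 2
      funext i
      simp [Pi.single_apply, eq_comm]
    have := h _ fun k hk' => (e (w k)).symm.trans (hk (Submodule.subset_span ⟨⟨k, hk'⟩, rfl⟩))
    exact hf (LinearMap.ext fun v => by rw [e, this]; simp)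
  obtain ⟨κ, a, ha, hsp, hli⟩ := exists_linearIndependent' ℝ fun k : {k // S k} => w k
  have : Fintype κ := @Fintype.ofFinite _ (Finite.of_injective a ha)
  have hcard : Fintype.card α = Fintype.card κ := by
    rw [← Module.finrank_eq_card_basis (Module.Basis.mk hli (hsp.trans h1).ge),
      Module.finrank_fintype_fun_eq_card]
  refine ⟨fun i => a (Fintype.equivOfCardEq hcard i), fun i => (a _).2, ?_⟩
  exact ((Matrix.isUnit_iff_isUnit_det _).1 (Matrix.linearIndependent_rows_iff_isUnit.1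
    (hli.comp _ (Fintype.equivOfCardEq hcard).injective))).ne_zero

end Pool.Agent.MP_c98b3a_gt

end MrgPart2

-- ======== part 3: formerly Pool.Agent.MP_c98b3a_gt.Master
section MrgPart3

/-! The entropy estimate for the test functions `ξ · x + log s`. -/

open scoped Manifold ContDiff Topology Matrix
open Set Filter MeasureTheory

set_option linter.unusedSectionVars false

namespace Pool.Agent.MP_c98b3a_gt

universe u

variable {ι κ F : Type} [Fintype ι] [DecidableEq ι] [Fintype κ] [DecidableEq κ] [Fintype F]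

/-- The domain of action-angle coordinates. -/
def box (κ : Type) (P : Set (Euc ι)) : Set (Euc (ι ⊕ κ)) :=
  {y | base y ∈ P ∧ ∀ a, y (Sum.inr a) ∈ Set.Ioo 0 (2 * Real.pi)}

theorem integral_box (P : Set (Euc ι)) (f : Euc ι → ℝ) :
    ∫ y in box κ P, f (base y) = (2 * Real.pi) ^ Fintype.card κ * ∫ x in P, f x := by
  let φ : Euc (ι ⊕ κ) ≃ᵐ Euc ι × (κ → ℝ) := (MeasurableEquiv.toLp 2 (ι ⊕ κ → ℝ)).symm.trans
    ((MeasurableEquiv.sumPiEquivProdPi fun _ => ℝ).trans
      ((MeasurableEquiv.toLp 2 (ι → ℝ)).prodCongr (MeasurableEquiv.refl _)))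
  have hφ : MeasurePreserving φ :=
    ((PiLp.volume_preserving_toLp ι).prod (MeasurePreserving.id volume)).comp
      ((volume_measurePreserving_sumPiEquivProdPi fun _ => ℝ).comp
        (PiLp.volume_preserving_ofLp (ι ⊕ κ)))
  have h1 := hφ.setIntegral_preimage_emb φ.measurableEmbedding (fun p => f p.1 * (1 : ℝ))
    (P ×ˢ univ.pi fun _ => Ioo 0 (2 * Real.pi))
  have h2 : box κ P = φ ⁻¹' (P ×ˢ univ.pi fun _ => Ioo 0 (2 * Real.pi)) := by
    ext y
    exact ⟨fun h => ⟨h.1, fun a _ => h.2 a⟩, fun h => ⟨h.1, fun a => h.2 a trivial⟩⟩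
  rw [Measure.volume_eq_prod, setIntegral_prod_mul f fun _ => (1 : ℝ), ← h2] at h1
  simp only [mul_one] at h1
  refine h1.trans ?_
  rw [mul_comm, setIntegral_const, smul_eq_mul, mul_one, Measure.real,
    Real.volume_pi_Ioo_toReal fun _ => Real.two_pi_pos.le]
  simp

/-- The linear part of the test function. -/
noncomputable def lin (ξ : ι → ℝ) (x₀ x : Euc ι) : ℝ := ∑ i, ξ i * (x i - x₀ i)

theorem cd_lin (ξ : ι → ℝ) (x₀ : Euc ι) : ContDiff ℝ ∞ (lin ξ x₀) :=
  ContDiff.sum fun i _ => contDiff_const.mul ((cd_coord i).sub contDiff_const)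

theorem pd_coord_sub (x₀ x : Euc ι) (i j : ι) :
    pd i (fun z => z j - x₀ j) x = if j = i then 1 else 0 := by
  rw [pd_sub (dAt_of_cd (cd_coord j) x) (differentiableAt_const _), pd_proj, pd_const, sub_zero]

theorem pd_lin' (ξ : ι → ℝ) (x₀ x : Euc ι) (i : ι) : pd i (lin ξ x₀) x = ξ i := by
  unfold lin
  rw [pd_sum fun j _ => (dAt_of_cd ((cd_coord j).sub contDiff_const) x).const_mul _]
  simp only [fun j => pd_const_mul (dAt_of_cd ((cd_coord j).sub
    (contDiff_const (c := x₀ j))) x) (ξ j) i, pd_coord_sub]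
  simp

/-- The exponential weight. -/
noncomputable def wt (ξ : ι → ℝ) (x₀ x : Euc ι) : ℝ := Real.exp (-lin ξ x₀ x)

theorem cd_wt (ξ : ι → ℝ) (x₀ : Euc ι) : ContDiff ℝ ∞ (wt ξ x₀) := (cd_lin ξ x₀).neg.exp

theorem pd_wt (ξ : ι → ℝ) (x₀ x : Euc ι) (i : ι) : pd i (wt ξ x₀) x = -(ξ i * wt ξ x₀ x) := by
  unfold wt
  rw [pd_exp (dAt_of_cd (cd_lin ξ x₀).neg x), pd_neg, pd_lin']
  ring

/-- The flux of the weighted scalar curvature. -/
noncomputable def flux (H : Euc ι → Matrix ι ι ℝ) (σ : Euc ι → ℝ) (ξ : ι → ℝ) (x₀ : Euc ι) (k : ι)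
    (z : Euc ι) : ℝ := (fld H σ k z + ∑ l, ξ l * H z l k) * wt ξ x₀ z

variable {u : F → ι → ℝ} {c : F → ℝ} {H : Euc ι → Matrix ι ι ℝ} (L : Labelled u c H)
  {σ : Euc ι → ℝ} (hσ : ContDiff ℝ ∞ σ) (ξ : ι → ℝ) (x₀ : Euc ι)
include L

theorem Labelled.wt_pos : 0 < ∫ x in poly u c, wt ξ x₀ x := by
  rw [setIntegral_pos_iff_support_of_nonneg_ae (f := wt ξ x₀)
    (Eventually.of_forall fun x => (Real.exp_pos _).le)
    (integrableOn_poly L.bounded L.nonempty (cd_wt ξ x₀).continuous)]
  refine (isOpen_poly.measure_pos volume L.nonempty).trans_le (measure_mono fun x hx => ⟨?_, hx⟩)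
  exact (Real.exp_pos _).ne'

include hσ

theorem Labelled.cd_fld (k : ι) : ContDiff ℝ ∞ (fld H σ k) :=
  (ContDiff.sum fun j _ => cd_pd (L.smooth j k) j).add
    (contDiff_const.mul (ContDiff.sum fun l _ => (cd_pd hσ l).mul (L.smooth l k)))

theorem Labelled.cd_flux (k : ι) : ContDiff ℝ ∞ (flux H σ ξ x₀ k) :=
  ((L.cd_fld hσ k).add (ContDiff.sum fun l _ => contDiff_const.mul (L.smooth l k))).mul (cd_wt ξ x₀)

theorem Labelled.div_flux {x : Euc ι} (hx : x ∈ poly u c) : ∑ k, pd k (flux H σ ξ x₀ k) x =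
    (∑ k, pd k (fld H σ k) x + ∑ l, ∑ k, pd l σ x * H x l k * pd k σ x -
      ∑ i, ∑ j, H x i j * (ξ i + pd i σ x) * (ξ j + pd j σ x)) * wt ξ x₀ x := by
  have h1 : ∀ k, pd k (flux H σ ξ x₀ k) x = (pd k (fld H σ k) x +
      ∑ l, ξ l * pd k (fun z => H z k l) x - ξ k * (fld H σ k x + ∑ l, ξ l * H x l k)) *
        wt ξ x₀ x := fun k => by
    unfold flux
    have hd : ∀ l, DifferentiableAt ℝ (fun z => H z l k) x := fun l => dAt_of_cd (L.smooth l k) x
    rw [pd_mul ((dAt_of_cd (L.cd_fld hσ k) x).fun_add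
      (DifferentiableAt.fun_sum fun l _ => (hd l).const_mul _)) (dAt_of_cd (cd_wt ξ x₀) x),
      pd_add (dAt_of_cd (L.cd_fld hσ k) x)
        (DifferentiableAt.fun_sum fun l _ => (hd l).const_mul _),
      pd_sum fun l _ => (hd l).const_mul _, pd_wt]
    simp only [fun l => pd_const_mul (hd l) (ξ l) k, fun l => pd_congr_on isOpen_poly
      (fun z hz => posDef_symm (L.posDef z hz) l k) k hx]
    ring
  have h2 : ∑ k, ∑ l, ξ l * pd k (fun z => H z k l) x =
      ∑ k, ξ k * ∑ j, pd j (fun z => H z j k) x := by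
    rw [Finset.sum_comm]; simp only [Finset.mul_sum]
  have h3 : ∑ i, ∑ j, H x i j * (ξ i + pd i σ x) * (ξ j + pd j σ x) =
      ∑ l, ∑ k, pd l σ x * H x l k * pd k σ x + ∑ k, ξ k * (2 * ∑ l, pd l σ x * H x l k) +
        ∑ k, ξ k * ∑ l, ξ l * H x l k := by
    have e1 : ∑ k, ξ k * ∑ l, pd l σ x * H x l k = ∑ i, ∑ j, H x i j * pd i σ x * ξ j := by
      rw [Finset.sum_comm]
      simp only [Finset.mul_sum]
      exact Finset.sum_congr rfl fun _ _ => Finset.sum_congr rfl fun _ _ => by ring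
    have e2 : ∑ k, ξ k * ∑ l, pd l σ x * H x l k = ∑ i, ∑ j, H x i j * ξ i * pd j σ x := by
      simp only [Finset.mul_sum]
      exact Finset.sum_congr rfl fun i _ => Finset.sum_congr rfl fun j _ => by
        rw [posDef_symm (L.posDef x hx) j i]; ring
    have e3 : ∑ k, ξ k * ∑ l, ξ l * H x l k = ∑ i, ∑ j, H x i j * ξ i * ξ j := by
      rw [Finset.sum_comm]
      simp only [Finset.mul_sum]
      exact Finset.sum_congr rfl fun _ _ => Finset.sum_congr rfl fun _ _ => by ring
    have e4 : ∑ l, ∑ k, pd l σ x * H x l k * pd k σ x = ∑ i, ∑ j, H x i j * pd i σ x * pd j σ x :=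
      Finset.sum_congr rfl fun _ _ => Finset.sum_congr rfl fun _ _ => by ring
    simp only [two_mul, mul_add, add_mul, Finset.sum_add_distrib]
    nth_rewrite 1 [e1]
    rw [e2, e3, e4]
    ring
  simp only [h1, ← Finset.sum_mul]
  congr 1
  rw [h3]
  simp only [fld, Finset.sum_sub_distrib, Finset.sum_add_distrib, h2, mul_add]
  ring

theorem Labelled.flux_bound {T : ℝ} (h₀ : ∀ k, T ≤ lab u c k x₀) :
    0 ≤ 2 * (Fintype.card ι * (∫ x in poly u c, wt ξ x₀ x) -
      ∫ x in poly u c, lin ξ x₀ x * wt ξ x₀ x) +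
      T * ∫ x in poly u c, ∑ k, pd k (flux H σ ξ x₀ k) x := by
  have hA : ∀ k, ContDiff ℝ ∞ fun z : Euc ι => (z k - x₀ k) * wt ξ x₀ z := fun k =>
    ((cd_coord k).sub contDiff_const).mul (cd_wt ξ x₀)
  have h1 := div_nonneg L.bounded L.nonempty
    (V := fun k z => 2 * ((z k - x₀ k) * wt ξ x₀ z) + T * flux H σ ξ x₀ k z)
    (fun k => (contDiff_const.mul (hA k)).add (contDiff_const.mul (L.cd_flux hσ ξ x₀ k)))
    fun k x hx ex => by
      have a1 : ∀ v : ι → ℝ, ∑ i, u k i * ∑ l, v l * H x l i = 0 := fun v => by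
        have : ∑ i, u k i * ∑ l, v l * H x l i = v ⬝ᵥ H x *ᵥ u k := by
          simp only [dotProduct, Matrix.mulVec, Finset.mul_sum]
          rw [Finset.sum_comm]
          exact Finset.sum_congr rfl fun _ _ => Finset.sum_congr rfl fun _ _ => by ring
        rw [this, L.kernel k x hx ex, dotProduct_zero]
      have a2 : ∑ i, u k i * (2 * ((x i - x₀ i) * wt ξ x₀ x) + T * flux H σ ξ x₀ i x) =
          (2 * ∑ i, u k i * (x i - x₀ i) + T * (∑ i, u k i * ∑ j, pd j (fun z => H z j i) x +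
            2 * ∑ i, u k i * ∑ l, pd l σ x * H x l i + ∑ i, u k i * ∑ l, ξ l * H x l i)) *
            wt ξ x₀ x := by
        rw [Finset.mul_sum Finset.univ _ (2 : ℝ), Finset.mul_sum Finset.univ _ (2 : ℝ),
          ← Finset.sum_add_distrib, ← Finset.sum_add_distrib, Finset.mul_sum Finset.univ _ T,
          ← Finset.sum_add_distrib, Finset.sum_mul]
        refine Finset.sum_congr rfl fun i _ => ?_
        simp only [flux, fld]
        ring
      rw [a2, a1, a1, L.div_facet hx ex, lab_sub (c := c), ex]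
      exact mul_nonpos_of_nonpos_of_nonneg (by linarith [h₀ k]) (Real.exp_pos _).le
  have i1 := integrableOn_poly L.bounded L.nonempty (cd_wt ξ x₀).continuous
  have i2 := integrableOn_poly L.bounded L.nonempty
    ((cd_lin ξ x₀).mul (cd_wt ξ x₀)).continuous
  have i3 := integrableOn_poly L.bounded L.nonempty (continuous_finsetSum Finset.univ
    fun k _ => (cd_pd (L.cd_flux hσ ξ x₀ k) k).continuous)
  have i4 : IntegrableOn (fun x => 2 * (Fintype.card ι * wt ξ x₀ x - lin ξ x₀ x * wt ξ x₀ x))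
      (poly u c) := ((i1.const_mul _).sub i2).const_mul _
  rw [← integral_const_mul, ← integral_sub (i1.const_mul _) i2, ← integral_const_mul,
    ← integral_const_mul, ← integral_add i4 (i3.const_mul _)]
  refine h1.trans_eq (integral_congr_ae (Eventually.of_forall fun x => ?_))
  have h2 : ∀ k, pd k (fun z => 2 * ((z k - x₀ k) * wt ξ x₀ z) + T * flux H σ ξ x₀ k z) x =
      2 * (wt ξ x₀ x - ξ k * (x k - x₀ k) * wt ξ x₀ x) + T * pd k (flux H σ ξ x₀ k) x := fun k => by
    rw [pd_add ((dAt_of_cd (hA k) x).const_mul _) ((dAt_of_cd (L.cd_flux hσ ξ x₀ k) x).const_mul _),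
      pd_const_mul (dAt_of_cd (hA k) x), pd_const_mul (dAt_of_cd (L.cd_flux hσ ξ x₀ k) x),
      pd_mul (dAt_of_cd ((cd_coord k).sub contDiff_const) x) (dAt_of_cd (cd_wt ξ x₀) x),
      pd_coord_sub, pd_wt, if_pos rfl]
    ring
  simp only [h2, Finset.sum_add_distrib, ← Finset.mul_sum, Finset.sum_sub_distrib,
    ← Finset.sum_mul, Finset.sum_const, Finset.card_univ, nsmul_eq_mul, lin]

omit L hσ

variable {M : Type u} [TopologicalSpace M] [T2Space M] [CompactSpace M]
  [ChartedSpace (Euc (ι ⊕ κ)) M] [IsManifold 𝓘(ℝ, Euc (ι ⊕ κ)) ∞ M] [MeasurableSpace M]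
  [BorelSpace M] {g : Metrics 𝓘(ℝ, Euc (ι ⊕ κ)) M} {e : OpenPartialHomeomorph M (Euc (ι ⊕ κ))}
  {μ : M → Euc ι}

theorem integral_push {P : Set (Euc ι)} (he : IsChart e) (ht : e.target = box κ P)
    (h0 : vol g e.sourceᶜ = 0) (hμ : Continuous μ) (hb : ∀ p ∈ e.source, μ p = base (e p))
    {s : Euc ι → ℝ} (hs : ∀ y ∈ e.target, Real.sqrt (gmat g e y).det = s (base y))
    {Ψ : Euc ι → ℝ} (hΨ : Continuous Ψ) :
    ∫ p, Ψ (μ p) ∂vol g = (2 * Real.pi) ^ Fintype.card κ * ∫ x in P, Ψ x * s x := by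
  rw [← integral_box, ← ht, ← Measure.restrict_eq_self_of_ae_mem (μ := vol g) (s := e.source) h0,
    setIntegral_chart g he (f := fun p => Ψ (μ p)) (hΨ.comp hμ).measurable]
  refine setIntegral_congr_fun e.open_target.measurableSet fun y hy => ?_
  simp only [hb _ (e.map_target hy), e.right_inv hy, hs y hy]

include L in
/-- The entropy estimate. -/
theorem master (he : IsChart e) (ht : e.target = box κ (poly u c)) (h0 : vol g e.sourceᶜ = 0)
    (hμ : ContMDiff 𝓘(ℝ, Euc (ι ⊕ κ)) 𝓘(ℝ, Euc ι) ∞ μ) (hb : ∀ p ∈ e.source, μ p = base (e p))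
    {s q : Euc ι → ℝ} (hs : ContDiff ℝ ∞ s) (hs0 : ∀ x, 0 < s x)
    (loc : Loc (gmat g e) e.target H s q) {T τ B : ℝ} (hT : 0 < T) (h₀ : ∀ k, T ≤ lab u c k x₀)
    (hτ : 0 < τ) (hB : ∀ x, Real.log (s x) - τ * q x ≤ B) :
    entNu g ≤ ((2 * τ * Fintype.card ι / T + (1 - 2 * τ / T) *
      ((∫ x in poly u c, lin ξ x₀ x * wt ξ x₀ x) / ∫ x in poly u c, wt ξ x₀ x) + B +
      Real.log ((2 * Real.pi) ^ Fintype.card κ * ∫ x in poly u c, wt ξ x₀ x) -
      (Fintype.card (ι ⊕ κ) : ℝ) / 2 * Real.log (4 * Real.pi * τ) - Fintype.card (ι ⊕ κ) : ℝ) :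
        EReal) := by
  set J := ∫ x in poly u c, wt ξ x₀ x with hJ
  set Y := ∫ x in poly u c, lin ξ x₀ x * wt ξ x₀ x with hY
  set m : ℝ := (Fintype.card (ι ⊕ κ) : ℝ) with hm
  set N : ℝ := (2 * Real.pi) ^ Fintype.card κ with hN
  have hJ0 : 0 < J := L.wt_pos ξ x₀
  have hN0 : 0 < N := pow_pos Real.two_pi_pos _
  have hσ : ContDiff ℝ ∞ fun z => Real.log (s z) := hs.log fun x => (hs0 x).ne'
  set C := Real.log (N * J) - m / 2 * Real.log (4 * Real.pi * τ) with hC
  set f : Euc ι → ℝ := fun x => lin ξ x₀ x + Real.log (s x) + C with hf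
  have hfs : ContDiff ℝ ∞ f := ((cd_lin ξ x₀).add hσ).add contDiff_const
  have hfm : ContMDiff 𝓘(ℝ, Euc (ι ⊕ κ)) 𝓘(ℝ, ℝ) ∞ fun p => f (μ p) := hfs.contMDiff.comp hμ
  have h4 : 0 < 4 * Real.pi * τ := by positivity
  have hd : ∀ x, (4 * Real.pi * τ) ^ (-m / 2) * Real.exp (-f x) =
      wt ξ x₀ x * (s x)⁻¹ * (N * J)⁻¹ := fun x => by
    rw [Real.rpow_def_of_pos h4, ← Real.exp_log (inv_pos.2 (hs0 x)),
      ← Real.exp_log (inv_pos.2 (mul_pos hN0 hJ0)), wt, ← Real.exp_add, ← Real.exp_add,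
      ← Real.exp_add, Real.log_inv, Real.log_inv]
    congr 1
    simp only [hf, hC]
    ring
  have hsi : Continuous fun x => (s x)⁻¹ := hs.continuous.inv₀ fun x => (hs0 x).ne'
  have push := fun Ψ hΨ => integral_push (Ψ := Ψ) he ht h0 hμ.continuous hb loc.dens hΨ
  refine iInf₂_le_of_le τ hτ (iInf_le_of_le (fun p => f (μ p)) (iInf_le_of_le hfm
    (iInf_le_of_le ?_ (EReal.coe_le_coe_iff.2 ?_))))
  · simp only [← hm, hd]
    rw [push (fun x => wt ξ x₀ x * (s x)⁻¹ * (N * J)⁻¹)
      (((cd_wt ξ x₀).continuous.mul hsi).mul continuous_const)]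
    have : ∀ x, wt ξ x₀ x * (s x)⁻¹ * (N * J)⁻¹ * s x = wt ξ x₀ x * (N * J)⁻¹ := fun x => by
      have := (hs0 x).ne'
      field_simp
    simp only [this, integral_mul_const, ← hJ, ← hN]
    field_simp
  · set D : Euc ι → ℝ := fun x => ∑ k, pd k (flux H (fun z => Real.log (s z)) ξ x₀ k) x with hD
    have hDc : Continuous D :=
      continuous_finsetSum Finset.univ fun k _ => (cd_pd (L.cd_flux hσ ξ x₀ k) k).continuous
    set Ψ : Euc ι → ℝ := fun x => (-τ * D x + lin ξ x₀ x * wt ξ x₀ x + (B + C - m) * wt ξ x₀ x) *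
      (s x)⁻¹ * (N * J)⁻¹ with hΨ
    have c1 := ((cd_lin ξ x₀).mul (cd_wt ξ x₀)).continuous
    have hΨc : Continuous Ψ := ((((continuous_const.mul hDc).add c1).add
      (continuous_const.mul (cd_wt ξ x₀).continuous)).mul hsi).mul continuous_const
    have h1 : entW g (fun p => f (μ p)) τ ≤ ∫ p, Ψ (μ p) ∂vol g := by
      refine integral_mono_ae (integrable_vol g ?_) (integrable_vol g (hΨc.comp hμ.continuous)) ?_
      · exact (((continuous_const.mul ((continuous_scalM g).add (continuous_gradSqM g hfm))).add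
          hfm.continuous).sub continuous_const).mul
          (continuous_const.mul hfm.continuous.neg.rexp)
      · filter_upwards [show ∀ᵐ p ∂vol g, p ∈ e.source from h0] with p hp
        have hy := e.map_source hp
        have hx : base (e p) ∈ poly u c := (ht ▸ hy : e p ∈ box κ (poly u c)).1
        have a1 := scalM_chart g he hy
        have a2 := gradSqM_chart g he hfm hy
        rw [e.left_inv hp] at a1 a2
        have a3 := loc.grad f hfs ((fun p => f (μ p)) ∘ e.symm) (fun y hy => by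
          simp only [Function.comp, hb _ (e.map_target hy), e.right_inv hy]) _ hy
        have a4 := loc.scal _ hy
        have a5 : ∀ i x, pd i f x = ξ i + pd i (fun z => Real.log (s z)) x := fun i x => by
          rw [hf, pd_add (dAt_of_cd ((cd_lin ξ x₀).add hσ) x) (differentiableAt_const _),
            pd_add (dAt_of_cd (cd_lin ξ x₀) x) (dAt_of_cd hσ x), pd_lin', pd_const, add_zero]
        have a6 := L.div_flux hσ ξ x₀ hx
        simp only [a5] at a3
        rw [← hm, hd, a1, a2, a3, hb p hp, hΨ, ← mul_assoc, ← mul_assoc]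
        refine mul_le_mul_of_nonneg_right (mul_le_mul_of_nonneg_right ?_
          (inv_pos.2 (hs0 _)).le) (inv_pos.2 (mul_pos hN0 hJ0)).le
        simp only [hD, a6, hf]
        rw [← mul_assoc, ← add_mul, ← add_mul]
        refine mul_le_mul_of_nonneg_right ?_ (Real.exp_pos _).le
        have a7 := hB (base (e p))
        nlinarith
    refine h1.trans ?_
    rw [push Ψ hΨc]
    have i1 := integrableOn_poly L.bounded L.nonempty (cd_wt ξ x₀).continuous
    have i2 := integrableOn_poly L.bounded L.nonempty c1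
    have i3 := integrableOn_poly L.bounded L.nonempty hDc
    have : ∀ x, Ψ x * s x = (-τ * D x + lin ξ x₀ x * wt ξ x₀ x + (B + C - m) * wt ξ x₀ x) *
        (N * J)⁻¹ := fun x => by
      have := (hs0 x).ne'
      simp only [hΨ]
      field_simp
    simp only [this, integral_mul_const]
    have i4 : IntegrableOn (fun x => -τ * D x + lin ξ x₀ x * wt ξ x₀ x) (poly u c) :=
      (i3.const_mul _).add i2
    rw [integral_add i4 (i1.const_mul _), integral_add (i3.const_mul _) i2,
      integral_const_mul, integral_const_mul, ← hJ, ← hY, ← hN]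
    have h2 := L.flux_bound hσ ξ x₀ h₀
    rw [← hJ, ← hY] at h2
    have h3 : -(∫ x in poly u c, D x) ≤ 2 * (Fintype.card ι * J - Y) / T := by
      rw [le_div_iff₀ hT]
      linarith
    have h5 : N * ((-τ * (∫ x in poly u c, D x) + Y + (B + C - m) * J) * (N * J)⁻¹) =
        (τ * -(∫ x in poly u c, D x) + Y + (B + C - m) * J) / J := by
      field_simp
    have h6 : 2 * τ * Fintype.card ι / T + (1 - 2 * τ / T) * (Y / J) + B + Real.log (N * J) -
        m / 2 * Real.log (4 * Real.pi * τ) - m =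
        (τ * (2 * (Fintype.card ι * J - Y) / T) + Y + (B + C - m) * J) / J := by
      rw [hC]
      field_simp
      ring
    rw [h5, h6]
    gcongr

end Pool.Agent.MP_c98b3a_gt

end MrgPart3

-- ======== part 4: formerly Pool.Agent.MP_c98b3a_gt.VolB
section MrgPart4

/-! Weighted volume bounds for polytopes with integral normals. -/

open scoped ContDiff Topology Matrix
open Set Filter MeasureTheory

set_option linter.unusedSectionVars false

namespace Pool.Agent.MP_c98b3a_gt

variable {α : Type} [Fintype α] [DecidableEq α]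

theorem lint_affine {W : Matrix α α ℝ} (hW : W.det ≠ 0) (c : α → ℝ) {G : (α → ℝ) → ENNReal}
    (hG : Measurable G) : ∫⁻ z, G (W *ᵥ z + c) = ENNReal.ofReal |W.det⁻¹| * ∫⁻ w, G w := by
  have h1 := lintegral_map (μ := volume) (f := fun w => G (w + c)) (g := Matrix.toLin' W)
    (hG.comp (measurable_add_const c)) (LinearMap.continuous_of_finiteDimensional _).measurable
  rw [Real.map_matrix_volume_pi_eq_smul_volume_pi hW, lintegral_smul_measure,
    lintegral_add_right_eq_self G c] at h1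
  exact h1.symm

/-- The exponential density on the positive orthant. -/
noncomputable def orth (w : α → ℝ) : ENNReal :=
  {w : α → ℝ | ∀ j, 0 < w j}.indicator (fun w => ENNReal.ofReal (Real.exp (-∑ j, w j))) w

theorem isOpen_orth : IsOpen {w : α → ℝ | ∀ j, 0 < w j} := by
  rw [ofPred_forall]
  exact isOpen_iInter_of_finite fun j => isOpen_lt continuous_const (continuous_apply j)

theorem measurable_orth : Measurable (orth (α := α)) :=
  Measurable.indicator (by fun_prop) isOpen_orth.measurableSet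

theorem lint_orth : ∫⁻ w : α → ℝ, orth w = 1 := by
  have h1 : ∀ w : α → ℝ, orth w =
      ENNReal.ofReal (∏ j, (Ioi (0 : ℝ)).indicator (fun t => Real.exp (-t)) (w j)) := fun w => by
    by_cases h : ∀ j, 0 < w j
    · rw [orth, indicator_of_mem (show w ∈ {w : α → ℝ | ∀ j, 0 < w j} from h),
        Finset.prod_congr rfl fun j _ => indicator_of_mem (show w j ∈ Ioi 0 from h j) _,
        ← Real.exp_sum, Finset.sum_neg_distrib]
    · rw [orth, indicator_of_notMem (show w ∉ {w : α → ℝ | ∀ j, 0 < w j} from h)]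
      obtain ⟨j, hj⟩ := not_forall.1 h
      rw [Finset.prod_eq_zero (Finset.mem_univ j) (indicator_of_notMem hj _), ENNReal.ofReal_zero]
  simp only [h1]
  rw [← ofReal_integral_eq_lintegral_ofReal, integral_fintype_prod_volume_eq_pow,
    integral_indicator measurableSet_Ioi, integral_exp_neg_Ioi_zero, one_pow, ENNReal.ofReal_one]
  · exact Integrable.fintype_prod (f := fun _ => (Ioi (0 : ℝ)).indicator fun t => Real.exp (-t))
      fun _ => (integrable_indicator_iff measurableSet_Ioi).2 (integrableOn_exp_neg_Ioi 0)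
  · exact Eventually.of_forall fun w => Finset.prod_nonneg fun j _ =>
      indicator_nonneg (fun _ _ => (Real.exp_pos _).le) _

/-- The exponential density on the orthant cut by a half-space. -/
noncomputable def wedge (r η : α → ℝ) (w : α → ℝ) : ENNReal :=
  ({w : α → ℝ | ∀ j, 0 < w j} ∩ {w | 0 < 1 + ∑ j, r j * (w j - 1)}).indicator
    (fun w => ENNReal.ofReal (Real.exp (-∑ j, η j * (w j - 1)))) w

theorem measurable_wedge (r η : α → ℝ) : Measurable (wedge r η) :=
  Measurable.indicator (by fun_prop)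
    (isOpen_orth.inter (isOpen_lt continuous_const (by fun_prop))).measurableSet

theorem lint_wedge {n : ℕ} {r : Fin (n + 1) → ℝ} {i₀ : Fin (n + 1)} {a : ℝ} (ha : 0 < a)
    (hr : r i₀ = -a) : ∫⁻ w, wedge r (fun j => if j = i₀ then 0 else 1 + r j / (1 + a)) w ≤
      ENNReal.ofReal ((1 + a) / a * Real.exp n) := by
  set η : Fin (n + 1) → ℝ := fun j => if j = i₀ then 0 else 1 + r j / (1 + a) with hη
  have hm : Measurable fun p => wedge r η
      ((MeasurableEquiv.piFinSuccAbove (fun _ => ℝ) i₀).symm p) := (measurable_wedge r η).comp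
    (MeasurableEquiv.piFinSuccAbove (fun _ => ℝ) i₀).symm.measurable
  rw [← ((volume_preserving_piFinSuccAbove (fun _ => ℝ) i₀).symm _).lintegral_comp
    (measurable_wedge r η), Measure.volume_eq_prod, lintegral_prod_symm _ hm.aemeasurable,
    ← mul_one (ENNReal.ofReal _), ← lint_orth (α := Fin n), ← lintegral_const_mul _ measurable_orth]
  refine lintegral_mono fun w => ?_
  have h0 : ∀ t : ℝ, (MeasurableEquiv.piFinSuccAbove (fun _ => ℝ) i₀).symm (t, w) =
      i₀.insertNth t w := fun t => rfl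
  set S := ∑ j, r (i₀.succAbove j) * (w j - 1) with hS
  by_cases h : ∀ j, 0 < w j
  · have h1 : ∀ t : ℝ, wedge r η (i₀.insertNth t w) ≤ (Ioo 0 ((1 + a + S) / a)).indicator
        (fun _ => ENNReal.ofReal (Real.exp (-(∑ j, (w j - 1) + S / (1 + a))))) t := fun t => by
      refine indicator_apply_le' (fun ht => ?_) fun _ => zero_le
      have a1 := ht.1 i₀
      have a2 := ht.2
      simp only [mem_ofPred_eq, Fin.sum_univ_succAbove _ i₀, Fin.insertNth_apply_same,
        Fin.insertNth_apply_succAbove, hr, ← hS] at a1 a2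
      rw [indicator_of_mem (show t ∈ Ioo 0 ((1 + a + S) / a) from
        ⟨a1, by rw [lt_div_iff₀ ha]; linarith⟩)]
      simp only [Fin.sum_univ_succAbove _ i₀, Fin.insertNth_apply_same,
        Fin.insertNth_apply_succAbove, hη, if_pos, Fin.succAbove_ne, if_false, zero_mul, zero_add,
        hS, Finset.sum_div, ← Finset.sum_add_distrib]
      exact le_of_eq (congrArg _ (congrArg _ (congrArg _
        (Finset.sum_congr rfl fun _ _ => by ring))))
    simp only [h0]
    refine (lintegral_mono h1).trans ?_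
    rw [lintegral_indicator measurableSet_Ioo, setLIntegral_const, Real.volume_Ioo, orth,
      indicator_of_mem (show w ∈ {w : Fin n → ℝ | ∀ j, 0 < w j} from h),
      ← ENNReal.ofReal_mul (Real.exp_pos _).le, ← ENNReal.ofReal_mul (by positivity)]
    refine ENNReal.ofReal_le_ofReal ?_
    have h2 := Real.add_one_le_exp (S / (1 + a))
    have h3 : (1 + a + S) / a - 0 = (1 + a) / a * (S / (1 + a) + 1) := by field_simp; ring
    have h4 : Real.exp n * Real.exp (-∑ j, w j) =
        Real.exp (-(∑ j, (w j - 1) + S / (1 + a))) * Real.exp (S / (1 + a)) := by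
      rw [← Real.exp_add, ← Real.exp_add, Finset.sum_sub_distrib]
      simp
      ring
    rw [h3, mul_assoc, h4, mul_left_comm]
    gcongr
  · obtain ⟨j, hj⟩ := not_forall.1 h
    have h1 : ∀ t : ℝ, wedge r η (i₀.insertNth t w) = 0 := fun t =>
      indicator_of_notMem (fun ht => hj (by simpa using ht.1 (i₀.succAbove j))) _
    simp only [h0, h1, lintegral_const, zero_mul, zero_le]

variable {ι F : Type} [Fintype ι] [DecidableEq ι] [Fintype F] {u : F → ι → ℝ} {c : F → ℝ}
  {H : Euc ι → Matrix ι ι ℝ}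

theorem Labelled.ofReal_wt (L : Labelled u c H) (ξ : ι → ℝ) (x₀ : Euc ι) :
    ENNReal.ofReal (∫ x in poly u c, wt ξ x₀ x) = ∫⁻ x in poly u c, ENNReal.ofReal (wt ξ x₀ x) :=
  ofReal_integral_eq_lintegral_ofReal
    (integrableOn_poly L.bounded L.nonempty (cd_wt ξ x₀).continuous)
    (Eventually.of_forall fun _ => (Real.exp_pos _).le)

theorem Labelled.ne_zero (L : Labelled u c H) (k : F) : u k ≠ 0 := fun h => by
  obtain ⟨q, hq, -⟩ := L.facet k
  obtain ⟨x, hx⟩ := L.nonempty
  have := lab_sub (u := u) (c := c) k x q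
  simp only [h, Pi.zero_apply, zero_mul, Finset.sum_const_zero] at this
  linarith [hx k]

theorem one_le_abs_det {N : Matrix α α ℤ} (h : (N.map (Int.cast : ℤ → ℝ)).det ≠ 0) :
    1 ≤ |(N.map (Int.cast : ℤ → ℝ)).det| := by
  have h1 : (N.map (Int.cast : ℤ → ℝ)).det = (N.det : ℝ) := (Int.cast_det N).symm
  rw [h1] at h ⊢
  exact_mod_cast Int.one_le_abs (by exact_mod_cast h)

/-- The weighted volume bound in the symplectic case. -/
theorem exists_bound_symp {n : ℕ} {v : F → Fin (n + 1) → ℤ} {c : F → ℝ}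
    {H : Euc (Fin (n + 1)) → Matrix (Fin (n + 1)) (Fin (n + 1)) ℝ}
    (L : Labelled (fun k i => (v k i : ℝ)) c H) :
    ∃ (x₀ : Euc (Fin (n + 1))) (T : ℝ) (ξ : Fin (n + 1) → ℝ), 0 < T ∧
      (∀ k, T ≤ lab (fun k i => (v k i : ℝ)) c k x₀) ∧
      ∫ x in poly (fun k i => (v k i : ℝ)) c, wt ξ x₀ x ≤ T ^ (n + 1) * (2 * Real.exp n) := by
  set u : F → Fin (n + 1) → ℝ := fun k i => (v k i : ℝ) with hu
  obtain ⟨x₀, T, hT, h₀, h1, h2⟩ := exists_center L.bounded L.nonempty
  obtain ⟨b, hb, hdet⟩ := exists_basis u _ h1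
  set B : Matrix (Fin (n + 1)) (Fin (n + 1)) ℝ := Matrix.of fun i => u (b i) with hB
  have hD : 1 ≤ |B.det| := one_le_abs_det (N := Matrix.of fun i => v (b i)) hdet
  have hBB : ∀ k, (u k ᵥ* B⁻¹) ᵥ* B = u k := fun k => by
    rw [Matrix.vecMul_vecMul, Matrix.nonsing_inv_mul _ hdet.isUnit, Matrix.vecMul_one]
  obtain ⟨k, hk, i₀, hi⟩ : ∃ k, lab u c k x₀ = T ∧ ∃ i, (u k ᵥ* B⁻¹) i < 0 := by
    by_contra hcon
    push Not at hcon
    refine h2 (B⁻¹ *ᵥ fun _ => 1) fun k hk => ?_
    rw [Matrix.dotProduct_mulVec]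
    refine (Finset.sum_nonneg fun i _ => mul_nonneg (hcon k hk i) zero_le_one).lt_of_ne fun e => ?_
    have := (Finset.sum_eq_zero_iff_of_nonneg fun i _ =>
      mul_nonneg (hcon k hk i) zero_le_one).1 e.symm
    have h3 : u k ᵥ* B⁻¹ = 0 := funext fun i => by simpa using this i (Finset.mem_univ i)
    exact L.ne_zero k (by rw [← hBB k, h3, Matrix.zero_vecMul])
  set r := u k ᵥ* B⁻¹ with hr
  set a := -r i₀ with ha
  have ha0 : 0 < a := neg_pos.2 hi
  have haD : 1 ≤ a * |B.det| := by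
    have e1 : (B.updateRow i₀ (u k)).det = r i₀ * B.det := by
      rw [← hBB k, Matrix.vecMul_eq_sum, Matrix.det_updateRow_sum, smul_eq_mul]
    have e2 : B.updateRow i₀ (u k) =
        ((Matrix.of fun i => v (b i)).updateRow i₀ (v k)).map (Int.cast : ℤ → ℝ) := by
      rw [Matrix.map_updateRow]; rfl
    have e3 := one_le_abs_det (e2 ▸ e1 ▸ mul_ne_zero hi.ne hdet)
    rwa [← e2, e1, abs_mul, abs_of_neg hi] at e3
  set η : Fin (n + 1) → ℝ := fun j => if j = i₀ then 0 else 1 + r j / (1 + a) with hη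
  refine ⟨x₀, T, T⁻¹ • (η ᵥ* B), hT, h₀, ?_⟩
  have hW : (T⁻¹ • B).det = T⁻¹ ^ (n + 1) * B.det := by simp
  have hw : ∀ (x : Euc (Fin (n + 1))) i,
      ((T⁻¹ • B) *ᵥ x.ofLp + fun i => T⁻¹ * c (b i)) i = T⁻¹ * lab u c (b i) x := fun x i => by
    simp only [Matrix.smul_mulVec, Pi.add_apply, Pi.smul_apply, smul_eq_mul, lab, mul_add]
    rfl
  have hlin : ∀ (z : Fin (n + 1) → ℝ) (x : Euc (Fin (n + 1))),
      ∑ j, z j * (T⁻¹ * lab u c (b j) x - 1) = T⁻¹ * ∑ i, (z ᵥ* B) i * (x i - x₀ i) := by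
    intro z x
    simp only [Matrix.vecMul, dotProduct, Finset.sum_mul, Finset.mul_sum]
    rw [Finset.sum_comm]
    refine Finset.sum_congr rfl fun j _ => ?_
    rw [← inv_mul_cancel₀ hT.ne', ← mul_sub, ← hb j, ← lab_sub, hb j, Finset.mul_sum,
      Finset.mul_sum]
    exact Finset.sum_congr rfl fun i _ => by simp only [hB, Matrix.of_apply]; ring
  have h3 : ∫⁻ x in poly u c, ENNReal.ofReal (wt (T⁻¹ • (η ᵥ* B)) x₀ x) ≤
      ∫⁻ x : Euc (Fin (n + 1)), wedge r η ((T⁻¹ • B) *ᵥ x.ofLp + fun i => T⁻¹ * c (b i)) := by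
    rw [← lintegral_indicator isOpen_poly.measurableSet]
    refine lintegral_mono fun x => indicator_apply_le' (fun hx => ?_) fun _ => zero_le
    rw [wedge, indicator_of_mem]
    · simp only [hw, hlin, wt, lin, Pi.smul_apply, smul_eq_mul, mul_assoc, ← Finset.mul_sum, le_refl]
    · refine ⟨fun j => by rw [hw]; exact mul_pos (inv_pos.2 hT) (hx _), ?_⟩
      simp only [mem_ofPred_eq, hw, hlin, hr, hBB, lab_sub (c := c), hk]
      have := mul_pos (inv_pos.2 hT) (hx k)
      rw [mul_sub, inv_mul_cancel₀ hT.ne']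
      linarith
  have hm : Measurable fun z : Fin (n + 1) → ℝ =>
      wedge r η ((T⁻¹ • B) *ᵥ z + fun i => T⁻¹ * c (b i)) :=
    (measurable_wedge r η).comp (by fun_prop)
  rw [(PiLp.volume_preserving_ofLp _).lintegral_comp hm, lint_affine
    (hW ▸ mul_ne_zero (pow_pos (inv_pos.2 hT) _).ne' hdet) _ (measurable_wedge r η),
    ← L.ofReal_wt] at h3
  have h4 := h3.trans (mul_le_mul_right (lint_wedge ha0 (neg_neg _).symm) _)
  rw [← ENNReal.ofReal_mul (abs_nonneg _), ENNReal.ofReal_le_ofReal_iff (by positivity)] at h4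
  refine h4.trans ?_
  have hD0 : 0 < |B.det| := zero_lt_one.trans_le hD
  rw [hW, abs_inv, abs_mul, abs_of_pos (pow_pos (inv_pos.2 hT) _), inv_pow, mul_inv, inv_inv,
    mul_assoc, ← mul_assoc |B.det|⁻¹]
  gcongr
  rw [inv_mul_le_iff₀ hD0, div_le_iff₀ ha0]
  nlinarith

theorem lint_cone {s : ℝ} (hs : 0 < s) (n : ℕ) :
    ENNReal.ofReal (n.factorial / (n + 1) ^ (n + 1) * Real.exp (-(s - (n + 1)))) ≤
      ∫⁻ t in Ioi (0 : ℝ), ENNReal.ofReal (t ^ n * Real.exp (-(s * t))) := by
  have h1 := Real.integral_rpow_mul_exp_neg_mul_Ioi (a := n + 1) (by positivity) hs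
  have h2 := integrableOn_rpow_mul_exp_neg_mul_rpow (p := 1) (s := n)
    (neg_one_lt_zero.trans_le n.cast_nonneg) one_pos hs
  simp only [add_sub_cancel_right, Real.rpow_natCast, Real.rpow_one, neg_mul,
    Real.Gamma_nat_eq_factorial] at h1 h2
  rw [← ofReal_integral_eq_lintegral_ofReal h2 ((ae_restrict_iff' measurableSet_Ioi).2
    (Eventually.of_forall fun t ht => mul_nonneg (pow_nonneg (le_of_lt ht) _) (Real.exp_pos _).le)),
    h1, ← Nat.cast_succ, Real.rpow_natCast]
  refine ENNReal.ofReal_le_ofReal ?_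
  have hn : (0 : ℝ) < n.succ := Nat.cast_pos.2 n.succ_pos
  have h3 : s / n.succ ≤ Real.exp ((s - n.succ) / n.succ) := by
    have := Real.add_one_le_exp ((s - n.succ) / n.succ)
    rwa [sub_div, div_self hn.ne', sub_add_cancel, ← div_self hn.ne', ← sub_div] at this
  have h4 := pow_le_pow_left₀ (by positivity) h3 n.succ
  rw [← Real.exp_nat_mul, mul_div_cancel₀ _ hn.ne', div_pow, div_le_iff₀ (by positivity)] at h4
  rw [Real.exp_neg, one_div, inv_pow, mul_comm (s ^ _)⁻¹, div_eq_mul_inv, mul_assoc, ← mul_inv]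
  gcongr
  rwa [mul_comm]

theorem lint_polar {W : Matrix (ι ⊕ Unit) (ι ⊕ Unit) ℝ} (hW : W.det ≠ 0) :
    ∫⁻ x : ι → ℝ, ∫⁻ t in Ioi (0 : ℝ), ENNReal.ofReal (t ^ Fintype.card ι) *
      orth (W *ᵥ Sum.elim (t • x) fun _ => t) ≤ ENNReal.ofReal |W.det⁻¹| := by
  have hc : Continuous fun p : (ι → ℝ) × ℝ => W *ᵥ Sum.elim p.1 fun _ => p.2 := by
    refine continuous_const.matrix_mulVec (continuous_pi fun j => ?_)
    rcases j with j | j
    · exact (continuous_apply j).comp continuous_fst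
    · exact continuous_snd
  have hm : Measurable fun p : (ι → ℝ) × ℝ => orth (W *ᵥ Sum.elim p.1 fun _ => p.2) :=
    measurable_orth.comp hc.measurable
  have hm' : Measurable fun p : (ι → ℝ) × ℝ => ENNReal.ofReal (p.2 ^ Fintype.card ι) *
      orth (W *ᵥ Sum.elim (p.2 • p.1) fun _ => p.2) := Measurable.mul (by fun_prop)
    (hm.comp (f := fun p : (ι → ℝ) × ℝ => (p.2 • p.1, p.2)) (by fun_prop))
  rw [lintegral_lintegral_swap hm'.aemeasurable]
  have h1 : ∀ t ∈ Ioi (0 : ℝ), ∫⁻ x : ι → ℝ, ENNReal.ofReal (t ^ Fintype.card ι) *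
      orth (W *ᵥ Sum.elim (t • x) fun _ => t) =
        ∫⁻ z : ι → ℝ, orth (W *ᵥ Sum.elim z fun _ => t) := fun t ht => by
    have h2 : (t • (1 : Matrix ι ι ℝ)).det = t ^ Fintype.card ι := by simp
    have h0 := pow_pos (show 0 < t from ht) (Fintype.card ι)
    have h3 := lint_affine (h2 ▸ h0.ne') 0 (hm.comp (measurable_id.prodMk (measurable_const (a := t))))
    simp only [Matrix.smul_mulVec, Matrix.one_mulVec, add_zero, Function.comp, id] at h3
    rw [lintegral_const_mul' _ _ ENNReal.ofReal_ne_top, h3, ← mul_assoc, h2,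
      ← ENNReal.ofReal_mul h0.le, abs_of_pos (inv_pos.2 h0), mul_inv_cancel₀ h0.ne',
      ENNReal.ofReal_one, one_mul]
  rw [setLIntegral_congr_fun measurableSet_Ioi h1]
  refine (setLIntegral_le_lintegral _ _).trans (le_of_eq ?_)
  have h4 := lint_affine hW 0 measurable_orth
  simp only [add_zero, lint_orth, mul_one] at h4
  have h5 : MeasurePreserving fun p : (ι → ℝ) × ℝ => (Sum.elim p.1 fun _ => p.2 : ι ⊕ Unit → ℝ) :=
    (volume_measurePreserving_sumPiEquivProdPi_symm fun _ : ι ⊕ Unit => ℝ).comp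
      ((MeasurePreserving.id volume).prod ((volume_preserving_funUnique Unit ℝ).symm _))
  rw [← h4, ← h5.lintegral_comp (f := fun z => orth (W *ᵥ z)) (measurable_orth.comp (by fun_prop)),
    Measure.volume_eq_prod, lintegral_prod_symm _ hm.aemeasurable]

theorem lab_ray (B : Matrix (ι ⊕ Unit) (ι ⊕ Unit) ℝ) (v : F → ι ⊕ Unit → ℝ) (k : F) (x : Euc ι) :
    lab (fun k i => (v k ᵥ* B) (Sum.inl i)) (fun k => (v k ᵥ* B) (Sum.inr ())) k x =
      v k ⬝ᵥ ray B x := by
  rw [ray, Matrix.dotProduct_mulVec]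
  simp [lab, dotProduct, Fintype.sum_sum_type]

theorem Labelled.exists_scale (L : Labelled u c H) (ξ : ι → ℝ) (x₀ : Euc ι) :
    ∃ s : ℝ, 0 ≤ ∫ x in poly u c, lin (s • ξ) x₀ x * wt (s • ξ) x₀ x ∧
      ∫ x in poly u c, wt (s • ξ) x₀ x ≤ ∫ x in poly u c, wt ξ x₀ x := by
  have hl : ∀ (s : ℝ) x, lin (s • ξ) x₀ x = s * lin ξ x₀ x := fun s x => by
    simp only [lin, Pi.smul_apply, smul_eq_mul, Finset.mul_sum, mul_assoc]
  set γ : ℝ → ℝ := fun s => ∫ x in poly u c, lin ξ x₀ x * wt (s • ξ) x₀ x with hγ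
  have hc : Continuous γ := by
    have : IsLocallyFiniteMeasure ((volume : Measure (Euc ι)).restrict (poly u c)) :=
      Measure.isLocallyFiniteMeasure_of_le Measure.restrict_le_self
    have h1 := continuous_parametric_integral_of_continuous (μ := volume.restrict (poly u c))
      (f := fun (s : ℝ) x => lin ξ x₀ x * Real.exp (-(s * lin ξ x₀ x)))
      (((cd_lin ξ x₀).continuous.comp continuous_snd).mul
        (continuous_fst.mul ((cd_lin ξ x₀).continuous.comp continuous_snd)).neg.rexp)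
      (isCompact_cpoly L.bounded L.nonempty)
    rw [Measure.restrict_restrict isClosed_cpoly.measurableSet,
      inter_eq_self_of_subset_right poly_subset] at h1
    simpa only [hγ, wt, hl] using h1
  obtain ⟨s, h1, h2⟩ : ∃ s : ℝ, 0 ≤ s * γ s ∧ (1 - s) * γ s ≤ 0 := by
    rcases le_total 0 (γ 1) with a1 | a1
    · exact ⟨1, by simpa using a1, by simp⟩
    rcases le_total (γ 0) 0 with a0 | a0
    · exact ⟨0, by simp, by simpa using a0⟩
    obtain ⟨s, -, hs⟩ := intermediate_value_Icc' zero_le_one hc.continuousOn ⟨a1, a0⟩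
    exact ⟨s, by simp [hs], by simp [hs]⟩
  refine ⟨s, ?_, ?_⟩
  · simpa only [hl, mul_assoc, integral_const_mul] using h1
  · have i1 := integrableOn_poly L.bounded L.nonempty (cd_wt (s • ξ) x₀).continuous
    have i2 := integrableOn_poly L.bounded L.nonempty
      ((cd_lin ξ x₀).mul (cd_wt (s • ξ) x₀)).continuous
    refine le_trans (b := ∫ x in poly u c,
      wt (s • ξ) x₀ x - (1 - s) * (lin ξ x₀ x * wt (s • ξ) x₀ x)) ?_ ?_
    · rw [integral_sub i1 (i2.const_mul _), integral_const_mul]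
      linarith
    · refine integral_mono (i1.sub (i2.const_mul _))
        (integrableOn_poly L.bounded L.nonempty (cd_wt ξ x₀).continuous) fun x => ?_
      have h3 := Real.add_one_le_exp (-((1 - s) * lin ξ x₀ x))
      have h4 : wt ξ x₀ x = wt (s • ξ) x₀ x * Real.exp (-((1 - s) * lin ξ x₀ x)) := by
        rw [wt, wt, ← Real.exp_add, hl]; congr 1; ring
      have h5 : 0 < wt (s • ξ) x₀ x := Real.exp_pos _
      simp only [h4]
      nlinarith

/-- The weighted volume bound in the contact case. -/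
theorem exists_bound_contact [Nonempty ι] {B : Matrix (ι ⊕ Unit) (ι ⊕ Unit) ℝ} (hB : B.det ≠ 0)
    {v : F → ι ⊕ Unit → ℤ}
    (hu : u = fun k i => ((fun a => (v k a : ℝ)) ᵥ* B) (Sum.inl i))
    (hc : c = fun k => ((fun a => (v k a : ℝ)) ᵥ* B) (Sum.inr ())) (L : Labelled u c H) :
    ∃ (x₀ : Euc ι) (T : ℝ) (ξ : ι → ℝ), 0 < T ∧ (∀ k, T ≤ lab u c k x₀) ∧
      0 ≤ ∫ x in poly u c, lin ξ x₀ x * wt ξ x₀ x ∧
      |B.det| * ∫ x in poly u c, wt ξ x₀ x ≤ T ^ (Fintype.card ι + 1) *
        ((Fintype.card ι + 1) ^ (Fintype.card ι + 1) / (Fintype.card ι).factorial) := by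
  set n := Fintype.card ι with hn
  set w : F → ι ⊕ Unit → ℝ := fun k a => (v k a : ℝ) with hw
  have hlab : ∀ k x, lab u c k x = w k ⬝ᵥ ray B x := fun k x => by rw [hu, hc]; exact lab_ray B w k x
  obtain ⟨x₀, T, hT, h₀, h1, h2⟩ := exists_center L.bounded L.nonempty
  obtain ⟨b, hb, hdet⟩ := exists_basis w (fun k => lab u c k x₀ = T) fun z hz => by
    set y := B⁻¹ *ᵥ z with hy
    have e0 : z = B *ᵥ y := by
      rw [hy, Matrix.mulVec_mulVec, Matrix.mul_nonsing_inv _ hB.isUnit, Matrix.one_mulVec]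
    have e1 : ∀ k, lab u c k x₀ = T →
        u k ⬝ᵥ (fun i => y (Sum.inl i) - y (Sum.inr ()) * x₀ i) = -(y (Sum.inr ()) * T) := by
      intro k hk
      have a1 := hz k hk
      rw [e0, Matrix.dotProduct_mulVec] at a1
      rw [← hk]
      simp only [dotProduct, Fintype.sum_sum_type, Finset.univ_unique, Finset.sum_singleton,
        PUnit.default_eq_unit] at a1
      simp only [lab, dotProduct, hu, hc, mul_sub, Finset.sum_sub_distrib, mul_add, Finset.mul_sum,
        mul_left_comm _ (y (Sum.inr ()))]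
      linarith
    have e2 : y (Sum.inr ()) = 0 := by
      by_contra hne
      refine h2 (-y (Sum.inr ()) • fun i => y (Sum.inl i) - y (Sum.inr ()) * x₀ i) fun k hk => ?_
      rw [dotProduct_smul, e1 k hk, smul_eq_mul]
      nlinarith [mul_self_pos.2 hne]
    have e3 := h1 _ fun k hk => (e1 k hk).trans (by rw [e2]; simp)
    have e4 : y = 0 := funext fun a => by
      rcases a with a | a
      · simpa [e2] using congrFun e3 a
      · exact e2
    rw [e0, e4, Matrix.mulVec_zero]
  set V : Matrix (ι ⊕ Unit) (ι ⊕ Unit) ℝ := Matrix.of fun i => w (b i) with hV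
  have hD : 1 ≤ |V.det| := one_le_abs_det (N := Matrix.of fun i => v (b i)) hdet
  obtain ⟨s, hs, hs'⟩ := L.exists_scale (fun i => T⁻¹ * ∑ a, u (b a) i) x₀
  refine ⟨x₀, T, _, hT, h₀, hs, (mul_le_mul_of_nonneg_left hs' (abs_nonneg _)).trans ?_⟩
  have hW : (T⁻¹ • (V * B)).det = T⁻¹ ^ (n + 1) * (V.det * B.det) := by simp [hn]
  have hW0 : (T⁻¹ • (V * B)).det ≠ 0 :=
    hW ▸ mul_ne_zero (pow_pos (inv_pos.2 hT) _).ne' (mul_ne_zero hdet hB)
  have hx : ∀ (x : Euc ι) (t : ℝ) a, ((T⁻¹ • (V * B)) *ᵥ Sum.elim (t • x.ofLp) fun _ => t) a =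
      T⁻¹ * lab u c (b a) x * t := fun x t a => by
    have : (Sum.elim (t • x.ofLp) fun _ => t : ι ⊕ Unit → ℝ) =
        t • Sum.elim (fun i => x i) fun _ => 1 := funext fun j => by rcases j with j | j <;> simp
    rw [this, Matrix.mulVec_smul, Matrix.smul_mulVec, ← Matrix.mulVec_mulVec, hlab, mul_comm]
    rfl
  have h3 : ENNReal.ofReal (n.factorial / (n + 1) ^ (n + 1)) *
      ∫⁻ x in poly u c, ENNReal.ofReal (wt (fun i => T⁻¹ * ∑ a, u (b a) i) x₀ x) ≤
      ∫⁻ x : Euc ι, ∫⁻ t in Ioi (0 : ℝ), ENNReal.ofReal (t ^ n) *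
        orth ((T⁻¹ • (V * B)) *ᵥ Sum.elim (t • x.ofLp) fun _ => t) := by
    rw [← lintegral_const_mul' _ _ ENNReal.ofReal_ne_top,
      ← lintegral_indicator isOpen_poly.measurableSet]
    refine lintegral_mono fun x => indicator_apply_le' (fun hx' => ?_) fun _ => zero_le
    have a1 : ∀ a, 0 < T⁻¹ * lab u c (b a) x := fun a => mul_pos (inv_pos.2 hT) (hx' _)
    have a2 : lin (fun i => T⁻¹ * ∑ a, u (b a) i) x₀ x =
        ∑ a, T⁻¹ * lab u c (b a) x - (n + 1) := by
      simp only [lin, mul_assoc, ← Finset.mul_sum, Finset.sum_mul]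
      rw [Finset.sum_comm]
      simp only [lab_sub (c := c), hb]
      rw [Finset.sum_sub_distrib, mul_sub, Finset.sum_const, Finset.card_univ, Fintype.card_sum,
        Fintype.card_unit, nsmul_eq_mul, mul_left_comm T⁻¹, inv_mul_cancel₀ hT.ne', mul_one,
        Nat.cast_succ]
    rw [← ENNReal.ofReal_mul (by positivity), wt, a2]
    refine (lint_cone (Finset.sum_pos (fun a _ => a1 a) Finset.univ_nonempty) n).trans
      (le_of_eq (setLIntegral_congr_fun measurableSet_Ioi fun t ht => ?_))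
    simp only [orth]
    rw [indicator_of_mem (show _ ∈ {w : ι ⊕ Unit → ℝ | ∀ j, 0 < w j} from
      fun a => by rw [hx]; exact mul_pos (a1 a) ht),
      ← ENNReal.ofReal_mul (pow_nonneg (le_of_lt ht) _)]
    simp only [hx, Finset.sum_mul]
  have h4 := h3.trans (((PiLp.volume_preserving_ofLp ι).lintegral_comp_emb
    (MeasurableEquiv.toLp 2 (ι → ℝ)).symm.measurableEmbedding _).trans_le (lint_polar hW0))
  rw [← L.ofReal_wt, ← ENNReal.ofReal_mul (by positivity),
    ENNReal.ofReal_le_ofReal_iff (abs_nonneg _), hW, abs_inv, abs_mul, abs_mul,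
    abs_of_pos (pow_pos (inv_pos.2 hT) _), inv_pow, mul_inv, inv_inv, ← le_div_iff₀' (by positivity)]
    at h4
  refine (mul_le_mul_of_nonneg_left h4 (abs_nonneg _)).trans ?_
  have hB0 := (abs_pos.2 hB).ne'
  have : |B.det| * (T ^ (n + 1) * (|V.det| * |B.det|)⁻¹ / (n.factorial / (n + 1) ^ (n + 1))) =
      T ^ (n + 1) * ((n + 1) ^ (n + 1) / n.factorial) / |V.det| := by
    field_simp
  rw [this]
  exact div_le_self (by positivity) hD

end Pool.Agent.MP_c98b3a_gt

end MrgPart4

-- ======== part 5: formerly Pool.Agent.MP_c98b3a_gt.Final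
section MrgPart5

/-! The entropy bounds for toric almost Kaehler metrics and toric contact metrics. -/

open scoped Manifold ContDiff Topology Matrix
open Set Filter MeasureTheory

set_option linter.unusedSectionVars false

namespace Pool.Agent.MP_c98b3a_gt

universe u

section General

variable {ι κ F : Type} [Fintype ι] [DecidableEq ι] [Fintype κ] [DecidableEq κ] [Fintype F]
  {M : Type u} [TopologicalSpace M] [ChartedSpace (Euc (ι ⊕ κ)) M]
  [IsManifold 𝓘(ℝ, Euc (ι ⊕ κ)) ∞ M] [MeasurableSpace M] {g : Metrics 𝓘(ℝ, Euc (ι ⊕ κ)) M}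
  {u : F → ι → ℝ} {c : F → ℝ} {H : Euc ι → Matrix ι ι ℝ} {K : Euc ι → Matrix κ κ ℝ}

theorem dat_of_chart (L : Labelled u c H) (hK : ∀ i j, ContDiff ℝ ∞ fun z => K z i j)
    {e : OpenPartialHomeomorph M (Euc (ι ⊕ κ))} {A : Euc ι → Matrix κ ι ℝ} (he : IsChart e)
    (ht : e.target = box κ (poly u c)) (hA : ∀ a i, ContDiffOn ℝ ∞ (fun x => A x a i) (poly u c))
    (hG : ∀ y ∈ e.target, gmat g e y = blkMat (H (base y))⁻¹ (K (base y)) (A (base y))) :
    Dat (poly u c) H K A := by
  refine ⟨⟨isOpen_poly, fun i j => (L.smooth i j).contDiffOn, L.posDef⟩,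
    fun i j => (hK i j).contDiffOn, fun x hx => ?_, hA⟩
  have hy : (WithLp.toLp 2 (Sum.elim (fun i => x i) fun _ => Real.pi) : Euc (ι ⊕ κ)) ∈ e.target :=
    ht ▸ ⟨hx, fun _ => ⟨Real.pi_pos, show Real.pi < 2 * Real.pi by linarith [Real.pi_pos]⟩⟩
  have h1 := (gmat_nice g he).pos _ hy
  rw [hG _ hy] at h1
  exact h1.submatrix Sum.inr_injective

end General

theorem nu_le_symp {n : ℕ} {F : Type} [Fintype F] {M : Type u} [TopologicalSpace M] [T2Space M]
    [CompactSpace M] [ChartedSpace (Euc (Fin (n + 1) ⊕ Fin (n + 1))) M]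
    [IsManifold 𝓘(ℝ, Euc (Fin (n + 1) ⊕ Fin (n + 1))) ∞ M] [MeasurableSpace M] [BorelSpace M]
    (g : Metrics 𝓘(ℝ, Euc (Fin (n + 1) ⊕ Fin (n + 1))) M) {v : F → Fin (n + 1) → ℤ} {c : F → ℝ}
    {H : Euc (Fin (n + 1)) → Matrix (Fin (n + 1)) (Fin (n + 1)) ℝ}
    (L : Labelled (fun k i => (v k i : ℝ)) c H)
    (h : ActionAngle g (poly (fun k i => (v k i : ℝ)) c) H H) :
    entNu g ≤ (Real.log (2 / Real.exp 1) : ℝ) := by
  obtain ⟨e, μ, A, he, ht, h0, hμ, hb, hA, hG⟩ := h
  obtain ⟨x₀, T, ξ, hT, h₀, hJ⟩ := exists_bound_symp L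
  have d := dat_of_chart L L.smooth he ht hA hG
  have loc := loc_symp d e.open_target (fun y hy => (ht.subset hy).1) hG
  refine (master L ξ x₀ he ht h0 hμ hb contDiff_const (fun _ => one_pos) loc hT h₀
    (half_pos hT) (B := 0) fun x => by simp).trans (EReal.coe_le_coe_iff.2 ?_)
  have hJ0 := L.wt_pos ξ x₀
  have h1 := Real.log_le_log hJ0 hJ
  have h2 : 4 * Real.pi * (T / 2) = 2 * Real.pi * T := by ring
  have h3 : 2 * (T / 2) * ((n : ℝ) + 1) / T = n + 1 := by field_simp
  have h4 : 1 - 2 * (T / 2) / T = 0 := by field_simp; ring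
  rw [Real.log_mul (by positivity) (by positivity), Real.log_mul (by positivity) (by positivity),
    Real.log_pow, Real.log_exp] at h1
  simp only [Fintype.card_sum, Fintype.card_fin]
  rw [h2, h4, Real.log_mul (by positivity) hJ0.ne', Real.log_mul (by positivity) hT.ne',
    Real.log_pow, Real.log_div (by positivity) (by positivity), Real.log_exp]
  push_cast at h1 ⊢
  rw [h3]
  linarith

theorem log_theta_odd {n : ℕ} (hn : 0 < n) : Real.log (theta (2 * n + 1)) =
    (n + 1 / 2) * (Real.log n - 1) + Real.log 2 + 1 / 2 * Real.log Real.pi -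
      Real.log n.factorial := by
  have hn' : (0 : ℝ) < n := Nat.cast_pos.2 hn
  have h1 : (((2 * n + 1 : ℕ) : ℝ) + 1) / 2 = n + 1 := by push_cast; ring
  have h2 : (((2 * n + 1 : ℕ) : ℝ) - 1) / (2 * Real.pi * Real.exp 1) =
      n / (Real.pi * Real.exp 1) := by push_cast; field_simp; ring
  have h3 : (0 : ℝ) < n.factorial := Nat.cast_pos.2 n.factorial_pos
  rw [theta, h1, h2, Real.Gamma_nat_eq_factorial, Real.log_mul (by positivity) (by positivity),
    Real.log_rpow (by positivity), Real.log_div (by positivity) (by positivity),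
    Real.log_div (by positivity) (by positivity), Real.log_mul (by positivity) (by positivity),
    Real.log_mul (by positivity) (by positivity), Real.log_rpow Real.pi_pos, Real.log_exp]
  push_cast
  ring

theorem nu_le_contact {ι F : Type} [Fintype ι] [DecidableEq ι] [Nonempty ι] [Fintype F]
    {M : Type u} [TopologicalSpace M] [T2Space M] [CompactSpace M]
    [ChartedSpace (Euc (ι ⊕ (ι ⊕ Unit))) M] [IsManifold 𝓘(ℝ, Euc (ι ⊕ (ι ⊕ Unit))) ∞ M]
    [MeasurableSpace M] [BorelSpace M] (g : Metrics 𝓘(ℝ, Euc (ι ⊕ (ι ⊕ Unit))) M)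
    {B : Matrix (ι ⊕ Unit) (ι ⊕ Unit) ℝ} (hB : B.det ≠ 0) {v : F → ι ⊕ Unit → ℤ}
    {u : F → ι → ℝ} {c : F → ℝ} (hu : u = fun k i => ((fun a => (v k a : ℝ)) ᵥ* B) (Sum.inl i))
    (hc : c = fun k => ((fun a => (v k a : ℝ)) ᵥ* B) (Sum.inr ())) {H : Euc ι → Matrix ι ι ℝ}
    (L : Labelled u c H) {a : Euc ι → ℝ} (ha : ContDiff ℝ ∞ a) (ha0 : ∀ x, 0 < a x)
    (h : ActionAngle g (poly u c) H (contactK B a H)) :
    entNu g ≤ (Real.log (theta (2 * Fintype.card ι + 1)) : ℝ) := by
  obtain ⟨e, μ, A, he, ht, h0, hμ, hb, hA, hG⟩ := h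
  obtain ⟨x₀, T, ξ, hT, h₀, hY, hJ⟩ := exists_bound_contact hB hu hc L
  have hray : ∀ α, ContDiff ℝ ∞ fun x : Euc ι => ray B x α := fun α =>
    ContDiff.sum fun j _ => contDiff_const.mul (by
      rcases j with j | j
      · exact cd_coord j
      · exact contDiff_const)
  have d := dat_of_chart L (K := contactK B a H) (fun α β => ((ha.pow 2).mul
    ((hray α).mul (hray β))).add (ContDiff.sum fun i _ => ContDiff.sum fun j _ =>
      (contDiff_const.mul (L.smooth i j)).mul contDiff_const)) he ht hA hG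
  have loc := loc_contact hB ha ha0 d e.open_target (fun y hy => (ht.subset hy).1) hG
  have hn : 0 < Fintype.card ι := Fintype.card_pos
  rw [log_theta_odd hn]
  set n := Fintype.card ι with hn0
  have hn' : (0 : ℝ) < n := Nat.cast_pos.2 hn
  have hB0 := abs_pos.2 hB
  have hτ : 0 < (n + 1) * T / (2 * n) := by positivity
  have hm := master L ξ x₀ he ht h0 hμ hb (contDiff_const.mul ha) (fun x => mul_pos hB0 (ha0 x))
    loc hT h₀ hτ (B := Real.log |B.det| - 1 / 2 * Real.log ((n + 1) * T / 2) - 1 / 2) fun x => by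
      have h1 := Real.log_le_sub_one_of_pos (show 0 < (n + 1) * T / 2 * a x ^ 2 by
        have := ha0 x; positivity)
      rw [Real.log_mul (by positivity) (pow_pos (ha0 x) 2).ne', Real.log_pow] at h1
      have h2 : (n + 1) * T / (2 * n) * (n / 2 * a x ^ 2) = (n + 1) * T / 2 * a x ^ 2 / 2 := by
        field_simp
      rw [Real.log_mul hB0.ne' (ha0 x).ne', h2]
      push_cast at h1
      linarith
  refine hm.trans (EReal.coe_le_coe_iff.2 ?_)
  have hJ0 := L.wt_pos ξ x₀
  have h3 : (0 : ℝ) < n.factorial := Nat.cast_pos.2 n.factorial_pos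
  have h1 := Real.log_le_log (mul_pos hB0 hJ0) hJ
  rw [Real.log_mul hB0.ne' hJ0.ne', Real.log_mul (by positivity) (by positivity),
    Real.log_div (by positivity) h3.ne', Real.log_pow, Real.log_pow] at h1
  have h4 : 2 * ((n + 1) * T / (2 * n)) * n / T = n + 1 := by field_simp
  have h5 : 1 - 2 * ((n + 1) * T / (2 * n)) / T = -(n : ℝ)⁻¹ := by field_simp; ring
  have h6 : 4 * Real.pi * ((n + 1) * T / (2 * n)) = 2 * Real.pi * ((n + 1) * T) / n := by
    field_simp; ring
  have h7 := mul_nonneg (inv_pos.2 hn').le (_root_.div_nonneg hY hJ0.le)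
  simp only [Fintype.card_sum, Fintype.card_unit, ← hn0]
  rw [h4, h5, h6, Real.log_mul (by positivity) hJ0.ne', Real.log_pow,
    Real.log_div (by positivity) hn'.ne', Real.log_div (by positivity) two_ne_zero,
    Real.log_mul (x := 2 * Real.pi) (by positivity) (by positivity),
    Real.log_mul (x := n + 1) (by positivity) hT.ne',
    Real.log_mul two_ne_zero Real.pi_pos.ne']
  push_cast at h1 ⊢
  linarith

end Pool.Agent.MP_c98b3a_gt

end MrgPart5

-- marker of a merged file
example : 731051 + 656843 = 731051 + 656843 := rfl
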