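import Pool.Agent.MP_c98b3a_gt.Final

/-! The entropy gap for toric contact metrics whose moment cone is not the standard one. -/

open scoped Manifold ContDiff Topology Matrix
open Set Filter MeasureTheory

set_option linter.unusedSectionVars false

namespace Pool.Agent.MP_c98b3a_gt

universe w

variable {ι F : Type} [Fintype ι] [DecidableEq ι] [Fintype F]

theorem mp_elim :
    MeasurePreserving fun p : (ι → ℝ) × ℝ => (Sum.elim p.1 fun _ => p.2 : ι ⊕ Unit → ℝ) :=
  (volume_measurePreserving_sumPiEquivProdPi_symm fun _ : ι ⊕ Unit => ℝ).comp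
    ((MeasurePreserving.id volume).prod ((volume_preserving_funUnique Unit ℝ).symm _))

theorem lint_shear {n : ℕ} (hn : Fintype.card ι = n + 1) {W : Matrix (ι ⊕ Unit) (ι ⊕ Unit) ℝ}
    (hW : W.det ≠ 0) {ρ : ι ⊕ Unit → ℝ} (hρ : W *ᵥ ρ = Pi.single (Sum.inr ()) 1)
    (hρ0 : ρ (Sum.inr ()) ≤ 0) :
    ENNReal.ofReal (|W.det| * (n.factorial / (n + 1) ^ (n + 1) * Real.exp (n + 1))) *
      ∫⁻ x : ι → ℝ, orth (W *ᵥ Sum.elim x fun _ => 1) ≤ 1 := by
  set z : (ι ⊕ Unit → ℝ) → ι ⊕ Unit → ℝ :=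
    fun p => W *ᵥ Sum.elim (fun i => p (Sum.inl i)) fun _ => 1 with hz
  set Φ : (ι ⊕ Unit → ℝ) → ι ⊕ Unit → ℝ := fun p =>
    Sum.elim (fun i => p (Sum.inr ()) * z p (Sum.inl i)) fun _ => z p (Sum.inr ()) with hΦ
  set J : (ι ⊕ Unit → ℝ) → Matrix (ι ⊕ Unit) (ι ⊕ Unit) ℝ := fun p =>
    Matrix.fromBlocks (p (Sum.inr ()) • W.toBlocks₁₁) (Matrix.of fun i _ => z p (Sum.inl i))
      W.toBlocks₂₁ 0 with hJ
  set S : Set (ι ⊕ Unit → ℝ) := {p | 0 < p (Sum.inr ())} ∩ z ⁻¹' {w | ∀ a, 0 < w a} with hS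
  have hza : ∀ p a, z p a = ∑ j, W a (Sum.inl j) * p (Sum.inl j) + W a (Sum.inr ()) := fun p a => by
    simp [hz, Matrix.mulVec, dotProduct, Fintype.sum_sum_type]
  have hzd : ∀ p a, HasFDerivAt (fun p => z p a) (∑ j, W a (Sum.inl j) •
      (ContinuousLinearMap.proj (Sum.inl j) : (ι ⊕ Unit → ℝ) →L[ℝ] ℝ)) p := fun p a => by
    simp only [hza]
    exact (HasFDerivAt.fun_sum fun j _ => (hasFDerivAt_apply (Sum.inl j) p).const_mul _).add_const _
  have hzc : Continuous z := continuous_pi fun a =>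
    continuous_iff_continuousAt.2 fun p => (hzd p a).continuousAt
  have hSm : MeasurableSet S := ((isOpen_lt continuous_const (continuous_apply _)).inter
    (isOpen_orth.preimage hzc)).measurableSet
  have hd : ∀ p, HasFDerivAt Φ (LinearMap.toContinuousLinearMap (Matrix.toLin' (J p))) p := by
    intro p
    refine hasFDerivAt_pi'.2 fun a => ?_
    rcases a with i | i
    · refine ((hasFDerivAt_apply (Sum.inr ()) p).mul (hzd p (Sum.inl i))).congr_fderiv
        (ContinuousLinearMap.ext fun y => ?_)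
      simp [hJ, Matrix.mulVec, dotProduct, Fintype.sum_sum_type, Matrix.toBlocks₁₁, Finset.mul_sum,
        mul_assoc]
    · refine (hzd p (Sum.inr ())).congr_fderiv (ContinuousLinearMap.ext fun y => ?_)
      simp [hJ, Matrix.mulVec, dotProduct, Fintype.sum_sum_type, Matrix.toBlocks₂₁]
  set σ : (ι ⊕ Unit → ℝ) → ℝ := fun p => 1 - z p (Sum.inr ()) * ρ (Sum.inr ()) with hσ
  have hσ1 : ∀ p ∈ S, 1 ≤ σ p := fun p hp => by
    have := mul_nonpos_of_nonneg_of_nonpos (hp.2 (Sum.inr ())).le hρ0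
    simp only [hσ]
    linarith
  have hq : ∀ p, W *ᵥ (Sum.elim (fun i => p (Sum.inl i) - z p (Sum.inr ()) * ρ (Sum.inl i))
      fun _ => σ p) = Sum.elim (fun i => z p (Sum.inl i)) fun _ => 0 := fun p => by
    have : (Sum.elim (fun i => p (Sum.inl i) - z p (Sum.inr ()) * ρ (Sum.inl i)) fun _ => σ p :
        ι ⊕ Unit → ℝ) = (Sum.elim (fun i => p (Sum.inl i)) fun _ => 1) - z p (Sum.inr ()) • ρ :=
      funext fun a => by rcases a with a | a <;> rfl
    rw [this, Matrix.mulVec_sub, Matrix.mulVec_smul, hρ]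
    funext a
    rcases a with a | a <;> simp [hz]
  have hdet : ∀ p, (J p).det * p (Sum.inr ()) = p (Sum.inr ()) ^ (n + 1) * (W.det * σ p) := by
    intro p
    have h1 : J p * Matrix.fromBlocks 1 0 0 (Matrix.of fun _ _ => p (Sum.inr ())) =
        Matrix.fromBlocks (p (Sum.inr ()) • 1) 0 0 1 * (W * Matrix.fromBlocks 1
          (Matrix.of fun i _ => p (Sum.inl i) - z p (Sum.inr ()) * ρ (Sum.inl i)) 0
          (Matrix.of fun _ _ => σ p)) := by
      have h2 : W * Matrix.fromBlocks 1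
          (Matrix.of fun i _ => p (Sum.inl i) - z p (Sum.inr ()) * ρ (Sum.inl i)) 0
          (Matrix.of fun _ _ => σ p) = Matrix.fromBlocks W.toBlocks₁₁
            (Matrix.of fun i (_ : Unit) => z p (Sum.inl i)) W.toBlocks₂₁ 0 := by
        ext a (j | j)
        · rcases a with a | a <;>
            simp [Matrix.mul_apply, Fintype.sum_sum_type, Matrix.one_apply, Matrix.toBlocks₁₁,
              Matrix.toBlocks₂₁]
        · have := congrFun (hq p) a
          rcases a with a | a <;>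
            simpa [Matrix.mul_apply, Matrix.mulVec, dotProduct, Fintype.sum_sum_type] using this
      rw [h2, hJ, Matrix.fromBlocks_multiply, Matrix.fromBlocks_multiply]
      congr 1
      · simp
      · ext i j; simp [Matrix.mul_apply, mul_comm]
      · simp
      · simp
    have h3 := congrArg Matrix.det h1
    simpa [Matrix.det_fromBlocks_zero₂₁, hn] using h3
  have hinj : InjOn Φ S := fun p hp p' hp' e => by
    have e1 : z p (Sum.inr ()) = z p' (Sum.inr ()) := congrFun e (Sum.inr ())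
    have e2 : σ p = σ p' := by simp only [hσ, e1]
    have hi := Matrix.mulVec_injective_of_isUnit ((Matrix.isUnit_iff_isUnit_det _).2 hW.isUnit)
    have e3 := hi (a₁ := p (Sum.inr ()) • Sum.elim (fun i => p (Sum.inl i) -
        z p (Sum.inr ()) * ρ (Sum.inl i)) fun _ => σ p)
      (a₂ := p' (Sum.inr ()) • Sum.elim (fun i => p' (Sum.inl i) -
        z p' (Sum.inr ()) * ρ (Sum.inl i)) fun _ => σ p') (by
      rw [Matrix.mulVec_smul, Matrix.mulVec_smul, hq, hq]
      funext a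
      rcases a with a | a
      · exact congrFun e (Sum.inl a)
      · simp)
    have e4 : p (Sum.inr ()) = p' (Sum.inr ()) := by
      have := congrFun e3 (Sum.inr ())
      simp only [Pi.smul_apply, Sum.elim_inr, smul_eq_mul, e2] at this
      exact mul_right_cancel₀ (zero_lt_one.trans_le (hσ1 p' hp')).ne' this
    funext a
    rcases a with a | a
    · have := congrFun e3 (Sum.inl a)
      simp only [Pi.smul_apply, Sum.elim_inl, smul_eq_mul, e1, e4] at this
      simpa using mul_left_cancel₀ (ne_of_gt hp'.1) this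
    · exact e4
  have h1 := lintegral_image_eq_lintegral_abs_det_fderiv_mul volume hSm
    (fun p _ => (hd p).hasFDerivWithinAt) hinj orth
  set G : (ι ⊕ Unit → ℝ) → ENNReal := S.indicator fun p =>
    ENNReal.ofReal (|W.det| * Real.exp (-z p (Sum.inr ()))) * ENNReal.ofReal
      (p (Sum.inr ()) ^ n * Real.exp (-((∑ i, z p (Sum.inl i)) * p (Sum.inr ())))) with hG
  have hGm : Measurable G := Measurable.indicator (by fun_prop) hSm
  have h2 : ∫⁻ p, G p ≤ 1 := by
    rw [← lint_orth (α := ι ⊕ Unit), hG, lintegral_indicator hSm]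
    refine le_trans (setLIntegral_mono' hSm fun p hp => ?_)
      (h1.symm.trans_le (setLIntegral_le_lintegral _ _))
    have ht : 0 < p (Sum.inr ()) := hp.1
    have a1 : (J p).det = p (Sum.inr ()) ^ n * (W.det * σ p) :=
      mul_right_cancel₀ ht.ne' (by rw [hdet]; ring)
    rw [LinearMap.det_toContinuousLinearMap, LinearMap.det_toLin', a1, orth,
      indicator_of_mem (show Φ p ∈ {w : ι ⊕ Unit → ℝ | ∀ j, 0 < w j} from fun a => by
        rcases a with a | a
        · exact mul_pos ht (hp.2 _)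
        · exact hp.2 _), ← ENNReal.ofReal_mul (by positivity), ← ENNReal.ofReal_mul (abs_nonneg _)]
    refine ENNReal.ofReal_le_ofReal ?_
    have a2 : Real.exp (-∑ j, Φ p j) = Real.exp (-z p (Sum.inr ())) *
        Real.exp (-((∑ i, z p (Sum.inl i)) * p (Sum.inr ()))) := by
      rw [← Real.exp_add]
      simp [hΦ, Fintype.sum_sum_type, Finset.mul_sum, mul_comm]
    rw [a2, abs_mul, abs_mul, abs_of_pos (pow_pos ht n),
      abs_of_pos (zero_lt_one.trans_le (hσ1 p hp))]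
    have a3 : 0 ≤ p (Sum.inr ()) ^ n * |W.det| * (Real.exp (-z p (Sum.inr ())) *
        Real.exp (-((∑ i, z p (Sum.inl i)) * p (Sum.inr ())))) := by positivity
    nlinarith [hσ1 p hp]
  have hGm' : Measurable fun p : (ι → ℝ) × ℝ => G (Sum.elim p.1 fun _ => p.2) :=
    hGm.comp mp_elim.measurable
  rw [← mp_elim.lintegral_comp hGm, Measure.volume_eq_prod, lintegral_prod _ hGm'.aemeasurable] at h2
  rw [← lintegral_const_mul' _ _ ENNReal.ofReal_ne_top]
  refine le_trans (lintegral_mono fun x => ?_) h2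
  set w := W *ᵥ Sum.elim x fun _ => (1 : ℝ) with hw
  by_cases hx : ∀ a, 0 < w a
  · have : Nonempty ι := Fintype.card_pos_iff.1 (hn ▸ n.succ_pos)
    have a1 := lint_cone (Finset.sum_pos (fun i _ => hx (Sum.inl i)) Finset.univ_nonempty) n
    have a2 : ∀ t : ℝ, G (Sum.elim x fun _ => t) = (Ioi (0 : ℝ)).indicator (fun t =>
        ENNReal.ofReal (|W.det| * Real.exp (-w (Sum.inr ()))) *
          ENNReal.ofReal (t ^ n * Real.exp (-((∑ i, w (Sum.inl i)) * t)))) t := fun t => by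
      by_cases ht : 0 < t
      · rw [hG, indicator_of_mem (show (Sum.elim x fun _ => t) ∈ S from ⟨ht, hx⟩),
          indicator_of_mem (show t ∈ Ioi 0 from ht)]
        rfl
      · rw [hG, indicator_of_notMem (show (Sum.elim x fun _ => t) ∉ S from fun h => ht h.1),
          indicator_of_notMem (show t ∉ Ioi 0 from ht)]
    simp only [a2]
    rw [lintegral_indicator measurableSet_Ioi, lintegral_const_mul' _ _ ENNReal.ofReal_ne_top]
    refine le_trans (le_of_eq ?_) (mul_le_mul_right a1 _)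
    rw [orth, indicator_of_mem (show w ∈ {w : ι ⊕ Unit → ℝ | ∀ j, 0 < w j} from hx),
      ← ENNReal.ofReal_mul (by positivity), ← ENNReal.ofReal_mul (by positivity)]
    congr 1
    have a3 : Real.exp (n + 1) * Real.exp (-∑ j, w j) =
        Real.exp (-w (Sum.inr ())) * Real.exp (-(∑ i, w (Sum.inl i) - (n + 1))) := by
      rw [← Real.exp_add, ← Real.exp_add]
      simp [Fintype.sum_sum_type]
      ring
    linear_combination (|W.det| * (n.factorial / (n + 1) ^ (n + 1))) * a3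
  · rw [orth, indicator_of_notMem (show w ∉ {w : ι ⊕ Unit → ℝ | ∀ j, 0 < w j} from hx), mul_zero]
    exact zero_le

theorem orth_comp {α : Type} [Fintype α] (σ : Equiv.Perm α) (z : α → ℝ) :
    orth (z ∘ σ) = orth z := by
  by_cases h : ∀ j, 0 < z j
  · rw [orth, orth, indicator_of_mem (show z ∈ {w : α → ℝ | ∀ j, 0 < w j} from h),
      indicator_of_mem (show z ∘ σ ∈ {w : α → ℝ | ∀ j, 0 < w j} from fun j => h _)]
    simp only [Function.comp, Equiv.sum_comp σ z]
  · rw [orth, orth, indicator_of_notMem (show z ∉ {w : α → ℝ | ∀ j, 0 < w j} from h),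
      indicator_of_notMem (show z ∘ σ ∉ {w : α → ℝ | ∀ j, 0 < w j} from
        fun h' => h fun j => by simpa using h' (σ.symm j))]

theorem lint_shear' {n : ℕ} (hn : Fintype.card ι = n + 1) {W : Matrix (ι ⊕ Unit) (ι ⊕ Unit) ℝ}
    (hW : W.det ≠ 0) {ρ : ι ⊕ Unit → ℝ} {a₀ : ι ⊕ Unit} {s : ℝ} (hs : 0 < s)
    (hρ : W *ᵥ ρ = Pi.single a₀ s) (hρ0 : ρ (Sum.inr ()) ≤ 0) :
    ENNReal.ofReal (|W.det| * (n.factorial / (n + 1) ^ (n + 1) * Real.exp (n + 1))) *
      ∫⁻ x : ι → ℝ, orth (W *ᵥ Sum.elim x fun _ => 1) ≤ 1 := by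
  set σ := Equiv.swap a₀ (Sum.inr ()) with hσ
  have h1 : |(W.submatrix σ id).det| = |W.det| := by
    rw [Matrix.det_permute, abs_mul]
    rcases Int.units_eq_one_or (Equiv.Perm.sign σ) with e | e <;> simp [e]
  have h2 : ∀ y, W.submatrix σ id *ᵥ y = (W *ᵥ y) ∘ σ := fun y => rfl
  have h3 := lint_shear hn (W := W.submatrix σ id) (ρ := s⁻¹ • ρ)
    (abs_pos.1 (h1 ▸ abs_pos.2 hW)) (by
      rw [Matrix.mulVec_smul, h2, hρ]
      funext a
      by_cases ha : a = Sum.inr ()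
      · simp [ha, hσ, hs.ne']
      · have : σ a ≠ a₀ := fun e => ha (by simpa [hσ] using congrArg σ e)
        simp [ha, this])
    (mul_nonpos_of_nonneg_of_nonpos (inv_pos.2 hs).le hρ0)
  simpa only [h1, h2, orth_comp] using h3

variable {u : F → ι → ℝ} {c : F → ℝ} {H : Euc ι → Matrix ι ι ℝ}

theorem lab_elim (k : F) (x : Euc ι) :
    lab u c k x = (Sum.elim (u k) fun _ : Unit => c k) ⬝ᵥ Sum.elim x.ofLp fun _ => 1 := by
  simp [lab, dotProduct, Fintype.sum_sum_type]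

theorem lin_active {x₀ : Euc ι} {T : ℝ} (hT : 0 < T) {b : ι ⊕ Unit → F}
    (hb : ∀ a, lab u c (b a) x₀ = T) (x : Euc ι) : lin (fun i => T⁻¹ * ∑ a, u (b a) i) x₀ x =
      ∑ a, T⁻¹ * lab u c (b a) x - (Fintype.card ι + 1) := by
  simp only [lin, mul_assoc, ← Finset.mul_sum, Finset.sum_mul]
  rw [Finset.sum_comm]
  simp only [lab_sub (c := c), hb]
  rw [Finset.sum_sub_distrib, mul_sub, Finset.sum_const, Finset.card_univ, Fintype.card_sum,
    Fintype.card_unit, nsmul_eq_mul, mul_left_comm T⁻¹, inv_mul_cancel₀ hT.ne', mul_one,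
    Nat.cast_succ]

/-- The weighted volume bound when the active cone is not cut in a bounded set. -/
theorem bound_shear {n : ℕ} (hn : Fintype.card ι = n + 1) (L : Labelled u c H) {x₀ : Euc ι} {T : ℝ}
    (hT : 0 < T) {b : ι ⊕ Unit → F} (hb : ∀ a, lab u c (b a) x₀ = T)
    {U : Matrix (ι ⊕ Unit) (ι ⊕ Unit) ℝ} (hU : ∀ a, U a = Sum.elim (u (b a)) fun _ => c (b a))
    (hD : U.det ≠ 0) {ρ : ι ⊕ Unit → ℝ} {a₀ : ι ⊕ Unit} {s : ℝ} (hs : 0 < s)
    (hρ : U *ᵥ ρ = Pi.single a₀ s) (hρ0 : ρ (Sum.inr ()) ≤ 0) :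
    |U.det| * ∫ x in poly u c, wt (fun i => T⁻¹ * ∑ a, u (b a) i) x₀ x ≤
      T ^ (n + 2) * (Real.exp 1 * (n + 1) ^ (n + 1) / n.factorial) := by
  have hW : (T⁻¹ • U).det = T⁻¹ ^ (n + 2) * U.det := by simp [hn]
  have hW0 : (T⁻¹ • U).det ≠ 0 := hW ▸ mul_ne_zero (pow_pos (inv_pos.2 hT) _).ne' hD
  have h1 := lint_shear' hn hW0 (ρ := ρ) (a₀ := a₀) (mul_pos (inv_pos.2 hT) hs)
    (by rw [Matrix.smul_mulVec, hρ, ← Pi.single_smul', smul_eq_mul]) hρ0
  have hx : ∀ (x : Euc ι) a, ((T⁻¹ • U) *ᵥ Sum.elim x.ofLp fun _ => 1) a =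
      T⁻¹ * lab u c (b a) x := fun x a => by
    rw [Matrix.smul_mulVec, lab_elim, ← hU]
    rfl
  have h2 : ∫⁻ x in poly u c, ENNReal.ofReal (wt (fun i => T⁻¹ * ∑ a, u (b a) i) x₀ x) ≤
      ∫⁻ x : Euc ι, ENNReal.ofReal (Real.exp (n + 2)) *
        orth ((T⁻¹ • U) *ᵥ Sum.elim x.ofLp fun _ => 1) := by
    rw [← lintegral_indicator isOpen_poly.measurableSet]
    refine lintegral_mono fun x => indicator_apply_le' (fun hx' => le_of_eq ?_) fun _ => zero_le
    rw [orth, indicator_of_mem (show _ ∈ {w : ι ⊕ Unit → ℝ | ∀ j, 0 < w j} from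
      fun a => by rw [hx]; exact mul_pos (inv_pos.2 hT) (hx' _)),
      ← ENNReal.ofReal_mul (Real.exp_pos _).le, ← Real.exp_add, wt, lin_active hT hb, hn]
    simp only [hx]
    congr 2
    push_cast
    ring
  rw [lintegral_const_mul' _ _ ENNReal.ofReal_ne_top, (PiLp.volume_preserving_ofLp ι).lintegral_comp_emb
    (MeasurableEquiv.toLp 2 (ι → ℝ)).symm.measurableEmbedding
    (fun x => orth ((T⁻¹ • U) *ᵥ Sum.elim x fun _ => 1)), ← L.ofReal_wt] at h2
  have h3 := (mul_le_mul_right h2 (ENNReal.ofReal (|(T⁻¹ • U).det| *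
    (n.factorial / (n + 1) ^ (n + 1) * Real.exp (n + 1))))).trans
    ((mul_left_comm _ _ _).trans_le (mul_le_mul_right h1 _))
  rw [mul_one, ← ENNReal.ofReal_mul (by positivity),
    ENNReal.ofReal_le_ofReal_iff (Real.exp_pos _).le, hW, abs_mul,
    abs_of_pos (pow_pos (inv_pos.2 hT) _), show (n : ℝ) + 2 = n + 1 + 1 by ring,
    Real.exp_add (n + 1) 1] at h3
  have h4 : 0 < T⁻¹ ^ (n + 2) * (n.factorial / (n + 1) ^ (n + 1) * Real.exp (n + 1)) := by
    positivity
  refine le_of_mul_le_mul_left (le_trans (le_of_eq (by ring)) (h3.trans (le_of_eq ?_))) h4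
  field_simp
  rw [← mul_pow, one_div, inv_mul_cancel₀ hT.ne', one_pow]

/-- The weighted volume bound from the active cone. -/
theorem bound_polar (L : Labelled u c H) {x₀ : Euc ι} {T : ℝ}
    (hT : 0 < T) {b : ι ⊕ Unit → F} (hb : ∀ a, lab u c (b a) x₀ = T)
    {U : Matrix (ι ⊕ Unit) (ι ⊕ Unit) ℝ} (hU : ∀ a, U a = Sum.elim (u (b a)) fun _ => c (b a))
    (hD : U.det ≠ 0) : |U.det| * ∫ x in poly u c, wt (fun i => T⁻¹ * ∑ a, u (b a) i) x₀ x ≤
      T ^ (Fintype.card ι + 1) *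
        ((Fintype.card ι + 1) ^ (Fintype.card ι + 1) / (Fintype.card ι).factorial) := by
  set n := Fintype.card ι with hn
  have hW : (T⁻¹ • U).det = T⁻¹ ^ (n + 1) * U.det := by simp [hn]
  have hW0 : (T⁻¹ • U).det ≠ 0 := hW ▸ mul_ne_zero (pow_pos (inv_pos.2 hT) _).ne' hD
  have hx : ∀ (x : Euc ι) (t : ℝ) a, ((T⁻¹ • U) *ᵥ Sum.elim (t • x.ofLp) fun _ => t) a =
      T⁻¹ * lab u c (b a) x * t := fun x t a => by
    have : (Sum.elim (t • x.ofLp) fun _ => t : ι ⊕ Unit → ℝ) =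
        t • Sum.elim x.ofLp fun _ => 1 := funext fun j => by rcases j with j | j <;> simp
    rw [this, Matrix.mulVec_smul, Matrix.smul_mulVec, lab_elim, ← hU, mul_comm]
    rfl
  have h3 : ENNReal.ofReal (n.factorial / (n + 1) ^ (n + 1)) *
      ∫⁻ x in poly u c, ENNReal.ofReal (wt (fun i => T⁻¹ * ∑ a, u (b a) i) x₀ x) ≤
      ∫⁻ x : Euc ι, ∫⁻ t in Ioi (0 : ℝ), ENNReal.ofReal (t ^ n) *
        orth ((T⁻¹ • U) *ᵥ Sum.elim (t • x.ofLp) fun _ => t) := by
    rw [← lintegral_const_mul' _ _ ENNReal.ofReal_ne_top,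
      ← lintegral_indicator isOpen_poly.measurableSet]
    refine lintegral_mono fun x => indicator_apply_le' (fun hx' => ?_) fun _ => zero_le
    have a1 : ∀ a, 0 < T⁻¹ * lab u c (b a) x := fun a => mul_pos (inv_pos.2 hT) (hx' _)
    rw [← ENNReal.ofReal_mul (by positivity), wt, lin_active hT hb]
    refine (lint_cone (Finset.sum_pos (fun a _ => a1 a) Finset.univ_nonempty) n).trans
      (le_of_eq (setLIntegral_congr_fun measurableSet_Ioi fun t ht => ?_))
    simp only [orth]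
    rw [indicator_of_mem (show _ ∈ {w : ι ⊕ Unit → ℝ | ∀ j, 0 < w j} from
      fun a => by rw [hx]; exact mul_pos (a1 a) ht),
      ← ENNReal.ofReal_mul (pow_nonneg (le_of_lt ht) _)]
    simp only [hx, Finset.sum_mul]
  have h4 := h3.trans (((PiLp.volume_preserving_ofLp ι).lintegral_comp_emb
    (MeasurableEquiv.toLp 2 (ι → ℝ)).symm.measurableEmbedding _).trans_le (lint_polar hW0))
  rw [← L.ofReal_wt, ← ENNReal.ofReal_mul (by positivity),
    ENNReal.ofReal_le_ofReal_iff (abs_nonneg _), hW, abs_inv, abs_mul,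
    abs_of_pos (pow_pos (inv_pos.2 hT) _), inv_pow, mul_inv, inv_inv, ← le_div_iff₀' (by positivity)]
    at h4
  refine (mul_le_mul_of_nonneg_left h4 (abs_nonneg _)).trans (le_of_eq ?_)
  have hB0 := (abs_pos.2 hD).ne'
  field_simp

/-- A deepest point with a basis of active homogeneous normals. -/
theorem exists_active [Nonempty ι] (L : Labelled u c H) :
    ∃ (x₀ : Euc ι) (T : ℝ) (b : ι ⊕ Unit → F), 0 < T ∧ (∀ k, T ≤ lab u c k x₀) ∧
      (∀ a, lab u c (b a) x₀ = T) ∧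
      (Matrix.of fun a => Sum.elim (u (b a)) fun _ : Unit => c (b a)).det ≠ 0 := by
  obtain ⟨x₀, T, hT, h₀, h1, h2⟩ := exists_center L.bounded L.nonempty
  obtain ⟨b, hb, hdet⟩ := exists_basis (fun k => Sum.elim (u k) fun _ : Unit => c k)
    (fun k => lab u c k x₀ = T) fun y hy => by
    have e1 : ∀ k, lab u c k x₀ = T →
        u k ⬝ᵥ (fun i => y (Sum.inl i) - y (Sum.inr ()) * x₀ i) = -(y (Sum.inr ()) * T) := by
      intro k hk
      have a1 := hy k hk
      rw [← hk]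
      simp only [dotProduct, Fintype.sum_sum_type, Finset.univ_unique, Finset.sum_singleton,
        PUnit.default_eq_unit, Sum.elim_inl, Sum.elim_inr] at a1
      simp only [lab, dotProduct, mul_sub, Finset.sum_sub_distrib, mul_add, Finset.mul_sum,
        mul_left_comm _ (y (Sum.inr ()))]
      linarith
    have e2 : y (Sum.inr ()) = 0 := by
      by_contra hne
      refine h2 (-y (Sum.inr ()) • fun i => y (Sum.inl i) - y (Sum.inr ()) * x₀ i) fun k hk => ?_
      rw [dotProduct_smul, e1 k hk, smul_eq_mul]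
      nlinarith [mul_self_pos.2 hne]
    have e3 := h1 _ fun k hk => (e1 k hk).trans (by rw [e2]; simp)
    funext a
    rcases a with a | a
    · simpa [e2] using congrFun e3 a
    · exact e2
  exact ⟨x₀, T, b, hT, h₀, hb, hdet⟩

/-- If the polytope is not a simplex, some active cone is not cut in a bounded set. -/
theorem exists_shear (L : Labelled u c H) {x₀ : Euc ι} {T : ℝ} (hT : 0 < T)
    (h₀ : ∀ k, T ≤ lab u c k x₀) {b : ι ⊕ Unit → F} (hb : ∀ a, lab u c (b a) x₀ = T)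
    (hD : (Matrix.of fun a => Sum.elim (u (b a)) fun _ : Unit => c (b a)).det ≠ 0) {k₀ : F}
    (hk : ∀ a, b a ≠ k₀) :
    ∃ (x₀ : Euc ι) (T : ℝ) (b : ι ⊕ Unit → F) (ρ : ι ⊕ Unit → ℝ) (a₀ : ι ⊕ Unit) (s : ℝ),
      0 < T ∧ (∀ k, T ≤ lab u c k x₀) ∧ (∀ a, lab u c (b a) x₀ = T) ∧
      (Matrix.of fun a => Sum.elim (u (b a)) fun _ : Unit => c (b a)).det ≠ 0 ∧ 0 < s ∧
      (Matrix.of fun a => Sum.elim (u (b a)) fun _ : Unit => c (b a)) *ᵥ ρ = Pi.single a₀ s ∧
      ρ (Sum.inr ()) ≤ 0 := by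
  classical
  set w : F → ι ⊕ Unit → ℝ := fun k => Sum.elim (u k) fun _ => c k with hw
  set U : Matrix (ι ⊕ Unit) (ι ⊕ Unit) ℝ := Matrix.of fun a => w (b a) with hU
  have hUU : ∀ k, (w k ᵥ* U⁻¹) ᵥ* U = w k := fun k => by
    rw [Matrix.vecMul_vecMul, Matrix.nonsing_inv_mul _ hD.isUnit, Matrix.vecMul_one]
  have hl : ∀ k (x : Euc ι), lab u c k x = w k ⬝ᵥ Sum.elim x.ofLp fun _ => 1 := lab_elim
  obtain ⟨a₀, ha₀⟩ : ∃ a, (w k₀ ᵥ* U⁻¹) a < 0 := by
    by_contra hcon
    push Not at hcon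
    obtain ⟨q, hq, hq'⟩ := L.facet k₀
    have e1 : ∑ a, (w k₀ ᵥ* U⁻¹) a * lab u c (b a) q = 0 := by
      rw [← hq, hl k₀, ← hUU k₀, ← Matrix.dotProduct_mulVec, hUU]
      simp only [hl]
      rfl
    have e2 := (Finset.sum_eq_zero_iff_of_nonneg fun a _ =>
      mul_nonneg (hcon a) (hq' _ (hk a)).le).1 e1
    have e3 : w k₀ ᵥ* U⁻¹ = 0 := funext fun a =>
      (mul_eq_zero.1 (e2 a (Finset.mem_univ a))).resolve_right (hq' _ (hk a)).ne'
    refine L.ne_zero k₀ (funext fun i => ?_)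
    have := congrFun (hUU k₀) (Sum.inl i)
    rw [e3, Matrix.zero_vecMul] at this
    exact this.symm
  set ρ := U⁻¹ *ᵥ Pi.single a₀ 1 with hρ
  have h1 : U *ᵥ ρ = Pi.single a₀ 1 := by
    rw [hρ, Matrix.mulVec_mulVec, Matrix.mul_nonsing_inv _ hD.isUnit, Matrix.one_mulVec]
  have h2 : ∀ k, w k ⬝ᵥ ρ = (w k ᵥ* U⁻¹) a₀ := fun k => by
    rw [hρ, Matrix.dotProduct_mulVec, dotProduct_single, mul_one]
  rcases le_or_gt (ρ (Sum.inr ())) 0 with h3 | h3
  · exact ⟨x₀, T, b, ρ, a₀, 1, hT, h₀, hb, hD, one_pos, h1, h3⟩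
  obtain ⟨k, hk1, hk2⟩ := (Finset.univ.filter fun k => w k ⬝ᵥ ρ < 0).exists_min_image
    (fun k => (lab u c k x₀ - T) / -(w k ⬝ᵥ ρ)) ⟨k₀, by simpa [h2] using ha₀⟩
  simp only [Finset.mem_filter, Finset.mem_univ, true_and] at hk1 hk2
  set t := (lab u c k x₀ - T) / -(w k ⬝ᵥ ρ) with ht
  have ht0 : 0 ≤ t := _root_.div_nonneg (sub_nonneg.2 (h₀ k)) (neg_pos.2 hk1).le
  have hs : 0 < (1 + t * ρ (Sum.inr ()))⁻¹ := by positivity
  set s := (1 + t * ρ (Sum.inr ()))⁻¹ with hs'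
  set x : Euc ι := WithLp.toLp 2 fun i => s * (x₀ i + t * ρ (Sum.inl i)) with hx
  have h4 : ∀ j, lab u c j x = s * (lab u c j x₀ + t * w j ⬝ᵥ ρ) := fun j => by
    have : (Sum.elim x.ofLp fun _ => 1 : ι ⊕ Unit → ℝ) =
        s • ((Sum.elim x₀.ofLp fun _ => 1) + t • ρ) := funext fun a => by
      rcases a with a | a
      · rfl
      · exact (inv_mul_cancel₀ (inv_pos.1 hs).ne').symm
    rw [hl, hl, this, dotProduct_smul, dotProduct_add, dotProduct_smul, smul_eq_mul, smul_eq_mul]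
  have h5 : (Matrix.of fun a => w (Function.update b a₀ k a)) = U.updateRow a₀ (w k) := by
    ext a j
    by_cases ha : a = a₀ <;> simp [ha, hU, Matrix.updateRow_apply]
  have h6 : ∀ a, a ≠ a₀ → w (b a) ⬝ᵥ ρ = 0 := fun a ha =>
    (congrFun h1 a).trans (Pi.single_eq_of_ne ha _)
  refine ⟨x, s * T, Function.update b a₀ k, -ρ, a₀, -(w k ⬝ᵥ ρ), mul_pos hs hT, fun j => ?_,
    fun a => ?_, ?_, neg_pos.2 hk1, ?_, neg_nonpos.2 h3.le⟩
  · rw [h4]
    refine mul_le_mul_of_nonneg_left ?_ hs.le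
    rcases lt_or_ge (w j ⬝ᵥ ρ) 0 with e | e
    · have := (le_div_iff₀ (neg_pos.2 e)).1 (hk2 j e)
      linarith
    · linarith [h₀ j, mul_nonneg ht0 e]
  · rw [h4]
    by_cases ha : a = a₀
    · rw [ha, Function.update_self, ht, div_neg, neg_mul, div_mul_cancel₀ _ hk1.ne]
      ring
    · rw [Function.update_of_ne ha, h6 a ha, hb, mul_zero, add_zero]
  · refine h5 ▸ ?_
    rw [← hUU k, Matrix.vecMul_eq_sum, Matrix.det_updateRow_sum, smul_eq_mul, ← h2]
    exact mul_ne_zero hk1.ne hD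
  · funext a
    by_cases ha : a = a₀
    · simp [ha, Matrix.mulVec, hw]
    · simpa [ha, Matrix.mulVec, hw] using h6 a ha

theorem half_le_gap {n : ℝ} (hn : 1 ≤ n) {m : ℕ} (hm : n = m) :
    (n + 1) ^ (m + 1) ≤ 2 * (Real.exp 1 * n ^ (m + 1)) := by
  have h0 : 0 < n := zero_lt_one.trans_le hn
  have h1 : n + 1 ≤ Real.exp n⁻¹ * n := by
    have := mul_le_mul_of_nonneg_right (Real.add_one_le_exp n⁻¹) h0.le
    rwa [add_mul, inv_mul_cancel₀ h0.ne', one_mul, add_comm] at this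
  have h2 := pow_le_pow_left₀ (by positivity) h1 m
  rw [mul_pow, ← Real.exp_nat_mul, ← hm, mul_inv_cancel₀ h0.ne'] at h2
  rw [pow_succ, pow_succ]
  calc (n + 1) ^ m * (n + 1) ≤ Real.exp 1 * n ^ m * (2 * n) := by gcongr; linarith
    _ = _ := by ring

/-- The improved weighted volume bound when the normals are not a lattice basis. -/
theorem exists_bound_gap [Nonempty ι] {B : Matrix (ι ⊕ Unit) (ι ⊕ Unit) ℝ}
    {v : F → ι ⊕ Unit → ℤ} (hu : u = fun k i => ((fun a => (v k a : ℝ)) ᵥ* B) (Sum.inl i))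
    (hc : c = fun k => ((fun a => (v k a : ℝ)) ᵥ* B) (Sum.inr ())) (L : Labelled u c H)
    (hv : ¬∃ e : ι ⊕ Unit ≃ F, IsUnit (Matrix.of fun a => v (e a)).det) :
    ∃ (x₀ : Euc ι) (T : ℝ) (ξ : ι → ℝ), 0 < T ∧ (∀ k, T ≤ lab u c k x₀) ∧
      0 ≤ ∫ x in poly u c, lin ξ x₀ x * wt ξ x₀ x ∧
      |B.det| * ∫ x in poly u c, wt ξ x₀ x ≤ T ^ (Fintype.card ι + 1) *
        (Real.exp 1 * Fintype.card ι ^ (Fintype.card ι + 1) / (Fintype.card ι).factorial) := by
  have hU : ∀ b : ι ⊕ Unit → F, (Matrix.of fun a => Sum.elim (u (b a)) fun _ : Unit => c (b a)).det =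
      ((Matrix.of fun a => v (b a)).map (Int.cast : ℤ → ℝ)).det * B.det := fun b => by
    rw [← Matrix.det_mul]
    congr 1
    ext a (j | j) <;> simp [hu, hc, Matrix.mul_apply, Matrix.vecMul, dotProduct]
  suffices h : ∃ (x₀ : Euc ι) (T : ℝ) (ξ : ι → ℝ), 0 < T ∧ (∀ k, T ≤ lab u c k x₀) ∧
      |B.det| * ∫ x in poly u c, wt ξ x₀ x ≤ T ^ (Fintype.card ι + 1) *
        (Real.exp 1 * Fintype.card ι ^ (Fintype.card ι + 1) / (Fintype.card ι).factorial) by
    obtain ⟨x₀, T, ξ, hT, h₀, h⟩ := h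
    obtain ⟨s, hs, hs'⟩ := L.exists_scale ξ x₀
    exact ⟨x₀, T, _, hT, h₀, hs, (mul_le_mul_of_nonneg_left hs' (abs_nonneg _)).trans h⟩
  obtain ⟨x₀, T, b, hT, h₀, hb, hD⟩ := exists_active L
  obtain ⟨n, hn⟩ := Nat.exists_eq_succ_of_ne_zero (Fintype.card_ne_zero (α := ι))
  by_cases hs : Function.Surjective b
  · refine ⟨x₀, T, fun i => T⁻¹ * ∑ a, u (b a) i, hT, h₀, ?_⟩
    have h1 := bound_polar L hT hb (by exact fun _ => rfl) hD
    have hi : Function.Injective b := fun a a' e => by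
      by_contra hne
      exact hD (Matrix.det_zero_of_row_eq hne (by ext j; simp [e]))
    rw [hU, ← Int.cast_det] at hD h1
    have h2 : 2 ≤ |(Matrix.of fun a => v (b a)).det| := by
      have a1 := Int.one_le_abs (Int.cast_ne_zero.1 (left_ne_zero_of_mul hD))
      refine a1.lt_of_ne fun e => hv ⟨Equiv.ofBijective b ⟨hi, hs⟩, ?_⟩
      exact Int.isUnit_iff_abs_eq.2 e.symm
    have h3 : (2 : ℝ) ≤ |((Matrix.of fun a => v (b a)).det : ℝ)| := by exact_mod_cast h2
    have h4 := half_le_gap (n := Fintype.card ι) (by exact_mod_cast Fintype.card_pos) rfl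
    have h5 := mul_le_mul_of_nonneg_right h3 (mul_nonneg (abs_nonneg B.det)
      (L.wt_pos (fun i => T⁻¹ * ∑ a, u (b a) i) x₀).le)
    have h6 := mul_le_mul_of_nonneg_left (div_le_div_of_nonneg_right h4
      (Nat.cast_nonneg (Fintype.card ι).factorial)) (pow_pos hT (Fintype.card ι + 1)).le
    rw [abs_mul, mul_assoc] at h1
    rw [mul_div_assoc 2, mul_left_comm] at h6
    linarith
  · obtain ⟨k₀, hk⟩ : ∃ k, ∀ a, b a ≠ k := by simpa [Function.Surjective] using hs
    obtain ⟨x₀, T, b, ρ, a₀, s, hT, h₀, hb, hD, hs, hρ, hρ0⟩ := exists_shear L hT h₀ hb hD hk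
    refine ⟨x₀, T, fun i => T⁻¹ * ∑ a, u (b a) i, hT, h₀, ?_⟩
    have h1 := bound_shear hn L hT hb (by exact fun _ => rfl) hD hs hρ hρ0
    rw [hU] at hD h1
    have h2 := mul_le_mul_of_nonneg_right (one_le_abs_det (left_ne_zero_of_mul hD))
      (mul_nonneg (abs_nonneg B.det) (L.wt_pos (fun i => T⁻¹ * ∑ a, u (b a) i) x₀).le)
    rw [abs_mul, mul_assoc] at h1
    rw [one_mul] at h2
    refine (h2.trans h1).trans (le_of_eq ?_)
    rw [hn, Nat.succ_eq_add_one, Nat.factorial_succ]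
    push_cast
    field_simp
    ring

theorem nu_le_gap [Nonempty ι] {M : Type w} [TopologicalSpace M] [T2Space M] [CompactSpace M]
    [ChartedSpace (Euc (ι ⊕ (ι ⊕ Unit))) M] [IsManifold 𝓘(ℝ, Euc (ι ⊕ (ι ⊕ Unit))) ∞ M]
    [MeasurableSpace M] [BorelSpace M] (g : Metrics 𝓘(ℝ, Euc (ι ⊕ (ι ⊕ Unit))) M)
    {B : Matrix (ι ⊕ Unit) (ι ⊕ Unit) ℝ} (hB : B.det ≠ 0) {v : F → ι ⊕ Unit → ℤ}
    (hu : u = fun k i => ((fun a => (v k a : ℝ)) ᵥ* B) (Sum.inl i))
    (hc : c = fun k => ((fun a => (v k a : ℝ)) ᵥ* B) (Sum.inr ()))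
    (L : Labelled u c H) {a : Euc ι → ℝ} (ha : ContDiff ℝ ∞ a) (ha0 : ∀ x, 0 < a x)
    (h : ActionAngle g (poly u c) H (contactK B a H))
    (hv : ¬∃ e : ι ⊕ Unit ≃ F, IsUnit (Matrix.of fun a => v (e a)).det) :
    entNu g ≤ (Real.log (theta (2 * Fintype.card ι + 1)) -
      ((Fintype.card ι + 1) * Real.log (1 + 1 / Fintype.card ι) - 1) : ℝ) := by
  obtain ⟨e, μ, A, he, ht, h0, hμ, hb, hA, hG⟩ := h
  obtain ⟨x₀, T, ξ, hT, h₀, hY, hJ⟩ := exists_bound_gap hu hc L hv
  have hray : ∀ α, ContDiff ℝ ∞ fun x : Euc ι => ray B x α := fun α =>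
    ContDiff.sum fun j _ => contDiff_const.mul (by
      rcases j with j | j
      · exact cd_coord j
      · exact contDiff_const)
  have d := dat_of_chart L (K := contactK B a H) (fun α β => ((ha.pow 2).mul
    ((hray α).mul (hray β))).add (ContDiff.sum fun i _ => ContDiff.sum fun j _ =>
      (contDiff_const.mul (L.smooth i j)).mul contDiff_const)) he ht hA hG
  have loc := loc_contact hB ha ha0 d e.open_target (fun y hy => (ht.subset hy).1) hG
  have hn : 0 < Fintype.card ι := Fintype.card_pos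
  rw [log_theta_odd hn]
  set n := Fintype.card ι with hn0
  have hn' : (0 : ℝ) < n := Nat.cast_pos.2 hn
  have hB0 := abs_pos.2 hB
  have hτ : 0 < (n + 1) * T / (2 * n) := by positivity
  have hm := master L ξ x₀ he ht h0 hμ hb (contDiff_const.mul ha) (fun x => mul_pos hB0 (ha0 x))
    loc hT h₀ hτ (B := Real.log |B.det| - 1 / 2 * Real.log ((n + 1) * T / 2) - 1 / 2) fun x => by
      have h1 := Real.log_le_sub_one_of_pos (show 0 < (n + 1) * T / 2 * a x ^ 2 by
        have := ha0 x; positivity)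
      rw [Real.log_mul (by positivity) (pow_pos (ha0 x) 2).ne', Real.log_pow] at h1
      have h2 : (n + 1) * T / (2 * n) * (n / 2 * a x ^ 2) = (n + 1) * T / 2 * a x ^ 2 / 2 := by
        field_simp
      rw [Real.log_mul hB0.ne' (ha0 x).ne', h2]
      push_cast at h1
      linarith
  refine hm.trans (EReal.coe_le_coe_iff.2 ?_)
  have hJ0 := L.wt_pos ξ x₀
  have h3 : (0 : ℝ) < n.factorial := Nat.cast_pos.2 n.factorial_pos
  have h1 := Real.log_le_log (mul_pos hB0 hJ0) hJ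
  rw [Real.log_mul hB0.ne' hJ0.ne', Real.log_mul (by positivity) (by positivity),
    Real.log_div (by positivity) h3.ne', Real.log_mul (by positivity) (by positivity),
    Real.log_exp, Real.log_pow, Real.log_pow] at h1
  have h4 : 2 * ((n + 1) * T / (2 * n)) * n / T = n + 1 := by field_simp
  have h5 : 1 - 2 * ((n + 1) * T / (2 * n)) / T = -(n : ℝ)⁻¹ := by field_simp; ring
  have h6 : 4 * Real.pi * ((n + 1) * T / (2 * n)) = 2 * Real.pi * ((n + 1) * T) / n := by
    field_simp; ring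
  have h8 : (1 : ℝ) + 1 / n = (n + 1) / n := by field_simp
  have h7 := mul_nonneg (inv_pos.2 hn').le (_root_.div_nonneg hY hJ0.le)
  simp only [Fintype.card_sum, Fintype.card_unit, ← hn0]
  rw [h4, h5, h6, h8, Real.log_mul (by positivity) hJ0.ne', Real.log_pow,
    Real.log_div (by positivity) hn'.ne', Real.log_div (by positivity) two_ne_zero,
    Real.log_div (by positivity) hn'.ne',
    Real.log_mul (x := 2 * Real.pi) (by positivity) (by positivity),
    Real.log_mul (x := n + 1) (by positivity) hT.ne',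
    Real.log_mul two_ne_zero Real.pi_pos.ne']
  push_cast at h1 ⊢
  linarith

end Pool.Agent.MP_c98b3a_gt
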